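import Mathlib

set_option autoImplicit false

/-!
# Some algebra over a principal ideal domain
-/

namespace Pool.BDP

/-- a submodule of a module with `n` generators has `n` generators -/
theorem surj_sub {R : Type} [CommRing R] [IsDomain R] [IsPrincipalIdealRing R] {Q N : Type}
    [AddCommGroup Q] [Module R Q] [AddCommGroup N] [Module R N] (n : ℕ)
    (π : (Fin n → R) →ₗ[R] Q) (hπ : Function.Surjective π) (i : N →ₗ[R] Q)
    (hi : Function.Injective i) : ∃ f : (Fin n → R) →ₗ[R] N, Function.Surjective f := by
  classical
  set P : Submodule R (Fin n → R) := (LinearMap.range i).comap π with hP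
  let e := LinearEquiv.ofInjective i hi
  let g : P →ₗ[R] LinearMap.range i := (π.comp P.subtype).codRestrict _ (fun x => x.2)
  have hg : Function.Surjective g := by
    rintro ⟨y, hy⟩
    obtain ⟨x, rfl⟩ := hπ y
    exact ⟨⟨x, hy⟩, rfl⟩
  have hle : Module.finrank R P ≤ n := by
    have := Submodule.finrank_le P
    simpa using this
  let b := Module.finBasis R P
  let r : (Fin n → R) →ₗ[R] (Fin (Module.finrank R P) → R) :=
    LinearMap.funLeft R R (Fin.castLE hle)
  have hr : Function.Surjective r := by
    exact LinearMap.funLeft_surjective_of_injective R R _ (Fin.castLE_injective hle)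
  refine ⟨(e.symm.toLinearMap.comp g).comp (b.equivFun.symm.toLinearMap.comp r), ?_⟩
  exact (e.symm.surjective.comp hg).comp (b.equivFun.symm.surjective.comp hr)

/-- Cayley and Hamilton, with the degree -/
theorem monic_end {R : Type} [CommRing R] [Nontrivial R] {M : Type} [AddCommGroup M] [Module R M]
    (n : ℕ) (π : (Fin n → R) →ₗ[R] M) (hπ : Function.Surjective π) (g : Module.End R M) :
    ∃ f : Polynomial R, f.Monic ∧ f.natDegree = n ∧ Polynomial.aeval g f = 0 := by
  obtain ⟨G, hG⟩ := Module.projective_lifting_property π (g.comp π) hπ
  have key : ∀ f : Polynomial R, (Polynomial.aeval g f).comp π =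
      π.comp (Polynomial.aeval (G : Module.End R (Fin n → R)) f) := by
    intro f
    induction f using Polynomial.induction_on' with
    | add p q hp hq =>
      rw [map_add, map_add, LinearMap.add_comp, LinearMap.comp_add, hp, hq]
    | monomial k a =>
      rw [Polynomial.aeval_monomial, Polynomial.aeval_monomial]
      have hk : ∀ k : ℕ, ((g ^ k : Module.End R M)).comp π =
          π.comp ((G : Module.End R (Fin n → R)) ^ k) := by
        intro k
        induction k with
        | zero => rfl
        | succ k ih =>
          rw [pow_succ', pow_succ']
          change g.comp ((g ^ k : Module.End R M).comp π) =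
            (π.comp G).comp ((G : Module.End R (Fin n → R)) ^ k)
          rw [ih, hG]
          rfl
      ext x
      have := LinearMap.congr_fun (hk k) (Pi.single x 1)
      simp only [LinearMap.comp_apply] at this
      simp only [Algebra.algebraMap_eq_smul_one, smul_mul_assoc, one_mul, LinearMap.comp_apply,
        LinearMap.smul_apply, LinearMap.map_smul]
      simp [this]
  refine ⟨LinearMap.charpoly (G : Module.End R (Fin n → R)), LinearMap.charpoly_monic _, ?_, ?_⟩
  · rw [LinearMap.charpoly_natDegree]
    simp
  · have h := key (LinearMap.charpoly (G : Module.End R (Fin n → R)))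
    rw [LinearMap.aeval_self_charpoly, LinearMap.comp_zero] at h
    ext x
    obtain ⟨y, rfl⟩ := hπ x
    exact LinearMap.congr_fun h y

end Pool.BDP
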