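import Mathlib

set_option autoImplicit false

/-!
# Local structure at a prime of a Dedekind domain
-/

namespace Pool.BDP

/-- a prime element for the prime `v` -/
theorem ded_unif {R : Type*} [CommRing R] [IsDedekindDomain R] (v : Ideal R) [hv : v.IsPrime]
    (hv0 : v ≠ ⊥) : ∃ ϖ : R, ϖ ∈ v ∧ ϖ ∉ v ^ 2 := by
  have h : ¬ v ≤ v ^ 2 := by
    intro h
    have h1 : v ^ 2 ∣ v := Ideal.dvd_iff_le.2 h
    have h2 : v * v ∣ v * 1 := by rw [← pow_two, mul_one]; exact h1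
    have h3 : v ∣ 1 := (mul_dvd_mul_iff_left hv0).1 h2
    have h4 : IsUnit v := isUnit_of_dvd_one h3
    rw [Ideal.isUnit_iff] at h4
    exact hv.ne_top h4
  rw [SetLike.not_le_iff_exists] at h
  exact h

theorem ded_local {R : Type*} [CommRing R] [IsDedekindDomain R] (v : Ideal R) [hv : v.IsPrime]
    (hv0 : v ≠ ⊥) (ϖ : R) (h1 : ϖ ∈ v) (h2 : ϖ ∉ v ^ 2) (α : R) (hα : α ≠ 0) :
    ∃ (k : ℕ) (u s : R), (u ∉ v ∧ s ∉ v ∧ α * s = u * ϖ ^ k) ∧ α ∈ v ^ k ∧ α ∉ v ^ (k + 1) := by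
  have hvm : v.IsMaximal := hv.isMaximal hv0
  have hfin : FiniteMultiplicity v (Ideal.span {α}) := by
    apply FiniteMultiplicity.of_not_isUnit
    · rw [Ideal.isUnit_iff]; exact hv.ne_top
    · simpa using hα
  obtain ⟨c, hc, hvc⟩ := hfin.exists_eq_pow_mul_and_not_dvd
  obtain ⟨n, hn⟩ : v ∣ Ideal.span {ϖ} := Ideal.dvd_span_singleton.2 h1
  have hvn : ¬ v ∣ n := by
    rintro ⟨m, hm⟩
    apply h2
    rw [← Ideal.dvd_span_singleton, hn, hm, pow_two]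
    exact mul_dvd_mul_left v (dvd_mul_right v m)
  obtain ⟨s0, hs0, hs0v⟩ : ∃ s0 ∈ n, s0 ∉ v := by
    rw [Ideal.dvd_iff_le, SetLike.not_le_iff_exists] at hvn
    exact hvn
  set k := multiplicity v (Ideal.span {α}) with hk
  have hαk : α ∈ v ^ k := by
    rw [← Ideal.dvd_span_singleton, hc]
    exact dvd_mul_right _ _
  have hs0k : s0 ^ k ∉ v := fun h => hs0v (hv.mem_of_pow_mem k h)
  have h3 : α * s0 ^ k ∈ Ideal.span {ϖ ^ k} := by
    rw [← Ideal.span_singleton_pow, hn, mul_pow]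
    exact Ideal.mul_mem_mul hαk (Ideal.pow_mem_pow hs0 k)
  obtain ⟨u, hu⟩ := Ideal.mem_span_singleton'.1 h3
  have hαk1 : α ∉ v ^ (k + 1) := by
    intro h5
    apply hvc
    rw [← Ideal.dvd_span_singleton, hc, pow_succ] at h5
    have hne : v ^ k ≠ 0 := pow_ne_zero _ hv0
    exact (mul_dvd_mul_iff_left hne).1 h5
  refine ⟨k, u, s0 ^ k, ⟨?_, hs0k, hu.symm⟩, hαk, hαk1⟩
  intro huv
  have h4 : α * s0 ^ k ∈ v ^ (k + 1) := by
    rw [← hu, pow_succ', ]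
    exact Ideal.mul_mem_mul huv (Ideal.pow_mem_pow h1 k)
  have h5 : α ∈ v ^ (k + 1) := by
    rw [mul_comm] at h4
    rcases Ideal.IsPrime.mul_mem_pow v h4 with h | h
    · exact absurd h hs0k
    · exact h
  exact hαk1 h5

end Pool.BDP
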