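import Pool.Agent.BDP.Quad
import Pool.Agent.BDP.Ded

set_option autoImplicit false
set_option linter.unusedSectionVars false
set_option linter.unusedVariables false
set_option linter.overlappingInstances false

/-!
# The class number of `ℚ(√-ℓ)` is odd, elementary form
-/

namespace Pool.BDP

namespace QData

variable {R : Type} [CommRing R] {ℓ : ℕ} (D : QData R ℓ) [IsDomain R] [CharZero R]
  [IsDedekindDomain R]

include D

theorem int_mem (l : Ideal R) (hl : l ≠ ⊤) (p : ℕ) (hp : p.Prime) (hpl : (p : R) ∈ l) (m : ℤ)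
    (hm : (m : R) ∈ l) : (p : ℤ) ∣ m := by
  by_contra h
  have hcop : IsCoprime (p : ℤ) m := (Prime.coprime_iff_not_dvd (Nat.prime_iff_prime_int.1 hp)).2 h
  obtain ⟨a, b, hab⟩ := hcop
  apply hl
  rw [Ideal.eq_top_iff_one]
  have h1 : (1 : R) = a * (p : R) + b * (m : R) := by
    have := congrArg (Int.cast : ℤ → R) hab
    push_cast at this
    exact this.symm
  rw [h1]
  exact l.add_mem (l.mul_mem_left _ hpl) (l.mul_mem_left _ hm)

theorem unram' (l : Ideal R) [hl : l.IsPrime] (p : ℕ) (hp : p.Prime)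
    (hpℓ : ¬ p ∣ ℓ) (hpl : (p : R) ∈ l) : (p : R) ∉ l ^ 2 := by
  intro h2
  have hp0 : (p : R) ≠ 0 := by exact_mod_cast hp.ne_zero
  have hl0 : l ≠ ⊥ := by
    rintro rfl
    exact hp0 (by simpa using hpl)
  obtain ⟨x0, hx0, hx0'⟩ := ded_unif l hl0
  have hdvd : ∀ m : ℤ, (m : R) ∈ l → (m : R) ∈ l ^ 2 := by
    intro m hm
    obtain ⟨k, rfl⟩ := D.int_mem l hl.ne_top p hp hpl m hm
    push_cast
    exact Ideal.mul_mem_right _ _ h2
  have hsq : ∀ x ∈ l, x ^ 2 ∈ l ^ 2 := fun x hx => Ideal.pow_mem_pow hx 2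
  have c1 : ∀ x ∈ l, x ∉ l ^ 2 → ∀ m : ℤ, x + D.s x = m → (m : R) ∈ l := by
    intro x hx hx2 m hm
    obtain ⟨n, hn, _⟩ := D.norm_int x
    have hnl : (n : R) ∈ l := by rw [← hn]; exact l.mul_mem_right _ hx
    have h3 : (m : R) * x ∈ l ^ 2 := by
      have : (m : R) * x = x ^ 2 + n := by rw [← hm, ← hn]; ring
      rw [this]
      exact Ideal.add_mem _ (hsq x hx) (hdvd n hnl)
    rcases Ideal.IsPrime.mul_mem_pow l h3 with h | h
    · exact h
    · exact absurd h hx2
  have c2 : ∀ x ∈ l, x + D.s x ∈ l ^ 2 := by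
    intro x hx
    obtain ⟨m, hm⟩ := D.trace_int x
    rw [hm]
    apply hdvd
    by_cases hx2 : x ∈ l ^ 2
    · obtain ⟨m0, hm0⟩ := D.trace_int x0
      have h3 := c1 x0 hx0 hx0' m0 hm0
      have h4 := c1 (x0 + x) (l.add_mem hx0 hx)
        (fun h => hx0' (by simpa using Ideal.sub_mem _ h hx2)) (m0 + m) (by
          rw [map_add]; push_cast; rw [← hm0, ← hm]; ring)
      have : (m : R) = ((m0 + m : ℤ) : R) - m0 := by push_cast; ring
      rw [this]
      exact l.sub_mem h4 h3
    · exact c1 x hx hx2 m hm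
  have h5 := c2 x0 hx0
  have h6 := c2 (D.ω * x0) (l.mul_mem_left _ hx0)
  rw [map_mul, D.hs] at h6
  have h7 : D.r * x0 ∈ l ^ 2 := by
    have : D.r * x0 = (D.ω * x0 + (1 - D.ω) * D.s x0) - (1 - D.ω) * (x0 + D.s x0) := by
      unfold r; ring
    rw [this]
    exact Ideal.sub_mem _ h6 (Ideal.mul_mem_left _ _ h5)
  have h8 : D.r ∈ l := by
    rcases Ideal.IsPrime.mul_mem_pow l h7 with h | h
    · exact h
    · exact absurd h hx0'
  have h9 : ((ℓ : ℤ) : R) ∈ l := by
    have : ((ℓ : ℤ) : R) = -(D.r ^ 2) := by rw [D.r_sq]; simp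
    rw [this]
    exact l.neg_mem (l.pow_mem_of_mem h8 2 (by norm_num))
  have h10 := D.int_mem l hl.ne_top p hp hpl ℓ h9
  have h11 : p ∣ ℓ := by exact_mod_cast h10
  exact hpℓ h11

theorem unram (hℓ : ℓ.Prime) (l : Ideal R) [hl : l.IsPrime] (p : ℕ) (hp : p.Prime)
    (hpℓ : p ≠ ℓ) (hpl : (p : R) ∈ l) : (p : R) ∉ l ^ 2 :=
  D.unram' l p hp (fun h => hpℓ ((Nat.prime_dvd_prime_iff_eq hp hℓ).1 h)) hpl

theorem sq_int (hℓ : ℓ.Prime) (k : ℕ) : ∀ m : ℤ, m ≠ 0 → m.natAbs ≤ k → ∀ d : Ideal R,
    d ^ 2 = Ideal.span {(m : R)} → d.IsPrincipal := by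
  induction k with
  | zero =>
    intro m hm hk
    exact absurd (by omega : m = 0) hm
  | succ k ih =>
    intro m hm hk d hd
    by_cases h1 : m.natAbs = 1
    · have hu : IsUnit (m : R) := by
        have : m = 1 ∨ m = -1 := by omega
        rcases this with rfl | rfl <;> simp
      rw [Ideal.span_singleton_eq_top.2 hu] at hd
      have h2 : IsUnit d := by
        have : d * d = 1 := by rw [← pow_two, hd, Ideal.one_eq_top]
        exact IsUnit.of_mul_eq_one _ this
      rw [Ideal.isUnit_iff] at h2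
      rw [h2]
      exact ⟨1, by simp⟩
    · set p := m.natAbs.minFac with hp
      have hpp : p.Prime := Nat.minFac_prime h1
      have hpm : (p : ℤ) ∣ m := Int.natCast_dvd.2 (Nat.minFac_dvd _)
      obtain ⟨m', hm'⟩ := hpm
      have hm'0 : m' ≠ 0 := by rintro rfl; simp at hm'; exact hm hm'
      have hp0 : ((p : ℤ) : R) ≠ 0 := by exact_mod_cast hpp.ne_zero
      have hp2 := hpp.two_le
      have habs : m.natAbs = p * m'.natAbs := by
        rw [hm', Int.natAbs_mul, Int.natAbs_natCast]
      have hm'pos : 0 < m'.natAbs := Int.natAbs_pos.2 hm'0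
      by_cases hpℓ : p = ℓ
      · -- the ramified prime
        have hr0 : D.r ≠ 0 := by
          intro h
          have := D.r_sq
          rw [h] at this
          have h3 : ((ℓ : ℕ) : R) = 0 := by simpa using this.symm
          exact hℓ.ne_zero (by exact_mod_cast h3)
        have hspan : Ideal.span {(m : R)} = Ideal.span {D.r} ^ 2 * Ideal.span {(m' : R)} := by
          rw [Ideal.span_singleton_pow, Ideal.span_singleton_mul_span_singleton,
            Ideal.span_singleton_eq_span_singleton, D.r_sq, hm', hpℓ]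
          refine ⟨-1, ?_⟩
          push_cast
          ring
        have hdv : Ideal.span {D.r} ∣ d := by
          rw [← UniqueFactorizationMonoid.pow_dvd_pow_iff_dvd (n := 2) (by norm_num), hd, hspan]
          exact dvd_mul_right _ _
        obtain ⟨d', rfl⟩ := hdv
        have hd' : d' ^ 2 = Ideal.span {(m' : R)} := by
          rw [mul_pow, hspan] at hd
          refine mul_left_cancel₀ ?_ hd
          apply pow_ne_zero
          simpa using hr0
        have hlt : m'.natAbs ≤ k := by nlinarith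
        obtain ⟨δ, hδ⟩ := ih m' hm'0 hlt d' hd'
        refine ⟨D.r * δ, ?_⟩
        rw [hδ]
        exact Ideal.span_singleton_mul_span_singleton _ _
      · -- an unramified prime
        have hnt : Ideal.span {((p : ℕ) : R)} ≠ ⊤ := by
          intro h
          rw [Ideal.span_singleton_eq_top] at h
          have h3 : (((p : ℤ)) : R) ∣ ((1 : ℤ) : R) := by
            have := h.dvd (a := (1 : R))
            simpa using this
          have h4 := D.int_dvd hℓ.pos _ _ h3
          have h5 : p ∣ 1 := by exact_mod_cast h4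
          have := Nat.dvd_one.1 h5
          omega
        obtain ⟨l, hlm, hl⟩ := Ideal.exists_le_maximal _ hnt
        have hlp : l.IsPrime := hlm.isPrime
        have hpl : ((p : ℕ) : R) ∈ l := hl (Ideal.mem_span_singleton_self _)
        have hml : (m : R) ∈ l := by
          rw [hm']; push_cast
          exact l.mul_mem_right _ hpl
        have hdl : d ≤ l := by
          have : d ^ 2 ≤ l := by
            rw [hd, Ideal.span_singleton_le_iff_mem]; exact hml
          exact hlp.le_of_pow_le this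
        have hml2 : (m : R) ∈ l ^ 2 := by
          have h3 : (m : R) ∈ d ^ 2 := by rw [hd]; exact Ideal.mem_span_singleton_self _
          exact Ideal.pow_right_mono hdl 2 h3
        have hm'l : (m' : R) ∈ l := by
          rw [hm'] at hml2
          push_cast at hml2
          rw [mul_comm] at hml2
          rcases Ideal.IsPrime.mul_mem_pow l hml2 with h | h
          · exact h
          · exact absurd h (D.unram hℓ l p hpp hpℓ hpl)
        obtain ⟨m'', hm''⟩ := D.int_mem l hlp.ne_top p hpp hpl m' hm'l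
        have hm''0 : m'' ≠ 0 := by rintro rfl; simp at hm''; exact hm'0 hm''
        have hspan : Ideal.span {(m : R)} =
            Ideal.span {((p : ℕ) : R)} ^ 2 * Ideal.span {(m'' : R)} := by
          rw [Ideal.span_singleton_pow, Ideal.span_singleton_mul_span_singleton, hm', hm'']
          congr 2
          push_cast
          ring
        have hdv : Ideal.span {((p : ℕ) : R)} ∣ d := by
          rw [← UniqueFactorizationMonoid.pow_dvd_pow_iff_dvd (n := 2) (by norm_num), hd, hspan]
          exact dvd_mul_right _ _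
        obtain ⟨d', rfl⟩ := hdv
        have hd' : d' ^ 2 = Ideal.span {(m'' : R)} := by
          rw [mul_pow, hspan] at hd
          refine mul_left_cancel₀ ?_ hd
          apply pow_ne_zero
          have : ((p : ℕ) : R) ≠ 0 := by exact_mod_cast hpp.ne_zero
          simpa using this
        have habs' : m'.natAbs = p * m''.natAbs := by
          rw [hm'', Int.natAbs_mul, Int.natAbs_natCast]
        have hm''pos : 0 < m''.natAbs := Int.natAbs_pos.2 hm''0
        have hlt : m''.natAbs ≤ k := by nlinarith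
        obtain ⟨δ, hδ⟩ := ih m'' hm''0 hlt d' hd'
        refine ⟨(p : R) * δ, ?_⟩
        rw [hδ]
        exact Ideal.span_singleton_mul_span_singleton _ _

/-- no ideal class of order two -/
theorem cg (hℓ : ℓ.Prime) (c : Ideal R) (β : R) (hβ : β ≠ 0) (hc : c ^ 2 = Ideal.span {β}) :
    c.IsPrincipal := by
  obtain ⟨n, hn, hβn⟩ := D.hsq c β hβ hc
  by_cases hT : β + n = 0
  · have h1 : β = ((-n : ℤ) : R) := by push_cast; linear_combination hT
    rw [h1] at hc
    exact D.sq_int hℓ _ (-n) (by omega) le_rfl c hc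
  · obtain ⟨t, ht⟩ := D.trace_int β
    have hm : (β + n) ^ 2 = β * ((t + 2 * n : ℤ) : R) := by
      push_cast
      rw [← ht]
      linear_combination -hβn
    have hm0 : t + 2 * n ≠ 0 := by
      intro h
      rw [h, Int.cast_zero, mul_zero] at hm
      exact hT (pow_eq_zero_iff (n := 2) (by norm_num) |>.1 hm)
    have hsp : Ideal.span {β + (n : R)} ^ 2 = c ^ 2 * Ideal.span {((t + 2 * n : ℤ) : R)} := by
      rw [Ideal.span_singleton_pow, hm, hc, Ideal.span_singleton_mul_span_singleton]
    have hdv : c ∣ Ideal.span {β + (n : R)} := by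
      rw [← UniqueFactorizationMonoid.pow_dvd_pow_iff_dvd (n := 2) (by norm_num), hsp]
      exact dvd_mul_right _ _
    obtain ⟨d, hd⟩ := hdv
    have hc0 : c ≠ 0 := by
      rintro rfl
      rw [zero_pow (by norm_num)] at hc
      have : Ideal.span {β} = ⊥ := hc.symm
      rw [Ideal.span_singleton_eq_bot] at this
      exact hβ this
    have hd2 : d ^ 2 = Ideal.span {((t + 2 * n : ℤ) : R)} := by
      rw [hd, mul_pow] at hsp
      exact mul_left_cancel₀ (pow_ne_zero _ hc0) hsp
    obtain ⟨δ, hδ⟩ := D.sq_int hℓ _ _ hm0 le_rfl d hd2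
    have hδ' : d = Ideal.span {δ} := hδ
    have hmem : β + (n : R) ∈ Ideal.span {δ} := by
      have : β + (n : R) ∈ c * d := by rw [← hd]; exact Ideal.mem_span_singleton_self _
      rw [← hδ']
      exact Ideal.mul_le_right this
    obtain ⟨τ, hτ⟩ := Ideal.mem_span_singleton'.1 hmem
    have hδ0 : δ ≠ 0 := by
      rintro rfl
      rw [mul_zero] at hτ
      exact hT hτ.symm
    refine ⟨τ, ?_⟩
    have h3 : Ideal.span {δ} * c = Ideal.span {δ} * Ideal.span {τ} := by
      rw [mul_comm, ← hδ', ← hd, hδ', Ideal.span_singleton_mul_span_singleton, ← hτ, mul_comm δ]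
    refine mul_left_cancel₀ ?_ h3
    simpa using hδ0

theorem odd_pow [Finite (ClassGroup R)] (hℓ : ℓ.Prime) (p : Ideal R) (hp : p ≠ ⊥) :
    ∃ h : ℕ, Odd h ∧ (p ^ h).IsPrincipal := by
  have hp' : p ∈ nonZeroDivisors (Ideal R) := mem_nonZeroDivisors_of_ne_zero hp
  have h1 : (ClassGroup.mk0 ⟨p, hp'⟩) ^ Nat.card (ClassGroup R) = 1 := pow_card_eq_one'
  have hcard : Nat.card (ClassGroup R) ≠ 0 := Nat.card_pos.ne'
  obtain ⟨a, b, hb, hab⟩ := Nat.exists_eq_two_pow_mul_odd hcard
  have h2 : (p ^ (2 ^ a * b)).IsPrincipal := by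
    rw [hab, ← map_pow] at h1
    have h3 := (ClassGroup.mk0_eq_one_iff (I := p ^ (2 ^ a * b))
      (mem_nonZeroDivisors_of_ne_zero (pow_ne_zero _ hp))).1
    apply h3
    convert! h1 using 2
  have key : ∀ a : ℕ, (p ^ (2 ^ a * b)).IsPrincipal → (p ^ b).IsPrincipal := by
    intro a
    induction a with
    | zero => intro h; simpa using h
    | succ a ih =>
      intro h
      apply ih
      obtain ⟨β, hβ⟩ := h
      have hβ' : p ^ (2 ^ (a + 1) * b) = Ideal.span {β} := hβ
      refine D.cg hℓ _ β ?_ ?_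
      · rintro rfl
        rw [Ideal.span_singleton_eq_bot.2 rfl] at hβ'
        exact pow_ne_zero _ hp hβ'
      · rw [← hβ', ← pow_mul]
        congr 1
        ring
  exact ⟨b, hb, key a h2⟩

end QData

end Pool.BDP
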