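import Pool.Agent.BDP.Defs

set_option autoImplicit false

/-!
# The action of the Galois group of `K_∞ / K` on the Selmer group
-/

noncomputable section

namespace Pool.BDP

open scoped NumberField Pointwise

variable {K : Type} [Field K]

theorem ine_conj' (P : Ideal (Zb K)) (b σ : GK K) (hσ : σ ∈ Ine P) :
    b * σ * b⁻¹ ∈ Ine (b • P) := by
  intro x
  have h := hσ (b⁻¹ • x)
  have h1 : (b * σ * b⁻¹) • x - x = b • (σ • b⁻¹ • x - b⁻¹ • x) := by
    rw [smul_sub, smul_inv_smul, mul_smul, mul_smul]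
  change (b * σ * b⁻¹) • x - x ∈ b • P
  rw [h1]
  exact Ideal.smul_mem_pointwise_smul_iff.2 h

theorem dec_conj (P : Ideal (Zb K)) (b σ : GK K) (hσ : σ ∈ Dec P) :
    b * σ * b⁻¹ ∈ Dec (b • P) := by
  have h : σ • P = P := hσ
  change (b * σ * b⁻¹) • b • P = b • P
  rw [mul_smul, mul_smul, inv_smul_smul, h]

theorem away_smul {P : Ideal (Zb K)} (hP : Away P) (b : GK K) : Away (b • P) := by
  have hp := hP.1
  refine ⟨inferInstance, ?_, ?_⟩
  · intro h
    apply hP.2.1
    have := congrArg (fun J => b⁻¹ • J) h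
    simpa using this
  · intro h
    apply hP.2.2
    have h1 : b • (2 : Zb K) = 2 := by
      have := map_ofNat (MulSemiringAction.toRingHom (GK K) (Zb K) b) 2
      simpa using this
    rw [← h1] at h
    exact Ideal.smul_mem_pointwise_smul_iff.1 h

theorem comap_smul (P : Ideal (Zb K)) (b : GK K) :
    (b • P).comap (algebraMap (𝓞 K) (Zb K)) = P.comap (algebraMap (𝓞 K) (Zb K)) := by
  ext x
  have h1 : b • (algebraMap (𝓞 K) (Zb K) x) = algebraMap (𝓞 K) (Zb K) x := by
    apply NumberField.RingOfIntegers.ext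
    exact b.commutes (x : K)
  rw [Ideal.mem_comap, Ideal.mem_comap]
  nth_rewrite 1 [← h1]
  exact Ideal.smul_mem_pointwise_smul_iff

theorem above_smul {q : Ideal (𝓞 K)} {P : Ideal (Zb K)} (hP : Above q P) (b : GK K) :
    Above q (b • P) := by
  have hp := hP.1
  exact ⟨inferInstance, by rw [comap_smul, hP.2]⟩

variable (A : Type) [AddCommGroup A] [Module ℤ_[2] A] [DistribMulAction (GK K) A]
  [SMulCommClass (GK K) ℤ_[2] A]

theorem conjFun_coe (H : Subgroup (GK K)) [H.Normal] (g : GK K) (h : H) :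
    ((MulAut.conjNormal g⁻¹ h : H) : GK K) = g⁻¹ * (h : GK K) * g := by
  rw [MulAut.conjNormal_apply, inv_inv]

theorem conjFun_coc (H : Subgroup (GK K)) [H.Normal] (g : GK K) (c : H → A)
    (hc : c ∈ Coc A H) : conjFun A H g c ∈ Coc A H := by
  refine ⟨?_, ?_⟩
  · have h1 : Continuous fun h : H => (MulAut.conjNormal g⁻¹ h : H) := by
      refine Continuous.subtype_mk (f := fun h : H => g⁻¹ * (h : GK K) * (g⁻¹)⁻¹) ?_ _
      fun_prop
    exact (hc.1.comp_continuous h1).comp (fun a => g • a)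
  · intro h k
    change g • c (MulAut.conjNormal g⁻¹ (h * k)) = g • c (MulAut.conjNormal g⁻¹ h) +
      (h : GK K) • g • c (MulAut.conjNormal g⁻¹ k)
    rw [map_mul, hc.2, smul_add, smul_smul, conjFun_coe, smul_smul]
    congr 2
    group

theorem conjFun_loc (H D D' : Subgroup (GK K)) [H.Normal] (g : GK K)
    (hD : ∀ σ ∈ D', g⁻¹ * σ * g ∈ D) (c : H → A)
    (hc : c ∈ LocTriv A H D) : conjFun A H g c ∈ LocTriv A H D' := by
  obtain ⟨a, ha⟩ := hc
  refine ⟨g • a, fun h hh => ?_⟩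
  change g • c (MulAut.conjNormal g⁻¹ h) = _
  rw [ha _ (by rw [conjFun_coe]; exact hD _ hh), conjFun_coe, smul_sub, smul_smul, smul_smul]
  congr 2
  group

theorem conjFun_sel (H : Subgroup (GK K)) [H.Normal] (q : Ideal (𝓞 K))
    (R : Set (Ideal (𝓞 K))) (g : GK K) (c : H → A) (hc : c ∈ SelCoc A H q R) :
    conjFun A H g c ∈ SelCoc A H q R := by
  obtain ⟨⟨h1, h2⟩, h3⟩ := hc
  simp only [SetLike.mem_coe, Submodule.mem_iInf] at h2 h3
  refine ⟨⟨conjFun_coc A H g c h1, ?_⟩, ?_⟩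
  · simp only [SetLike.mem_coe, Submodule.mem_iInf]
    rintro ⟨P, hP⟩
    refine conjFun_loc A H (Dec (g⁻¹ • P)) (Dec P) g ?_ c (h2 ⟨g⁻¹ • P, above_smul hP _⟩)
    intro σ hσ
    have := dec_conj P g⁻¹ σ hσ
    rwa [inv_inv] at this
  · simp only [SetLike.mem_coe, Submodule.mem_iInf]
    rintro ⟨P, hP⟩
    refine conjFun_loc A H (Ine (g⁻¹ • P)) (Ine P) g ?_ c
      (h3 ⟨g⁻¹ • P, away_smul hP.1 _, by rw [comap_smul]; exact hP.2⟩)
    intro σ hσ
    have := ine_conj' P g⁻¹ σ hσ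
    rwa [inv_inv] at this

/-- the action of `g` on the Selmer cocycles -/
def cocConj (H : Subgroup (GK K)) [H.Normal] (q : Ideal (𝓞 K)) (R : Set (Ideal (𝓞 K)))
    (g : GK K) : SC A H q R →ₗ[ℤ_[2]] SC A H q R :=
  (conjFun A H g).restrict (conjFun_sel A H q R g)

theorem cocConj_cob (H : Subgroup (GK K)) [H.Normal] (q : Ideal (𝓞 K))
    (R : Set (Ideal (𝓞 K))) (g : GK K) (c : SC A H q R) (hc : c ∈ SC.cob A H q R) :
    Sel.mk A H q R (cocConj A H q R g c) = 0 := by
  rw [Sel.mk_eq_zero]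
  obtain ⟨a, ha⟩ := hc
  refine ⟨g • a, fun h => ?_⟩
  change g • (SC.fn A H q R c) (MulAut.conjNormal g⁻¹ h) = _
  have := ha (MulAut.conjNormal g⁻¹ h)
  rw [this, conjFun_coe, smul_sub, smul_smul, smul_smul]
  congr 2
  group

/-- the action of `g` on the Selmer group over the fixed field of a normal subgroup `H` -/
def selConj (H : Subgroup (GK K)) [H.Normal] (q : Ideal (𝓞 K)) (R : Set (Ideal (𝓞 K)))
    (g : GK K) : Sel A H q R →ₗ[ℤ_[2]] Sel A H q R :=
  Sel.lift A H q R ((Sel.mk A H q R).comp (cocConj A H q R g)) (cocConj_cob A H q R g)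

end Pool.BDP

end
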