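import Mathlib

set_option autoImplicit false

/-!
# Selmer groups of BDP type at the prime 2: definitions

`K` is a number field, `GK K` its absolute Galois group, `Zb K` the ring of all algebraic
integers in the algebraic closure of `K`. A place of the algebraic closure is a nonzero prime
ideal of `Zb K`; its decomposition and inertia groups are `Dec P` and `Ine P`.
-/

noncomputable section

namespace Pool.BDP

open scoped NumberField Pointwise

/-- the absolute Galois group of `K` -/
abbrev GK (K : Type) [Field K] : Type := Gal(AlgebraicClosure K/K)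

/-- the ring of algebraic integers of the algebraic closure of `K` -/
abbrev Zb (K : Type) [Field K] : Type := 𝓞 (AlgebraicClosure K)

variable {K : Type} [Field K]

/-- the decomposition group of a prime of the algebraic closure -/
def Dec (P : Ideal (Zb K)) : Subgroup (GK K) := MulAction.stabilizer (GK K) P

/-- the inertia group of a prime of the algebraic closure: all `σ` with `σ x ≡ x` modulo `P` -/
def Ine (P : Ideal (Zb K)) : Subgroup (GK K) := P.inertia (GK K)

/-- `P` is a nonzero prime which does not contain 2 -/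
def Away (P : Ideal (Zb K)) : Prop := P.IsPrime ∧ P ≠ ⊥ ∧ (2 : Zb K) ∉ P

/-- `P` is a prime above the prime `q` of `K` -/
def Above (q : Ideal (𝓞 K)) (P : Ideal (Zb K)) : Prop :=
  P.IsPrime ∧ P.comap (algebraMap (𝓞 K) (Zb K)) = q

/-- there is no quadratic extension of `K` which is unramified at all primes not above 2 and in
which `q` splits -/
def NoQuad (q : Ideal (𝓞 K)) : Prop :=
  ∀ W : Subgroup (GK K), IsOpen (W : Set (GK K)) → W.index = 2 →
    (∀ P : Ideal (Zb K), Away P → Ine P ≤ W) →
    ∀ P : Ideal (Zb K), Above q P → ¬ Dec P ≤ W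

/-- a `ℤ₂`-extension of `K` unramified outside 2, given by the surjection of the absolute Galois
group to `ℤ₂`; the field `K_∞` is the fixed field of the kernel -/
structure Z2Ext (K : Type) [Field K] where
  /-- the character -/
  toHom : GK K →* Multiplicative ℤ_[2]
  cont : Continuous toHom
  surj : Function.Surjective toHom
  unram : ∀ P : Ideal (Zb K), Away P → Ine P ≤ toHom.ker

/-- the absolute Galois group of `K_∞` -/
def Z2Ext.H (κ : Z2Ext K) : Subgroup (GK K) := κ.toHom.ker

section

variable (A : Type) [AddCommGroup A] [Module ℤ_[2] A] [DistribMulAction (GK K) A]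
  [SMulCommClass (GK K) ℤ_[2] A]

/-- the continuous 1-cocycles of a subgroup `H` of `GK K` with values in the discrete module
`A` -/
def Coc (H : Subgroup (GK K)) : Submodule ℤ_[2] (H → A) where
  carrier := {c | IsLocallyConstant c ∧ ∀ g h : H, c (g * h) = c g + (g : GK K) • c h}
  add_mem' := by
    rintro a b ⟨ha, ha'⟩ ⟨hb, hb'⟩
    refine ⟨ha.add hb, fun g h => ?_⟩
    simp only [Pi.add_apply, ha', hb', smul_add]
    abel
  zero_mem' := ⟨IsLocallyConstant.const 0, fun g h => by simp⟩
  smul_mem' := by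
    rintro r a ⟨ha, ha'⟩
    refine ⟨ha.comp (fun x => r • x), fun g h => ?_⟩
    simp only [Pi.smul_apply, ha', smul_add, smul_comm]

/-- the coboundaries -/
def Cob (H : Subgroup (GK K)) : Submodule ℤ_[2] (H → A) where
  carrier := {c | ∃ a : A, ∀ g : H, c g = (g : GK K) • a - a}
  add_mem' := by
    rintro a b ⟨x, hx⟩ ⟨y, hy⟩
    exact ⟨x + y, fun g => by simp only [Pi.add_apply, hx, hy, smul_add]; abel⟩
  zero_mem' := ⟨0, fun g => by simp⟩
  smul_mem' := by
    rintro r a ⟨x, hx⟩
    exact ⟨r • x, fun g => by simp only [Pi.smul_apply, hx, smul_sub, smul_comm]⟩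

/-- the functions on `H` which on `H ∩ D` agree with a coboundary: for a cocycle this says that
its class becomes trivial in the cohomology of `H ∩ D` -/
def LocTriv (H D : Subgroup (GK K)) : Submodule ℤ_[2] (H → A) where
  carrier := {c | ∃ a : A, ∀ g : H, (g : GK K) ∈ D → c g = (g : GK K) • a - a}
  add_mem' := by
    rintro a b ⟨x, hx⟩ ⟨y, hy⟩
    exact ⟨x + y, fun g hg => by simp only [Pi.add_apply, hx g hg, hy g hg, smul_add]; abel⟩
  zero_mem' := ⟨0, fun g _ => by simp⟩
  smul_mem' := by
    rintro r a ⟨x, hx⟩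
    exact ⟨r • x, fun g hg => by simp only [Pi.smul_apply, hx g hg, smul_sub, smul_comm]⟩

/-- the Selmer cocycles over the fixed field of `H`: trivial at all places above `q`, unramified
at all places not above 2 and not above a prime in `R`, no condition at the other places -/
def SelCoc (H : Subgroup (GK K)) (q : Ideal (𝓞 K)) (R : Set (Ideal (𝓞 K))) :
    Submodule ℤ_[2] (H → A) :=
  Coc A H ⊓ (⨅ P : {P : Ideal (Zb K) // Above q P}, LocTriv A H (Dec P.1)) ⊓
    (⨅ P : {P : Ideal (Zb K) // Away P ∧ P.comap (algebraMap (𝓞 K) (Zb K)) ∉ R},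
      LocTriv A H (Ine P.1))

/-- the group of Selmer cocycles -/
def SC (H : Subgroup (GK K)) (q : Ideal (𝓞 K)) (R : Set (Ideal (𝓞 K))) : Type :=
  SelCoc A H q R

instance instSCGroup (H : Subgroup (GK K)) (q : Ideal (𝓞 K)) (R : Set (Ideal (𝓞 K))) :
    AddCommGroup (SC A H q R) :=
  inferInstanceAs (AddCommGroup (SelCoc A H q R))

instance instSCModule (H : Subgroup (GK K)) (q : Ideal (𝓞 K)) (R : Set (Ideal (𝓞 K))) :
    Module ℤ_[2] (SC A H q R) :=
  inferInstanceAs (Module ℤ_[2] (SelCoc A H q R))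

/-- the function given by a Selmer cocycle -/
def SC.fn (H : Subgroup (GK K)) (q : Ideal (𝓞 K)) (R : Set (Ideal (𝓞 K))) :
    SC A H q R →ₗ[ℤ_[2]] (H → A) :=
  (SelCoc A H q R).subtype

/-- the coboundaries among the Selmer cocycles -/
def SC.cob (H : Subgroup (GK K)) (q : Ideal (𝓞 K)) (R : Set (Ideal (𝓞 K))) :
    Submodule ℤ_[2] (SC A H q R) :=
  (Cob A H).comap (SC.fn A H q R)

/-- the Selmer group over the fixed field of `H`: Selmer cocycles modulo coboundaries -/
def Sel (H : Subgroup (GK K)) (q : Ideal (𝓞 K)) (R : Set (Ideal (𝓞 K))) : Type :=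
  SC A H q R ⧸ SC.cob A H q R

instance instSelGroup (H : Subgroup (GK K)) (q : Ideal (𝓞 K)) (R : Set (Ideal (𝓞 K))) :
    AddCommGroup (Sel A H q R) :=
  inferInstanceAs (AddCommGroup (SC A H q R ⧸ SC.cob A H q R))

instance instSelModule (H : Subgroup (GK K)) (q : Ideal (𝓞 K)) (R : Set (Ideal (𝓞 K))) :
    Module ℤ_[2] (Sel A H q R) :=
  inferInstanceAs (Module ℤ_[2] (SC A H q R ⧸ SC.cob A H q R))

/-- the class of a Selmer cocycle -/
def Sel.mk (H : Subgroup (GK K)) (q : Ideal (𝓞 K)) (R : Set (Ideal (𝓞 K))) :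
    SC A H q R →ₗ[ℤ_[2]] Sel A H q R :=
  Submodule.mkQ (SC.cob A H q R)

theorem Sel.mk_surj (H : Subgroup (GK K)) (q : Ideal (𝓞 K)) (R : Set (Ideal (𝓞 K))) :
    Function.Surjective (Sel.mk A H q R) :=
  Submodule.mkQ_surjective _

theorem Sel.mk_eq_zero (H : Subgroup (GK K)) (q : Ideal (𝓞 K)) (R : Set (Ideal (𝓞 K)))
    (c : SC A H q R) : Sel.mk A H q R c = 0 ↔ SC.fn A H q R c ∈ Cob A H :=
  Submodule.Quotient.mk_eq_zero (SC.cob A H q R)

/-- the map on the Selmer group given by a map on Selmer cocycles which kills coboundaries -/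
def Sel.lift (H : Subgroup (GK K)) (q : Ideal (𝓞 K)) (R : Set (Ideal (𝓞 K))) {M : Type}
    [AddCommGroup M] [Module ℤ_[2] M] (f : SC A H q R →ₗ[ℤ_[2]] M)
    (hf : ∀ c ∈ SC.cob A H q R, f c = 0) : Sel A H q R →ₗ[ℤ_[2]] M :=
  Submodule.liftQ (SC.cob A H q R) f (fun c hc => hf c hc)

theorem Sel.lift_mk (H : Subgroup (GK K)) (q : Ideal (𝓞 K)) (R : Set (Ideal (𝓞 K))) {M : Type}
    [AddCommGroup M] [Module ℤ_[2] M] (f : SC A H q R →ₗ[ℤ_[2]] M)
    (hf : ∀ c ∈ SC.cob A H q R, f c = 0) (c : SC A H q R) :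
    Sel.lift A H q R f hf (Sel.mk A H q R c) = f c := rfl

/-- the Pontryagin dual of the Selmer group -/
abbrev XSel (H : Subgroup (GK K)) (q : Ideal (𝓞 K)) (R : Set (Ideal (𝓞 K))) : Type :=
  CharacterModule (Sel A H q R)

/-- the operator `σ - 1` on `A` -/
def opSub (σ : GK K) : A →ₗ[ℤ_[2]] A where
  toFun a := σ • a - a
  map_add' a b := by rw [smul_add]; abel
  map_smul' r a := by rw [RingHom.id_apply, smul_comm, smul_sub]

/-- for a normal subgroup `H`, the action of `g` on functions on `H` by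
`(g c)(h) = g (c (g⁻¹ h g))` -/
def conjFun (H : Subgroup (GK K)) [H.Normal] (g : GK K) : (H → A) →ₗ[ℤ_[2]] (H → A) where
  toFun c := fun h => g • c (MulAut.conjNormal g⁻¹ h)
  map_add' c d := by funext h; simp only [Pi.add_apply, smul_add]
  map_smul' r c := by
    funext h
    simp only [Pi.smul_apply, RingHom.id_apply, smul_comm]

end

end Pool.BDP

end
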