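import Pool.Agent.BDP.Prop

set_option autoImplicit false
set_option linter.unusedSectionVars false
set_option linter.unusedVariables false

/-!
# The ring of integers of `ℚ(√-ℓ)`
-/

namespace Pool.BDP

open scoped NumberField

variable {K : Type} [Field K] [NumberField K]

theorem rep (hfin : Module.finrank ℚ K = 2) (r : K) (ℓ : ℕ) (hℓ : 0 < ℓ)
    (hr : r ^ 2 = -(ℓ : K)) (x : K) : ∃ a b : ℚ, x = a + b * r := by
  have hli : LinearIndependent ℚ ![(1 : K), r] := by
    rw [LinearIndependent.pair_iff]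
    intro s t h
    rw [Algebra.smul_def, Algebra.smul_def, mul_one] at h
    have h1 : ((s ^ 2 + ℓ * t ^ 2 : ℚ) : K) = 0 := by
      have h2 : (s : K) + t * r = 0 := by simpa using h
      push_cast
      have h3 : (s : K) = -(t * r) := by linear_combination h2
      rw [h3, neg_sq, mul_pow, hr]
      ring
    have h2 : s ^ 2 + ℓ * t ^ 2 = 0 := by exact_mod_cast h1
    have hℓ' : (0 : ℚ) < ℓ := by exact_mod_cast hℓ
    have ht : t = 0 := by
      by_contra ht
      have : 0 < t ^ 2 := by positivity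
      nlinarith [sq_nonneg s, mul_pos hℓ' this]
    subst ht
    refine ⟨?_, rfl⟩
    have : s ^ 2 = 0 := by linear_combination h2
    exact pow_eq_zero_iff (n := 2) (by norm_num) |>.1 this
  have hcard : Fintype.card (Fin 2) = Module.finrank ℚ K := by rw [hfin]; rfl
  have hspan := hli.span_eq_top_of_card_eq_finrank' hcard
  have hx : x ∈ Submodule.span ℚ (Set.range ![(1 : K), r]) := hspan ▸ Submodule.mem_top
  rw [Matrix.range_cons, Matrix.range_cons, Matrix.range_empty, Set.union_empty,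
    Set.singleton_union, Submodule.mem_span_pair] at hx
  obtain ⟨a, b, hab⟩ := hx
  refine ⟨a, b, ?_⟩
  rw [← hab, Algebra.smul_def, Algebra.smul_def, mul_one]
  simp

theorem rat_int (a : ℚ) (h : IsIntegral ℤ (a : K)) : ∃ m : ℤ, a = m := by
  have h1 : IsIntegral ℤ a := by
    rw [← isIntegral_algebraMap_iff (FaithfulSMul.algebraMap_injective ℚ K)]
    simpa using h
  obtain ⟨m, hm⟩ := IsIntegrallyClosed.isIntegral_iff.1 h1
  exact ⟨m, by simpa using hm.symm⟩

theorem mkData (hfin : Module.finrank ℚ K = 2) (r : K) (ℓ : ℕ) (hℓ : Squarefree ℓ) (h4 : ℓ % 4 = 3)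
    (hr : r ^ 2 = -(ℓ : K)) : Nonempty (QData (𝓞 K) ℓ) := by
  classical
  have hℓ0' : ℓ ≠ 0 := by omega
  have hrep := rep hfin r ℓ (by omega) hr
  have hquad : Algebra.IsQuadraticExtension ℚ K := ⟨hfin⟩
  have hgal : IsGalois ℚ K := inferInstance
  have hcard : Fintype.card Gal(K/ℚ) = 2 := by
    rw [← Nat.card_eq_fintype_card, IsGalois.card_aut_eq_finrank, hfin]
  obtain ⟨σ, hσ⟩ : ∃ σ : Gal(K/ℚ), σ ≠ 1 := by
    have : Nontrivial Gal(K/ℚ) := Fintype.one_lt_card_iff_nontrivial.1 (by rw [hcard]; norm_num)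
    exact exists_ne 1
  have hσrat : ∀ a : ℚ, σ (a : K) = a := fun a => map_ratCast σ a
  have hσr : σ r = -r := by
    have h1 : (σ r - r) * (σ r + r) = 0 := by
      have : (σ r - r) * (σ r + r) = σ (r ^ 2) - r ^ 2 := by rw [map_pow]; ring
      rw [this, hr, map_neg, map_natCast, sub_self]
    rcases mul_eq_zero.1 h1 with h | h
    · exfalso
      apply hσ
      ext x
      obtain ⟨a, b, rfl⟩ := hrep x
      rw [map_add, map_mul, hσrat, hσrat, sub_eq_zero.1 h]
      rfl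
    · exact eq_neg_of_add_eq_zero_left h
  have hσab : ∀ a b : ℚ, σ ((a : K) + b * r) = a - b * r := by
    intro a b
    rw [map_add, map_mul, hσrat, hσrat, hσr]
    ring
  let s : 𝓞 K ≃+* 𝓞 K := NumberField.RingOfIntegers.mapRingEquiv (σ : K ≃+* K)
  have hs : ∀ x : 𝓞 K, ((s x : 𝓞 K) : K) = σ (x : K) := fun x => rfl
  obtain ⟨N0, hN0⟩ : ∃ N0 : ℤ, 4 * N0 = 1 + ℓ := ⟨(1 + ℓ) / 4, by omega⟩
  have hN0K : (4 : K) * N0 = 1 + ℓ := by exact_mod_cast congrArg (Int.cast : ℤ → K) hN0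
  have hω2 : ((1 + r) / 2) * ((1 + r) / 2) = (1 + r) / 2 - (N0 : K) := by
    have h1 : (N0 : K) = (1 + ℓ) / 4 := by rw [← hN0K]; ring
    rw [h1]
    linear_combination (1 / 4) * hr
  have hωint : IsIntegral ℤ ((1 + r) / 2) := by
    refine ⟨Polynomial.X ^ 2 - Polynomial.X + Polynomial.C N0, ?_, ?_⟩
    · monicity!
    · simp only [Polynomial.eval₂_add, Polynomial.eval₂_sub, Polynomial.eval₂_pow,
        Polynomial.eval₂_X, Polynomial.eval₂_C]
      have : (algebraMap ℤ K) N0 = N0 := rfl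
      rw [this]
      linear_combination hω2
  let ω : 𝓞 K := ⟨(1 + r) / 2, hωint⟩
  have hωK : ((ω : 𝓞 K) : K) = (1 + r) / 2 := rfl
  refine ⟨⟨ω, s, N0, hN0, ?_, ?_, ?_, (Ideal.absNorm : Ideal (𝓞 K) →*₀ ℕ).toMonoidHom, ?_, ?_⟩⟩
  · apply NumberField.RingOfIntegers.ext
    simp only [map_mul, map_sub, map_intCast]
    exact hω2
  · apply NumberField.RingOfIntegers.ext
    change σ ((1 + r) / 2) = ((1 - ω : 𝓞 K) : K)
    have : ((1 - ω : 𝓞 K) : K) = 1 - (1 + r) / 2 := by simp [hωK]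
    rw [this, map_div₀, map_add, hσr, map_one, map_ofNat]
    ring
  · -- spanning
    intro x
    obtain ⟨a, b, hab⟩ := hrep (x : K)
    have hsx : ((s x : 𝓞 K) : K) = a - b * r := by rw [hs, hab, hσab]
    obtain ⟨m, hm⟩ : ∃ m : ℤ, 2 * a = m := by
      apply rat_int (K := K)
      have h1 : (((2 * a : ℚ)) : K) = ((x + s x : 𝓞 K) : K) := by
        change (((2 * a : ℚ)) : K) = (x : K) + ((s x : 𝓞 K) : K)
        rw [hsx, hab]
        push_cast
        ring
      rw [h1]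
      exact (x + s x).2
    obtain ⟨k, hk⟩ : ∃ k : ℤ, ℓ * (2 * b) ^ 2 = k := by
      apply rat_int (K := K)
      have h1 : (((ℓ * (2 * b) ^ 2 : ℚ)) : K) = ((-(x - s x) ^ 2 : 𝓞 K) : K) := by
        change (((ℓ * (2 * b) ^ 2 : ℚ)) : K) = -((x : K) - ((s x : 𝓞 K) : K)) ^ 2
        rw [hsx, hab]
        push_cast
        linear_combination (4 * (b : K) ^ 2) * hr
      rw [h1]
      exact (-(x - s x) ^ 2).2
    obtain ⟨n, hn⟩ : ∃ n : ℤ, a ^ 2 + ℓ * b ^ 2 = n := by
      apply rat_int (K := K)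
      have h1 : (((a ^ 2 + ℓ * b ^ 2 : ℚ)) : K) = ((x * s x : 𝓞 K) : K) := by
        change (((a ^ 2 + ℓ * b ^ 2 : ℚ)) : K) = (x : K) * ((s x : 𝓞 K) : K)
        rw [hsx, hab]
        push_cast
        linear_combination (b : K) ^ 2 * hr
      rw [h1]
      exact (x * s x).2
    -- `2 b` is an integer
    obtain ⟨c, hc⟩ : ∃ c : ℤ, 2 * b = c := by
      have h1 : (ℓ * (2 * b)) ^ 2 = ((ℓ * k : ℤ) : ℚ) := by
        push_cast
        rw [← hk]
        ring
      have h2 : IsIntegral ℤ ((ℓ : ℚ) * (2 * b)) := by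
        refine IsIntegral.of_pow (n := 2) (by norm_num) ?_
        rw [h1]
        exact isIntegral_algebraMap (R := ℤ) (A := ℚ)
      obtain ⟨e, he⟩ := IsIntegrallyClosed.isIntegral_iff.1 h2
      have he' : (ℓ : ℚ) * (2 * b) = e := by simpa using he.symm
      have h3 : (e : ℤ) ^ 2 = ℓ * k := by
        have : ((e ^ 2 : ℤ) : ℚ) = ((ℓ * k : ℤ) : ℚ) := by
          push_cast
          rw [← he']
          push_cast at h1
          exact h1
        exact_mod_cast this
      have h4' : (ℓ : ℤ) ∣ e := by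
        have hp : Squarefree (ℓ : ℤ) := Int.squarefree_natCast.2 hℓ
        exact (hp.dvd_pow_iff_dvd (by norm_num)).1 ⟨k, h3⟩
      obtain ⟨f, hf⟩ := h4'
      refine ⟨f, ?_⟩
      have hℓ0 : (ℓ : ℚ) ≠ 0 := by exact_mod_cast hℓ0'
      have h5 : (ℓ : ℚ) * (2 * b) = ℓ * f := by
        rw [he', hf]
        push_cast
        ring
      exact mul_left_cancel₀ hℓ0 h5
    have hmc : m ^ 2 + ℓ * c ^ 2 = 4 * n := by
      have : ((m ^ 2 + ℓ * c ^ 2 : ℤ) : ℚ) = ((4 * n : ℤ) : ℚ) := by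
        push_cast
        rw [← hm, ← hc, ← hn]
        ring
      exact_mod_cast this
    have hpar : (m - c) % 2 = 0 := by
      obtain ⟨i, hi⟩ : ∃ i : ℤ, (ℓ : ℤ) = 4 * i + 3 := ⟨ℓ / 4, by omega⟩
      rw [hi] at hmc
      have hm2 := Int.emod_two_eq_zero_or_one m
      have hc2 := Int.emod_two_eq_zero_or_one c
      rcases hm2 with h1 | h1 <;> rcases hc2 with h2 | h2
      · omega
      · exfalso
        obtain ⟨m', hm'⟩ : ∃ m', m = 2 * m' := ⟨m / 2, by omega⟩
        obtain ⟨c', hc'⟩ : ∃ c', c = 2 * c' + 1 := ⟨c / 2, by omega⟩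
        rw [hm', hc'] at hmc
        ring_nf at hmc
        omega
      · exfalso
        obtain ⟨m', hm'⟩ : ∃ m', m = 2 * m' + 1 := ⟨m / 2, by omega⟩
        obtain ⟨c', hc'⟩ : ∃ c', c = 2 * c' := ⟨c / 2, by omega⟩
        rw [hm', hc'] at hmc
        ring_nf at hmc
        omega
      · omega
    refine ⟨(m - c) / 2, c, ?_⟩
    apply NumberField.RingOfIntegers.ext
    have h1 : (((((m - c) / 2 : ℤ) : 𝓞 K) + c * ω : 𝓞 K) : K) =
        (((m - c) / 2 : ℤ) : K) + c * ((1 + r) / 2) := by simp [hωK]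
    have h2 : (((m - c) / 2 : ℤ) : K) = ((m : K) - c) / 2 := by
      obtain ⟨z, hz⟩ : ∃ z, m - c = 2 * z := ⟨(m - c) / 2, by omega⟩
      have h3 : (m - c) / 2 = z := by omega
      rw [h3]
      have h4'' := congrArg (Int.cast : ℤ → K) hz
      push_cast at h4''
      rw [h4'']
      ring
    have hmK : (2 : K) * a = m := by exact_mod_cast congrArg (Rat.cast : ℚ → K) hm
    have hcK : (2 : K) * b = c := by exact_mod_cast congrArg (Rat.cast : ℚ → K) hc
    refine Eq.trans ?_ h1.symm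
    refine hab.trans ?_
    rw [h2, ← hmK, ← hcK]
    ring
  · -- norms
    intro β
    have h1 : Ideal.absNorm (Ideal.span {β}) = (Algebra.norm ℤ β).natAbs :=
      Ideal.absNorm_span_singleton β
    have h2 : ((Algebra.norm ℤ β : ℤ) : K) = ((β * s β : 𝓞 K) : K) := by
      have h3 := Algebra.coe_norm_int β
      have h4'' := Algebra.norm_eq_prod_automorphisms ℚ (β : K)
      have huniv : (Finset.univ : Finset Gal(K/ℚ)) = {1, σ} := by
        symm
        apply Finset.eq_univ_of_card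
        rw [Finset.card_pair hσ.symm, hcard]
      rw [huniv, Finset.prod_pair hσ.symm, ← h3] at h4''
      have h5 : ((Algebra.norm ℤ β : ℤ) : K) = (algebraMap ℚ K) ((Algebra.norm ℤ β : ℤ) : ℚ) := by
        simp
      rw [h5, h4'']
      rfl
    obtain ⟨a, b, hab⟩ := hrep (β : K)
    have hβs : ((β * s β : 𝓞 K) : K) = ((a ^ 2 + ℓ * b ^ 2 : ℚ) : K) := by
      change (β : K) * σ (β : K) = _
      rw [hab, hσab]
      push_cast
      linear_combination (-(b : K) ^ 2) * hr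
    have hnn : 0 ≤ Algebra.norm ℤ β := by
      rw [hβs] at h2
      have h3 : ((Algebra.norm ℤ β : ℤ) : ℚ) = a ^ 2 + ℓ * b ^ 2 := by exact_mod_cast h2
      have h5 : (0 : ℚ) ≤ ((Algebra.norm ℤ β : ℤ) : ℚ) := by rw [h3]; positivity
      exact_mod_cast h5
    have h6 : ((Ideal.absNorm (Ideal.span {β}) : ℕ) : ℤ) = Algebra.norm ℤ β := by
      rw [h1]
      exact Int.natAbs_of_nonneg hnn
    apply NumberField.RingOfIntegers.ext
    refine Eq.trans ?_ h2
    rw [← h6]
    simp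
  · intro I hI
    exact Ideal.absNorm_eq_one_iff.1 hI

/-- the prime 2 and the field `ℚ(√-ℓ)`, `ℓ ≡ 7` modulo 16 a prime -/
theorem noQuad_field (hfin : Module.finrank ℚ K = 2) (r : K) (ℓ : ℕ) (hℓ : ℓ.Prime)
    (h16 : ℓ % 16 = 7) (hr : r ^ 2 = -(ℓ : K)) (q : Ideal (𝓞 K)) (hq : q.IsPrime)
    (h2 : (2 : 𝓞 K) ∈ q) : NoQuad q := by
  obtain ⟨D⟩ := mkData hfin r ℓ hℓ.prime.squarefree (by omega) hr
  exact noQuad_of_data D hℓ h16 q hq h2

end Pool.BDP
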