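import Pool.Agent.BDP.Defs

set_option autoImplicit false

/-!
# Kummer generators of index two subgroups, and the tame parity lemma
-/

namespace Pool.BDP

open scoped NumberField Pointwise
open IntermediateField

variable {K : Type} [Field K] [CharZero K]

theorem kummer (H : Subgroup (GK K)) (U : Subgroup H) (hU : U.index = 2)
    (hUc : IsClosed ((U.map H.subtype : Subgroup (GK K)) : Set (GK K))) :
    ∃ β : AlgebraicClosure K, β ≠ 0 ∧ (∀ h : H, h ∈ U → (h : GK K) • β = β) ∧
      (∀ h : H, h ∉ U → (h : GK K) • β = -β) := by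
  classical
  let U1 : ClosedSubgroup (GK K) := { toSubgroup := U.map H.subtype, isClosed' := hUc }
  have hfix := InfiniteGalois.fixingSubgroup_fixedField U1
  obtain ⟨h0, hh0⟩ : ∃ h0 : H, h0 ∉ U := by
    by_contra hcon
    push Not at hcon
    have : U = ⊤ := (Subgroup.eq_top_iff' _).2 hcon
    rw [this, Subgroup.index_top] at hU
    norm_num at hU
  have h0U1 : (h0 : GK K) ∉ (U1 : Subgroup (GK K)) := by
    rintro ⟨u, hu, hu'⟩
    apply hh0
    have : u = h0 := Subtype.ext hu'
    rw [← this]; exact hu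
  have hn : (h0 : GK K) ∉ (fixedField (U1 : Subgroup (GK K))).fixingSubgroup := by
    rw [hfix]
    exact h0U1
  rw [IntermediateField.mem_fixingSubgroup_iff] at hn
  push Not at hn
  obtain ⟨x, hx, hx'⟩ := hn
  have hxU : ∀ h : H, h ∈ U → (h : GK K) • x = x := by
    intro h hh
    exact hx ⟨(h : GK K), ⟨h, hh, rfl⟩⟩
  have hx0 : (h0 : GK K) • x ≠ x := hx'
  refine ⟨x - (h0 : GK K) • x, sub_ne_zero.2 (Ne.symm hx0), ?_, ?_⟩
  · intro h hh
    have h1 : h0⁻¹ * h * h0 ∈ U := by
      have := (Subgroup.normal_of_index_eq_two hU).conj_mem h hh h0⁻¹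
      simpa using this
    have h2 := hxU _ h1
    rw [smul_sub, hxU h hh, smul_smul]
    congr 1
    have h3 : (h : GK K) * (h0 : GK K) = (h0 : GK K) * ((h0⁻¹ * h * h0 : H) : GK K) := by
      push_cast
      group
    rw [h3, mul_smul, h2]
  · intro h hh
    have h1 : h0⁻¹ * h ∈ U := by
      have := (Subgroup.mul_mem_iff_of_index_two hU (a := h0⁻¹) (b := h))
      rw [this]
      constructor
      · intro hc
        exact absurd (inv_mem_iff.1 hc) hh0
      · intro hc
        exact absurd hc hh
    have h2 : h0⁻¹ * h * h0 ∉ U := by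
      rw [Subgroup.mul_mem_iff_of_index_two hU]
      intro hc
      exact hh0 (hc.1 h1)
    have h2' : h * h0 ∈ U := by
      rw [Subgroup.mul_mem_iff_of_index_two hU]
      exact ⟨fun hc => absurd hc hh, fun hc => absurd hc hh0⟩
    have h3 : (h : GK K) • x = (h0 : GK K) • x := by
      have : (h : GK K) = (h0 : GK K) * ((h0⁻¹ * h : H) : GK K) := by push_cast; group
      rw [this, mul_smul, hxU _ h1]
    have h4 : (h : GK K) • ((h0 : GK K) • x) = x := by
      rw [smul_smul]
      exact hxU _ h2'
    rw [smul_sub, h3, h4]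
    ring

end Pool.BDP
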