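import Pool.Agent.BDP.Defs
import Pool.Agent.BDP.Ded

set_option autoImplicit false

/-!
# The tame parity lemma
-/

namespace Pool.BDP

open scoped NumberField Pointwise
open IntermediateField

variable {K : Type} [Field K]

theorem tame0 (H : Subgroup (GK K)) (P : Ideal (Zb K)) (hP : Away P)
    (β γ : AlgebraicClosure K)
    (hs : ∀ h ∈ H, h • β = β ∨ h • β = -β) (hf : ∀ h ∈ H, h • γ = γ)
    (z : Zb K) (hz : (z : AlgebraicClosure K) = β * γ) (hzP : z ∉ P) :
    ∀ σ ∈ H, σ ∈ Ine P → σ • β = β := by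
  intro σ hσ hI
  rcases hs σ hσ with h | h
  · exact h
  · exfalso
    have hPp := hP.1
    have h1 : σ • z - z ∈ P := hI z
    have h2 : σ • z = -z := by
      apply NumberField.RingOfIntegers.ext
      have : ((σ • z : Zb K) : AlgebraicClosure K) = σ • (z : AlgebraicClosure K) := rfl
      rw [this, hz, smul_mul', h, hf σ hσ]
      rw [show ((-z : Zb K) : AlgebraicClosure K) = -(z : AlgebraicClosure K) from rfl, hz]
      ring
    rw [h2] at h1
    have h3 : (2 : Zb K) * z ∈ P := by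
      have : (2 : Zb K) * z = -(-z - z) := by ring
      rw [this]
      exact P.neg_mem h1
    rcases hPp.mem_or_mem h3 with h4 | h4
    · exact hP.2.2 h4
    · exact hzP h4

theorem tame1 (H : Subgroup (GK K)) (P : Ideal (Zb K)) (hP : Away P)
    (β γ : AlgebraicClosure K)
    (hs : ∀ h ∈ H, h • β = β ∨ h • β = -β) (hf : ∀ h ∈ H, h • γ = γ)
    (w : Zb K) (hw : (w : AlgebraicClosure K) = (β * γ) ^ 2) (hwP : w ∉ P) :
    ∀ σ ∈ H, σ ∈ Ine P → σ • β = β := by
  have hint : IsIntegral ℤ (β * γ) := by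
    refine IsIntegral.of_pow (n := 2) (by norm_num) ?_
    rw [← hw]
    exact w.2
  let z : Zb K := ⟨β * γ, hint⟩
  have hz : (z : AlgebraicClosure K) = β * γ := rfl
  apply tame0 H P hP β γ hs hf z hz
  intro h
  apply hwP
  have : w = z ^ 2 := by
    apply NumberField.RingOfIntegers.ext
    refine hw.trans ?_
    rfl
  rw [this]
  exact P.pow_mem_of_mem h 2 (by norm_num)

theorem exists_int_mul [NumberField K] (β : AlgebraicClosure K) :
    ∃ m : ℤ, m ≠ 0 ∧ IsIntegral ℤ ((m : AlgebraicClosure K) * β) := by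
  have h0 : Algebra.IsAlgebraic ℚ (AlgebraicClosure K) :=
    Algebra.IsAlgebraic.trans ℚ K (AlgebraicClosure K)
  have h1 : IsAlgebraic ℤ β := (IsFractionRing.isAlgebraic_iff ℤ ℚ (AlgebraicClosure K)).2
    (h0.isAlgebraic β)
  obtain ⟨m, hm, h⟩ := h1.exists_integral_multiple
  exact ⟨m, hm, by rwa [zsmul_eq_mul] at h⟩

theorem tame [NumberField K] (H : Subgroup (GK K)) (P : Ideal (Zb K)) (hP : Away P)
    (β1 β2 : AlgebraicClosure K) (h1 : β1 ≠ 0) (h2 : β2 ≠ 0)
    (hs1 : ∀ h ∈ H, h • β1 = β1 ∨ h • β1 = -β1) (hs2 : ∀ h ∈ H, h • β2 = β2 ∨ h • β2 = -β2) :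
    (∀ σ ∈ H, σ ∈ Ine P → σ • β1 = β1) ∨ (∀ σ ∈ H, σ ∈ Ine P → σ • β2 = β2) ∨
    (∀ σ ∈ H, σ ∈ Ine P → σ • (β1 * β2) = β1 * β2) := by
  classical
  obtain ⟨m1, hm1, hi1⟩ := exists_int_mul β1
  obtain ⟨m2, hm2, hi2⟩ := exists_int_mul β2
  set F : IntermediateField K (AlgebraicClosure K) := adjoin K {β1 ^ 2, β2 ^ 2} with hF
  have hfd : FiniteDimensional K F := by
    apply IntermediateField.finiteDimensional_adjoin
    intro x _
    exact (Algebra.IsAlgebraic.isAlgebraic x).isIntegral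
  have hNF : NumberField F := NumberField.of_module_finite K F
  have hb1 : β1 ^ 2 ∈ F := subset_adjoin K _ (by simp)
  have hb2 : β2 ^ 2 ∈ F := subset_adjoin K _ (by simp)
  -- elements of `F` are fixed by `H`
  have hfix : ∀ h ∈ H, ∀ x ∈ F, h • x = x := by
    intro h hh x hx
    have hle : F ≤ fixedField (Subgroup.zpowers h) := by
      rw [hF, adjoin_le_iff]
      rintro y (rfl | rfl)
      all_goals
        intro ⟨g, hg⟩
        change g • (_ : AlgebraicClosure K) = _
        obtain ⟨k, rfl⟩ := Subgroup.mem_zpowers_iff.1 hg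
        have hmem : h ^ k ∈ H := H.zpow_mem hh k
        rw [smul_pow']
      · rcases hs1 _ hmem with h3 | h3 <;> rw [h3]
        ring
      · rcases hs2 _ hmem with h3 | h3 <;> rw [h3]
        ring
    exact hle hx ⟨h, Subgroup.mem_zpowers h⟩
  let e : 𝓞 F →+* Zb K := algebraMap (𝓞 F) (Zb K)
  have he : ∀ x : 𝓞 F, ((e x : Zb K) : AlgebraicClosure K) = ((x : F) : AlgebraicClosure K) :=
    fun x => rfl
  set v : Ideal (𝓞 F) := P.comap e with hv
  have hPp : P.IsPrime := hP.1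
  have hvp : v.IsPrime := Ideal.comap_isPrime e P
  have hv0 : v ≠ ⊥ := by
    obtain ⟨x, hx, hx0⟩ := Submodule.exists_mem_ne_zero_of_ne_bot hP.2.1
    refine Ideal.comap_ne_bot_of_integral_mem (R := 𝓞 F) hx0 hx ?_
    have : IsIntegral ℤ x := by
      have := x.2
      exact NumberField.RingOfIntegers.isIntegral x
    exact this.tower_top
  obtain ⟨ϖ, hϖ1, hϖ2⟩ := ded_unif v hv0
  have hϖ0 : ϖ ≠ 0 := fun h => hϖ2 (h ▸ Ideal.zero_mem _)
  have key : ∀ (β : AlgebraicClosure K) (m : ℤ), β ≠ 0 → m ≠ 0 → β ^ 2 ∈ F →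
      IsIntegral ℤ ((m : AlgebraicClosure K) * β) →
      ∃ (k : ℕ) (u s : 𝓞 F), u ∉ v ∧ s ∉ v ∧
        ((m : AlgebraicClosure K) * β) ^ 2 * ((s : F) : AlgebraicClosure K) =
          ((u : F) : AlgebraicClosure K) * ((ϖ : F) : AlgebraicClosure K) ^ k := by
    intro β m hβ hm hβF hi
    have hmem : ((m : AlgebraicClosure K) * β) ^ 2 ∈ F := by
      rw [mul_pow]
      exact F.mul_mem (F.pow_mem (intCast_mem F m) 2) hβF
    let a' : F := ⟨((m : AlgebraicClosure K) * β) ^ 2, hmem⟩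
    have hai : IsIntegral ℤ a' := by
      rw [← isIntegral_algebraMap_iff (FaithfulSMul.algebraMap_injective F (AlgebraicClosure K))]
      exact hi.pow 2
    let a : 𝓞 F := ⟨a', hai⟩
    have ha : ((a : F) : AlgebraicClosure K) = ((m : AlgebraicClosure K) * β) ^ 2 := rfl
    have ha0 : a ≠ 0 := by
      intro h
      have : ((a : F) : AlgebraicClosure K) = 0 := by rw [h]; simp
      rw [ha] at this
      have h3 := pow_eq_zero_iff (n := 2) (by norm_num) |>.1 this
      rcases mul_eq_zero.1 h3 with h4 | h4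
      · exact hm (by exact_mod_cast h4)
      · exact hβ h4
    obtain ⟨k, u, s, ⟨hu, hs, hus⟩, _, _⟩ := ded_local v hv0 ϖ hϖ1 hϖ2 a ha0
    refine ⟨k, u, s, hu, hs, ?_⟩
    have := congrArg (fun x : 𝓞 F => ((x : F) : AlgebraicClosure K)) hus
    simpa [ha] using this
  obtain ⟨k1, u1, s1, hu1, hs1v, e1⟩ := key β1 m1 h1 hm1 hb1 hi1
  obtain ⟨k2, u2, s2, hu2, hs2v, e2⟩ := key β2 m2 h2 hm2 hb2 hi2
  have nz : ∀ x : 𝓞 F, x ∉ v → ((x : F) : AlgebraicClosure K) ≠ 0 := by
    intro x hx h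
    apply hx
    have : x = 0 := by
      apply NumberField.RingOfIntegers.coe_injective
      apply Subtype.ext
      simpa using h
    rw [this]; exact Ideal.zero_mem _
  have hϖn : ((ϖ : F) : AlgebraicClosure K) ≠ 0 := by
    intro h
    apply hϖ0
    apply NumberField.RingOfIntegers.coe_injective
    apply Subtype.ext
    simpa using h
  have hm1' : (m1 : AlgebraicClosure K) ≠ 0 := by exact_mod_cast hm1
  have hm2' : (m2 : AlgebraicClosure K) ≠ 0 := by exact_mod_cast hm2
  have hs1n := nz s1 hs1v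
  have hs2n := nz s2 hs2v
  -- the two even cases
  have even : ∀ (β : AlgebraicClosure K) (m : ℤ) (k : ℕ) (u s : 𝓞 F), β ≠ 0 →
      (∀ h ∈ H, h • β = β ∨ h • β = -β) → m ≠ 0 → u ∉ v → s ∉ v →
      ((m : AlgebraicClosure K) * β) ^ 2 * ((s : F) : AlgebraicClosure K) =
          ((u : F) : AlgebraicClosure K) * ((ϖ : F) : AlgebraicClosure K) ^ k → Even k →
      ∀ σ ∈ H, σ ∈ Ine P → σ • β = β := by
    intro β m k u s hβ hsβ hm hu hs heq hk
    obtain ⟨j, rfl⟩ := hk
    have hm' : (m : AlgebraicClosure K) ≠ 0 := by exact_mod_cast hm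
    have hsn := nz s hs
    set γ : AlgebraicClosure K := m * ((s : F) : AlgebraicClosure K) /
      ((ϖ : F) : AlgebraicClosure K) ^ j with hγ
    have hγF : γ ∈ F := F.div_mem (F.mul_mem (intCast_mem F m) (s : F).2)
      (pow_mem (ϖ : F).2 j)
    have hγ0 : γ ≠ 0 := div_ne_zero (mul_ne_zero hm' hsn) (pow_ne_zero _ hϖn)
    refine tame1 H P hP β γ hsβ (fun h hh => hfix h hh γ hγF) (e (u * s)) ?_ ?_
    · rw [he, hγ]
      have : (((u * s : 𝓞 F) : F) : AlgebraicClosure K) =
        ((u : F) : AlgebraicClosure K) * ((s : F) : AlgebraicClosure K) := by simp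
      rw [this]
      have h3 : (β * (m * ((s : F) : AlgebraicClosure K) /
          ((ϖ : F) : AlgebraicClosure K) ^ j)) ^ 2 =
          (((m : AlgebraicClosure K) * β) ^ 2 * ((s : F) : AlgebraicClosure K)) *
            ((s : F) : AlgebraicClosure K) / ((ϖ : F) : AlgebraicClosure K) ^ (j + j) := by
        field_simp
        ring
      rw [h3, heq]
      field_simp
    · intro h
      exact (hvp.mem_or_mem (show u * s ∈ v from h)).elim hu hs
  rcases Nat.even_or_odd k1 with hk1 | hk1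
  · left
    exact even β1 m1 k1 u1 s1 h1 hs1 hm1 hu1 hs1v e1 hk1
  rcases Nat.even_or_odd k2 with hk2 | hk2
  · right; left
    exact even β2 m2 k2 u2 s2 h2 hs2 hm2 hu2 hs2v e2 hk2
  right; right
  have hs12 : ∀ h ∈ H, h • (β1 * β2) = β1 * β2 ∨ h • (β1 * β2) = -(β1 * β2) := by
    intro h hh
    rw [smul_mul']
    rcases hs1 h hh with h3 | h3 <;> rcases hs2 h hh with h4 | h4 <;> rw [h3, h4]
    · left; ring
    · right; ring
    · right; ring
    · left; ring
  refine even (β1 * β2) (m1 * m2) (k1 + k2) (u1 * u2) (s1 * s2) (mul_ne_zero h1 h2) hs12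
    (mul_ne_zero hm1 hm2) ?_ ?_ ?_ (hk1.add_odd hk2)
  · intro h; exact (hvp.mem_or_mem h).elim hu1 hu2
  · intro h; exact (hvp.mem_or_mem h).elim hs1v hs2v
  · have h3 : (((s1 * s2 : 𝓞 F) : F) : AlgebraicClosure K) =
        ((s1 : F) : AlgebraicClosure K) * ((s2 : F) : AlgebraicClosure K) := by simp
    have h4 : (((u1 * u2 : 𝓞 F) : F) : AlgebraicClosure K) =
        ((u1 : F) : AlgebraicClosure K) * ((u2 : F) : AlgebraicClosure K) := by simp
    rw [h3, h4, pow_add]
    calc _ = (((m1 : AlgebraicClosure K) * β1) ^ 2 * ((s1 : F) : AlgebraicClosure K)) *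
        (((m2 : AlgebraicClosure K) * β2) ^ 2 * ((s2 : F) : AlgebraicClosure K)) := by
          push_cast; ring
      _ = _ := by rw [e1, e2]; ring

end Pool.BDP
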