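import Pool.Agent.BDP.Top
import Pool.Agent.BDP.Kum
import Pool.Agent.BDP.Tame

set_option autoImplicit false

/-!
# Generation: finitely many elements of inertia groups detect all Selmer cocycles
-/

namespace Pool.BDP

open scoped NumberField Pointwise

variable {K : Type} [Field K]

/-- the open subgroups of index two of `κ.H` containing the decomposition group of `P0` and all
inertia groups at places away from 2 and from `S` -/
def QU (κ : Z2Ext K) (P0 : Ideal (Zb K)) (S : Set (Ideal (𝓞 K))) (U : Subgroup κ.H) : Prop :=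
  U.index = 2 ∧ IsOpen (U : Set κ.H) ∧
  (∀ P : Ideal (Zb K), Away P → P.comap (algebraMap (𝓞 K) (Zb K)) ∉ S →
    ∀ σ : κ.H, (σ : GK K) ∈ Ine P → σ ∈ U) ∧
  (∀ σ : κ.H, (σ : GK K) ∈ Dec P0 → σ ∈ U)

theorem isClosed_H (κ : Z2Ext K) : IsClosed (κ.H : Set (GK K)) := by
  have h : (κ.H : Set (GK K)) = κ.toHom ⁻¹' {1} := by
    ext σ
    exact MonoidHom.mem_ker
  rw [h]
  have : T1Space (Multiplicative ℤ_[2]) := inferInstanceAs (T1Space ℤ_[2])
  exact isClosed_singleton.preimage κ.cont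

theorem isClosed_map (κ : Z2Ext K) (U : Subgroup κ.H) (hU : IsOpen (U : Set κ.H)) :
    IsClosed ((U.map κ.H.subtype : Subgroup (GK K)) : Set (GK K)) := by
  have h1 : IsClosed (U : Set κ.H) := U.isClosed_of_isOpen hU
  have h2 : Topology.IsClosedEmbedding (Subtype.val : κ.H → GK K) :=
    (isClosed_H κ).isClosedEmbedding_subtypeVal
  exact h2.isClosedMap _ h1

/-- the set of test elements -/
theorem exists_test [NumberField K] (κ : Z2Ext K) (q : Ideal (𝓞 K)) (hq : NoQuad q)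
    (P0 : Ideal (Zb K)) (hP0 : Above q P0) (S : Set (Ideal (𝓞 K))) (s : ℕ)
    (w : Fin s → Ideal (Zb K))
    (hw : ∀ P : Ideal (Zb K), Away P → P.comap (algebraMap (𝓞 K) (Zb K)) ∈ S →
      ∃ i, ∃ h ∈ κ.H, P = h • w i) :
    ∃ t : Fin s → κ.H, (∀ i, (t i : GK K) ∈ Ine (w i)) ∧
      ∀ U : Subgroup κ.H, QU κ P0 S U → ¬ ∀ i, t i ∈ U := by
  classical
  have hch : ∀ i : Fin s, ∃ σ : κ.H, (σ : GK K) ∈ Ine (w i) ∧
      ((∃ U : Subgroup κ.H, QU κ P0 S U ∧ ∃ τ : κ.H, (τ : GK K) ∈ Ine (w i) ∧ τ ∉ U) →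
        ∃ U : Subgroup κ.H, QU κ P0 S U ∧ σ ∉ U) := by
    intro i
    by_cases h : ∃ U : Subgroup κ.H, QU κ P0 S U ∧ ∃ τ : κ.H, (τ : GK K) ∈ Ine (w i) ∧ τ ∉ U
    · obtain ⟨U, hU, τ, hτ, hτU⟩ := h
      exact ⟨τ, hτ, fun _ => ⟨U, hU, hτU⟩⟩
    · exact ⟨1, (Ine (w i)).one_mem, fun h' => absurd h' h⟩
  choose t ht1 ht2 using hch
  refine ⟨t, ht1, ?_⟩
  intro U hU hall
  apply noChar κ q hq P0 hP0 U hU.1 (isClosed_map κ U hU.2.1) ?_ hU.2.2.2
  intro P hP σ hσ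
  by_contra hσU
  by_cases hPS : P.comap (algebraMap (𝓞 K) (Zb K)) ∈ S
  swap
  · exact hσU (hU.2.2.1 P hP hPS σ hσ)
  obtain ⟨i, h, hh, rfl⟩ := hw P hP hPS
  have hwi : Away (w i) := by
    have := hP.smul h⁻¹
    rwa [inv_smul_smul] at this
  -- the conjugate element
  set τ : κ.H := (⟨h, hh⟩ : κ.H)⁻¹ * σ * ⟨h, hh⟩ with hτ
  have hτI : (τ : GK K) ∈ Ine (w i) := by
    have := ine_conj (h • w i) h⁻¹ σ hσ
    rw [inv_smul_smul, inv_inv] at this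
    exact this
  have hUn : U.Normal := Subgroup.normal_of_index_eq_two hU.1
  have hτU : τ ∉ U := by
    intro hc
    apply hσU
    have := hUn.conj_mem _ hc ⟨h, hh⟩
    have h2 : (⟨h, hh⟩ : κ.H) * τ * (⟨h, hh⟩ : κ.H)⁻¹ = σ := by rw [hτ]; group
    rwa [h2] at this
  obtain ⟨U', hU', htU'⟩ := ht2 i ⟨U, hU, τ, hτI, hτU⟩
  obtain ⟨β, hβ0, hβ1, hβ2⟩ := kummer κ.H U hU.1 (isClosed_map κ U hU.2.1)
  obtain ⟨β', hβ'0, hβ'1, hβ'2⟩ := kummer κ.H U' hU'.1 (isClosed_map κ U' hU'.2.1)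
  have neg_ne : ∀ x : AlgebraicClosure K, x ≠ 0 → -x ≠ x := by
    intro x hx h
    apply hx
    have : (2 : AlgebraicClosure K) * x = 0 := by linear_combination -h
    rcases mul_eq_zero.1 this with h3 | h3
    · norm_num at h3
    · exact h3
  have hs1 : ∀ g ∈ κ.H, g • β = β ∨ g • β = -β := by
    intro g hg
    by_cases h3 : (⟨g, hg⟩ : κ.H) ∈ U
    · left; exact hβ1 _ h3
    · right; exact hβ2 _ h3
  have hs2 : ∀ g ∈ κ.H, g • β' = β' ∨ g • β' = -β' := by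
    intro g hg
    by_cases h3 : (⟨g, hg⟩ : κ.H) ∈ U'
    · left; exact hβ'1 _ h3
    · right; exact hβ'2 _ h3
  rcases tame κ.H (w i) hwi β β' hβ0 hβ'0 hs1 hs2 with h3 | h3 | h3
  · have h4 := h3 τ τ.2 hτI
    rw [hβ2 τ hτU] at h4
    exact neg_ne β hβ0 h4
  · have h4 := h3 (t i) (t i).2 (ht1 i)
    rw [hβ'2 (t i) htU'] at h4
    exact neg_ne β' hβ'0 h4
  · have h4 := h3 (t i) (t i).2 (ht1 i)
    rw [smul_mul', hβ1 (t i) (hall i), hβ'2 (t i) htU'] at h4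
    apply neg_ne (β * β') (mul_ne_zero hβ0 hβ'0)
    linear_combination h4

end Pool.BDP
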