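import Mathlib

set_option autoImplicit false

/-!
# Group theory: index two subgroups and a Frattini argument
-/

namespace Pool.BDP

open scoped Pointwise

theorem exists_index_two {G : Type*} [Group G] (N Z : Subgroup G) [N.Normal] [Finite (G ⧸ N)]
    (hNZ : N ≤ Z) (hZ : Z ≠ ⊤) (h2 : ∀ g : G, ∃ k : ℕ, g ^ 2 ^ k ∈ N) :
    ∃ U : Subgroup G, Z ≤ U ∧ U.index = 2 := by
  classical
  have : Fact (Nat.Prime 2) := ⟨Nat.prime_two⟩
  have hp : IsPGroup 2 (G ⧸ N) := by
    intro x
    obtain ⟨g, rfl⟩ := QuotientGroup.mk_surjective x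
    obtain ⟨k, hk⟩ := h2 g
    refine ⟨k, ?_⟩
    rw [← QuotientGroup.mk_pow]
    exact (QuotientGroup.eq_one_iff _).2 hk
  obtain ⟨m, hm⟩ := IsPGroup.iff_card.1 hp
  set π := QuotientGroup.mk' N with hπ
  have hsurj : Function.Surjective π := QuotientGroup.mk'_surjective N
  set Zq : Subgroup (G ⧸ N) := Z.map π with hZq
  have hker : π.ker ≤ Z := by rw [hπ, QuotientGroup.ker_mk']; exact hNZ
  have hcomap : Zq.comap π = Z := Subgroup.comap_map_eq_self hker
  have hZq' : Zq ≠ ⊤ := by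
    intro h
    apply hZ
    rw [← hcomap, h, Subgroup.comap_top]
  obtain ⟨n, hn⟩ := IsPGroup.iff_card.1 (hp.to_subgroup Zq)
  have hlt : Nat.card Zq < Nat.card (G ⧸ N) := by
    refine lt_of_le_of_ne (Subgroup.card_le_card_group Zq) ?_
    intro h
    exact hZq' (Subgroup.eq_top_of_card_eq Zq h)
  have hnm : n < m := by
    rw [hn, hm] at hlt
    exact (Nat.pow_lt_pow_iff_right (by norm_num)).1 hlt
  obtain ⟨U, hU, hZU⟩ := Sylow.exists_subgroup_card_pow_prime_le 2
    (n := n) (m := m - 1) (by rw [hm]; exact pow_dvd_pow 2 (Nat.sub_le m 1)) Zq hn (by omega)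
  refine ⟨U.comap π, ?_, ?_⟩
  · rw [← hcomap]
    exact Subgroup.comap_mono hZU
  · rw [U.index_comap_of_surjective hsurj]
    have h1 := U.card_mul_index
    rw [hU, hm] at h1
    have h3 : 2 ^ m = 2 ^ (m - 1) * 2 := by
      rw [← pow_succ]; congr 1; omega
    rw [h3] at h1
    exact Nat.eq_of_mul_eq_mul_left (by positivity) h1

theorem frattini {G : Type*} [Group G] [TopologicalSpace G] [IsTopologicalGroup G]
    [CompactSpace G] [TotallyDisconnectedSpace G] (κ : G →* Multiplicative ℤ_[2])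
    (hs : Function.Surjective κ) (D N : Subgroup G) [N.Normal]
    (hD : IsClosed (D : Set G)) (hN : IsClosed (N : Set G))
    (hsq : ∀ h ∈ κ.ker, h ^ 2 ∈ N) (hne : D ⊔ N ≠ ⊤) :
    ∃ W : Subgroup G, IsOpen (W : Set G) ∧ W.index = 2 ∧ D ⊔ N ≤ W := by
  classical
  have hT2 : T2Space G := inferInstance
  have hclosed : IsClosed ((D ⊔ N : Subgroup G) : Set G) := by
    rw [Subgroup.mul_normal]
    exact (hD.isCompact.mul hN.isCompact).isClosed
  obtain ⟨g, hg⟩ : ∃ g, g ∉ (D ⊔ N : Subgroup G) := by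
    by_contra h
    push Not at h
    exact hne ((Subgroup.eq_top_iff' _).2 h)
  let Zc : ClosedSubgroup G := { toSubgroup := D ⊔ N, isClosed' := hclosed }
  have hZc := ProfiniteGrp.closedSubgroup_eq_sInf_open Zc
  have hg' : g ∉ sInf {N : Subgroup G | IsOpen (N : Set G) ∧ (Zc : Subgroup G) ≤ N} := by
    rw [← hZc]
    exact hg
  rw [Subgroup.mem_sInf] at hg'
  push Not at hg'
  obtain ⟨V, ⟨hVo, hVZ⟩, hgV⟩ := hg'
  have hVZ' : D ⊔ N ≤ V := hVZ
  have : Finite (G ⧸ V) := Subgroup.quotient_finite_of_isOpen V hVo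
  have : V.FiniteIndex := Subgroup.finiteIndex_of_finite_quotient
  let C : Subgroup G := V.normalCore
  have hNC : N ≤ C := Subgroup.normal_le_normalCore.2 (le_trans le_sup_right hVZ')
  have hCn : C.Normal := V.normalCore_normal
  have : C.FiniteIndex := inferInstanceAs (V.normalCore.FiniteIndex)
  have : Finite (G ⧸ C) := Subgroup.finite_quotient_of_finiteIndex
  obtain ⟨U, hVU, hU⟩ := exists_index_two C V V.normalCore_le
    (fun h => hgV (h ▸ Subgroup.mem_top g)) (by
      intro g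
      have he : C.index ≠ 0 := Subgroup.FiniteIndex.index_ne_zero
      obtain ⟨a, b, hb, hab⟩ := Nat.exists_eq_two_pow_mul_odd he
      have hbu : IsUnit ((b : ℕ) : ℤ_[2]) := by
        rw [PadicInt.isUnit_iff]
        have : ¬ (2 : ℕ) ∣ b := by
          intro h
          exact (Nat.not_even_iff_odd.2 hb) (even_iff_two_dvd.2 h)
        have h1 : ‖((b : ℤ) : ℤ_[2])‖ = 1 := by
          by_contra h2
          have h3 : ‖((b : ℤ) : ℤ_[2])‖ < 1 := lt_of_le_of_ne (PadicInt.norm_le_one _) h2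
          rw [PadicInt.norm_int_lt_one_iff_dvd] at h3
          exact this (by exact_mod_cast h3)
        simpa using h1
      obtain ⟨u, hu⟩ := hbu
      obtain ⟨g', hg'⟩ := hs (Multiplicative.ofAdd ((↑u⁻¹ : ℤ_[2]) * Multiplicative.toAdd (κ g)))
      have hkey : κ (g' ^ b) = κ g := by
        rw [map_pow, hg', ← ofAdd_nsmul, nsmul_eq_mul, ← hu, ← mul_assoc, Units.mul_inv, one_mul]
        rfl
      set h' : G := (g' ^ C.index)⁻¹ * g ^ 2 ^ a with hh'
      have hh'k : h' ∈ κ.ker := by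
        rw [MonoidHom.mem_ker, hh', map_mul, map_inv, map_pow κ g, ← hkey, ← map_pow, ← pow_mul,
          hab, mul_comm b, inv_mul_cancel]
      have hgc : g' ^ C.index ∈ C := Subgroup.pow_index_mem C g'
      refine ⟨a + 1, ?_⟩
      have h1 : g ^ 2 ^ (a + 1) = g' ^ C.index * (h' * (g' ^ C.index) * h'⁻¹) * h' ^ 2 := by
        rw [pow_succ 2 a, pow_mul, hh']
        generalize g' ^ C.index = x
        generalize g ^ 2 ^ a = y
        simp only [pow_two, mul_assoc, mul_inv_rev, inv_inv, mul_inv_cancel_left,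
          inv_mul_cancel_left]
      rw [h1]
      exact C.mul_mem (C.mul_mem hgc (hCn.conj_mem _ hgc h')) (hNC (hsq h' hh'k)))
  exact ⟨U, Subgroup.isOpen_mono hVU hVo, hU, le_trans hVZ' hVU⟩

end Pool.BDP
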