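import Pool.Agent.BDP.Gen

set_option autoImplicit false

/-!
# A cocycle which vanishes at the test elements and on the decomposition group is zero
-/

namespace Pool.BDP

open scoped NumberField Pointwise

section

variable {G A : Type} [Group G] [AddCommGroup A] [DistribMulAction G A]

/-- unipotence on the 2-torsion implies unipotence on all 2-power torsion -/
theorem unip (huni : ∀ g : G, ∀ a : A, 2 • a = 0 → ∃ n : ℕ, g ^ 2 ^ n • a = a) (g : G) (m : ℕ) :
    ∀ a : A, 2 ^ m • a = 0 → ∃ n : ℕ, g ^ 2 ^ n • a = a := by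
  induction m with
  | zero =>
    intro a ha
    refine ⟨0, ?_⟩
    have : a = 0 := by simpa using ha
    rw [this, smul_zero]
  | succ m ih =>
    intro a ha
    have h1 : 2 ^ m • (2 • a) = 0 := by
      rw [smul_smul, ← pow_succ]
      exact ha
    obtain ⟨n, hn⟩ := ih (2 • a) h1
    set g1 := g ^ 2 ^ n with hg1
    set b := g1 • a - a with hb
    have hb2 : 2 • b = 0 := by
      rw [hb, smul_sub, ← smul_comm g1 2 a, hn, sub_self]
    obtain ⟨n', hn'⟩ := huni g1 b hb2
    set g2 := g1 ^ 2 ^ n' with hg2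
    -- `g2 • a - a` is killed by 2 and fixed by `g2`
    have hsum : ∀ k : ℕ, 2 • (g1 ^ k • a - a) = 0 ∧ g2 • (g1 ^ k • a - a) = g1 ^ k • a - a := by
      intro k
      induction k with
      | zero => simp
      | succ k ihk =>
        have h3 : g1 ^ (k + 1) • a - a = g1 ^ k • b + (g1 ^ k • a - a) := by
          rw [hb, smul_sub, pow_succ, mul_smul]
          abel
        have hcomm : g2 * g1 ^ k = g1 ^ k * g2 := by
          rw [hg2, ← pow_add, ← pow_add, add_comm]
        constructor
        · rw [h3, smul_add, ihk.1, ← smul_comm (g1 ^ k) 2 b, hb2, smul_zero, add_zero]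
        · rw [h3, smul_add, ihk.2, smul_smul, hcomm, mul_smul, hn']
    obtain ⟨h4, h5⟩ := hsum (2 ^ n')
    rw [← hg2] at h4 h5
    refine ⟨n + n' + 1, ?_⟩
    have h6 : g ^ 2 ^ (n + n' + 1) = g2 * g2 := by
      rw [hg2, hg1, ← pow_two, ← pow_mul, ← pow_mul]
      congr 1
      ring
    rw [h6, mul_smul]
    have h7 : g2 • a = a + (g2 • a - a) := by abel
    rw [h7, smul_add, h5]
    have h8 : g2 • a + (g2 • a - a) = a + 2 • (g2 • a - a) := by
      rw [two_smul]; abel
    rw [h8, h4, add_zero]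

end

variable {K : Type} [Field K]

theorem vanish [NumberField K] (κ : Z2Ext K) (P0 : Ideal (Zb K)) (S : Set (Ideal (𝓞 K)))
    {ι : Type} (t : ι → κ.H)
    (ht : ∀ U : Subgroup κ.H, QU κ P0 S U → ¬ ∀ i, t i ∈ U)
    (A : Type) [AddCommGroup A] [DistribMulAction (GK K) A]
    (hcont : ∀ a : A, IsOpen {g : GK K | g • a = a})
    (htor : ∀ a : A, ∃ n : ℕ, 2 ^ n • a = 0)
    (huni : ∀ g : GK K, ∀ a : A, 2 • a = 0 → ∃ n : ℕ, g ^ 2 ^ n • a = a)
    (c : κ.H → A) (hc1 : IsLocallyConstant c)
    (hc2 : ∀ g h : κ.H, c (g * h) = c g + (g : GK K) • c h)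
    (hcI : ∀ P : Ideal (Zb K), Away P → P.comap (algebraMap (𝓞 K) (Zb K)) ∉ S →
      ∀ σ : κ.H, (σ : GK K) ∈ Ine P → c σ = 0)
    (hcD : ∀ σ : κ.H, (σ : GK K) ∈ Dec P0 → c σ = 0)
    (hct : ∀ i, c (t i) = 0) : c = 0 := by
  classical
  have hcpt : CompactSpace κ.H := isCompact_iff_compactSpace.1 (isClosed_H κ).isCompact
  have hc_one : c 1 = 0 := by
    have := hc2 1 1
    simpa using this
  have hc_inv : ∀ g : κ.H, c g⁻¹ = -((g : GK K)⁻¹ • c g) := by
    intro g
    have h := hc2 g⁻¹ g
    rw [inv_mul_cancel, hc_one] at h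
    have h' : c g⁻¹ = -(((g⁻¹ : κ.H) : GK K) • c g) := by
      rw [eq_neg_iff_add_eq_zero]; exact h.symm
    rw [h']
    simp
  -- the zero set of `c`
  let Z : Subgroup κ.H :=
    { carrier := {h | c h = 0}
      mul_mem' := by
        intro a b ha hb
        change c (a * b) = 0
        rw [hc2, show c a = 0 from ha, show c b = 0 from hb, smul_zero, add_zero]
      one_mem' := hc_one
      inv_mem' := by
        intro a ha
        change c a⁻¹ = 0
        rw [hc_inv, show c a = 0 from ha, smul_zero, neg_zero] }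
  let N : Subgroup κ.H :=
    { carrier := {h | c h = 0 ∧ ∀ x, (h : GK K) • c x = c x}
      mul_mem' := by
        rintro a b ⟨ha, ha'⟩ ⟨hb, hb'⟩
        refine ⟨by rw [hc2, ha, hb, smul_zero, add_zero], fun x => ?_⟩
        rw [Subgroup.coe_mul, mul_smul, hb', ha']
      one_mem' := ⟨hc_one, fun x => by simp⟩
      inv_mem' := by
        rintro a ⟨ha, ha'⟩
        refine ⟨by rw [hc_inv, ha, smul_zero, neg_zero], fun x => ?_⟩
        rw [Subgroup.coe_inv, inv_smul_eq_iff]
        exact (ha' x).symm }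
  have hNZ : N ≤ Z := fun h hh => hh.1
  have hNn : N.Normal := by
    refine ⟨?_⟩
    rintro n ⟨hn, hn'⟩ g
    have key : ∀ x, c (g * n * g⁻¹ * x) = c x := by
      intro x
      have h1 : g * n * g⁻¹ * x = g * (n * (g⁻¹ * x)) := by group
      rw [h1, hc2, hc2, hn, zero_add, hn', ← hc2]
      congr 1
      group
    have h0 : c (g * n * g⁻¹) = 0 := by
      have := key 1
      rwa [mul_one, hc_one] at this
    refine ⟨h0, fun x => ?_⟩
    have := key x
    rw [hc2, h0, zero_add] at this
    exact this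
  have hfin : (Set.range c).Finite := hc1.range_finite
  have hNo : IsOpen (N : Set κ.H) := by
    have h1 : (N : Set κ.H) = {h | c h = 0} ∩
        ⋂ a ∈ Set.range c, {h : κ.H | (h : GK K) • a = a} := by
      ext h
      simp only [Set.mem_inter_iff, Set.mem_iInter, Set.mem_range, forall_exists_index,
        forall_apply_eq_imp_iff]
      rfl
    rw [h1]
    refine IsOpen.inter (hc1 {0}) ?_
    refine hfin.isOpen_biInter fun a _ => ?_
    exact (hcont a).preimage continuous_subtype_val
  have hQ : Finite (κ.H ⧸ N) := Subgroup.quotient_finite_of_isOpen N hNo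
  have h2 : ∀ g : κ.H, ∃ k : ℕ, g ^ 2 ^ k ∈ N := by
    intro g
    -- a common exponent for the finitely many values
    have hex : ∀ T : Finset A, ∃ n : ℕ, ∀ a ∈ T, (g : GK K) ^ 2 ^ n • a = a := by
      intro T
      induction T using Finset.induction_on with
      | empty => exact ⟨0, by simp⟩
      | insert a T ha ih =>
        obtain ⟨n, hn⟩ := ih
        obtain ⟨m, hm⟩ := htor a
        obtain ⟨n', hn'⟩ := unip huni (g : GK K) m a hm
        refine ⟨n + n', ?_⟩
        have pw : ∀ (x : GK K) (b : A), x • b = b → ∀ k : ℕ, x ^ k • b = b := by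
          intro x b hb k
          induction k with
          | zero => simp
          | succ k ihk => rw [pow_succ, mul_smul, hb, ihk]
        intro b hb
        rcases Finset.mem_insert.1 hb with rfl | hb
        · rw [pow_add, mul_comm, pow_mul]
          exact pw _ _ hn' _
        · rw [pow_add, pow_mul]
          exact pw _ _ (hn b hb) _
    obtain ⟨n, hn⟩ := hex hfin.toFinset
    set g1 := g ^ 2 ^ n with hg1
    have hg1' : ∀ x, (g1 : GK K) • c x = c x := by
      intro x
      have := hn (c x) (by simp)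
      rw [hg1]
      simpa using this
    obtain ⟨m, hm⟩ := htor (c g1)
    have hpow : ∀ k : ℕ, c (g1 ^ k) = k • c g1 ∧ ∀ x, ((g1 ^ k : κ.H) : GK K) • c x = c x := by
      intro k
      induction k with
      | zero => exact ⟨by simp [hc_one], fun x => by simp⟩
      | succ k ih =>
        refine ⟨?_, fun x => ?_⟩
        · rw [pow_succ, hc2, ih.1, ih.2, succ_nsmul]
        · rw [pow_succ, Subgroup.coe_mul, mul_smul, hg1' x, ih.2 x]
    refine ⟨n + m, ?_⟩
    have h3 : g ^ 2 ^ (n + m) = g1 ^ 2 ^ m := by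
      rw [hg1, ← pow_mul, pow_add]
    rw [h3]
    obtain ⟨h4, h5⟩ := hpow (2 ^ m)
    exact ⟨by rw [h4, hm], h5⟩
  by_contra hne
  have hZ : Z ≠ ⊤ := by
    intro h
    apply hne
    funext x
    have : x ∈ Z := h ▸ Subgroup.mem_top x
    exact this
  obtain ⟨U, hZU, hU2⟩ := exists_index_two N Z hNZ hZ h2
  refine ht U ⟨hU2, Subgroup.isOpen_mono (le_trans hNZ hZU) hNo, ?_, ?_⟩ ?_
  · intro P hP hPS σ hσ
    exact hZU (hcI P hP hPS σ hσ)
  · intro σ hσ
    exact hZU (hcD σ hσ)
  · intro i
    exact hZU (hct i)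

end Pool.BDP
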