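import Pool.Agent.BDP.Conj
import Pool.Agent.BDP.Van
import Pool.Agent.BDP.Alg

set_option autoImplicit false

/-!
# The general theorem: finite generation of the dual Selmer group
-/

namespace Pool.BDP

open scoped NumberField Pointwise

variable {K : Type} [Field K]

section

variable (A : Type) [AddCommGroup A] [Module ℤ_[2] A] [DistribMulAction (GK K) A]
  [SMulCommClass (GK K) ℤ_[2] A]

/-- functions on `H` vanishing on `D` -/
def VanD (H D : Subgroup (GK K)) : Submodule ℤ_[2] (H → A) where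
  carrier := {c | ∀ σ : H, (σ : GK K) ∈ D → c σ = 0}
  add_mem' := by
    intro a b ha hb σ hσ
    rw [Pi.add_apply, ha σ hσ, hb σ hσ, add_zero]
  zero_mem' := fun σ _ => rfl
  smul_mem' := by
    intro r a ha σ hσ
    rw [Pi.smul_apply, ha σ hσ, smul_zero]

theorem cob_sel (H : Subgroup (GK K)) (q : Ideal (𝓞 K)) (R : Set (Ideal (𝓞 K)))
    (hcont : ∀ a : A, IsOpen {g : GK K | g • a = a}) (a : A) :
    (fun h : H => (h : GK K) • a - a) ∈ SelCoc A H q R := by
  refine ⟨⟨⟨?_, ?_⟩, ?_⟩, ?_⟩
  · rw [IsLocallyConstant.iff_exists_open]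
    intro x
    refine ⟨{y : H | ((x : GK K)⁻¹ * (y : GK K)) • a = a}, ?_, ?_, ?_⟩
    · have h1 : Continuous fun y : H => (x : GK K)⁻¹ * (y : GK K) := by fun_prop
      exact (hcont a).preimage h1
    · simp
    · intro y hy
      have h2 : ((x : GK K)⁻¹ * (y : GK K)) • a = a := hy
      have h3 : (y : GK K) • a = (x : GK K) • a := by
        rw [mul_smul, inv_smul_eq_iff] at h2
        exact h2
      simp only [h3]
  · intro g h
    simp only [Subgroup.coe_mul, mul_smul, smul_sub]
    abel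
  · simp only [SetLike.mem_coe, Submodule.mem_iInf]
    exact fun P => ⟨a, fun h _ => rfl⟩
  · simp only [SetLike.mem_coe, Submodule.mem_iInf]
    exact fun P => ⟨a, fun h _ => rfl⟩

end

/-- a surjection onto the character module of a finite product -/
theorem char_pi {ι : Type} [Fintype ι] [DecidableEq ι] (B : ι → Type)
    [∀ i, AddCommGroup (B i)] [∀ i, Module ℤ_[2] (B i)] :
    ∃ f : (∀ i, CharacterModule (B i)) →ₗ[ℤ_[2]] CharacterModule (∀ i, B i),
      Function.Surjective f := by
  refine ⟨∑ i, (CharacterModule.dual (LinearMap.proj i)).comp (LinearMap.proj i), ?_⟩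
  intro φ
  refine ⟨fun i => CharacterModule.dual (LinearMap.single ℤ_[2] B i) φ, ?_⟩
  apply CharacterModule.ext
  intro x
  have h1 : x = ∑ i, Pi.single i (x i) := (Finset.univ_sum_single x).symm
  conv_rhs => rw [h1]
  rw [map_sum]
  rw [LinearMap.sum_apply]
  have : ∀ (s : Finset ι) (F : ι → CharacterModule (∀ i, B i)),
      (∑ i ∈ s, F i) x = ∑ i ∈ s, F i x := by
    intro s F
    induction s using Finset.induction_on with
    | empty => rfl
    | insert a s ha ih =>
      rw [Finset.sum_insert ha, Finset.sum_insert ha, ← ih]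
      rfl
  rw [this]
  rfl

theorem general [NumberField K] (q : Ideal (𝓞 K)) (hqp : q.IsPrime) (hq : NoQuad q)
    (κ : Z2Ext K) (A : Type) [AddCommGroup A] [Module ℤ_[2] A] [DistribMulAction (GK K) A]
    [SMulCommClass (GK K) ℤ_[2] A]
    (hcont : ∀ a : A, IsOpen {g : GK K | g • a = a})
    (htor : ∀ a : A, ∃ n : ℕ, 2 ^ n • a = 0)
    (huni : ∀ g : GK K, ∀ a : A, 2 • a = 0 → ∃ n : ℕ, g ^ 2 ^ n • a = a)
    (S R : Set (Ideal (𝓞 K)))
    (hS : ∀ P : Ideal (Zb K), Away P → P.comap (algebraMap (𝓞 K) (Zb K)) ∉ S →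
      ∀ σ ∈ Ine P, ∀ a : A, σ • a = a)
    (hR : R ⊆ S) (s : ℕ) (w : Fin s → Ideal (Zb K)) (hwA : ∀ i, Away (w i))
    (hw : ∀ P : Ideal (Zb K), Away P → P.comap (algebraMap (𝓞 K) (Zb K)) ∈ S →
      ∃ i, ∃ h ∈ κ.H, P = h • w i)
    [Module.Finite ℤ_[2] (CharacterModule A)] [Module.Free ℤ_[2] (CharacterModule A)] :
    ∃ t : Fin s → GK K, (∀ i, t i ∈ Ine (w i)) ∧
      (∃ f : (Fin (s * Module.finrank ℤ_[2] (CharacterModule A)) → ℤ_[2]) →ₗ[ℤ_[2]]
        XSel A κ.H q R, Function.Surjective f) ∧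
      ((∀ i, (w i).comap (algebraMap (𝓞 K) (Zb K)) ∉ R) →
        ∃ f : (Fin (∑ i, Module.finrank ℤ_[2]
            (CharacterModule (LinearMap.range (opSub A (t i))))) → ℤ_[2]) →ₗ[ℤ_[2]]
          XSel A κ.H q R, Function.Surjective f) := by
  classical
  obtain ⟨P0, hP0p, hP0c⟩ : ∃ P0 : Ideal (Zb K), P0.IsPrime ∧
      P0.comap (algebraMap (𝓞 K) (Zb K)) = q := by
    have hint : Algebra.IsIntegral (𝓞 K) (Zb K) := by
      refine ⟨fun x => ?_⟩
      exact (NumberField.RingOfIntegers.isIntegral x).tower_top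
    obtain ⟨Q, _, h1, h2⟩ := Ideal.exists_ideal_over_prime_of_isIntegral (S := Zb K) q ⊥
      (by rw [← RingHom.ker_eq_comap_bot,
        (RingHom.injective_iff_ker_eq_bot _).1 (FaithfulSMul.algebraMap_injective (𝓞 K) (Zb K))]
          exact bot_le)
    exact ⟨Q, h1, h2⟩
  have hP0 : Above q P0 := ⟨hP0p, hP0c⟩
  obtain ⟨t, ht1, ht2⟩ := exists_test κ q hq P0 hP0 S s w hw
  -- normalised cocycles
  set Zn : Submodule ℤ_[2] (κ.H → A) := SelCoc A κ.H q R ⊓ VanD A κ.H (Dec P0) with hZn
  have hZle : Zn ≤ SelCoc A κ.H q R := inf_le_left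
  let toSel : Zn →ₗ[ℤ_[2]] Sel A κ.H q R :=
    (Sel.mk A κ.H q R).comp (show Zn →ₗ[ℤ_[2]] SC A κ.H q R from Submodule.inclusion hZle)
  have hsurj : Function.Surjective toSel := by
    intro x
    obtain ⟨⟨c, hc⟩, rfl⟩ := Sel.mk_surj A κ.H q R x
    have h2 := hc.1.2
    simp only [SetLike.mem_coe, Submodule.mem_iInf] at h2
    obtain ⟨a, ha⟩ := h2 ⟨P0, hP0⟩
    have hcob := cob_sel A κ.H q R hcont a
    refine ⟨⟨c - fun h : κ.H => (h : GK K) • a - a, ⟨Submodule.sub_mem _ hc hcob, ?_⟩⟩, ?_⟩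
    · intro σ hσ
      rw [Pi.sub_apply, ha σ hσ, sub_self]
    · rw [← sub_eq_zero]
      change Sel.mk A κ.H q R _ - Sel.mk A κ.H q R _ = 0
      rw [← map_sub, Sel.mk_eq_zero]
      refine ⟨-a, fun h => ?_⟩
      change (c h - ((h : GK K) • a - a)) - c h = _
      rw [smul_neg]
      abel
  let ev : Zn →ₗ[ℤ_[2]] (Fin s → A) := (LinearMap.funLeft ℤ_[2] A t).comp Zn.subtype
  have hinj : Function.Injective ev := by
    rw [injective_iff_map_eq_zero]
    rintro ⟨c, hc⟩ h
    apply Subtype.ext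
    have h3 := hc.1.2
    simp only [SetLike.mem_coe, Submodule.mem_iInf] at h3
    refine vanish κ P0 S t ht2 A hcont htor huni c hc.1.1.1.1 hc.1.1.1.2 ?_ hc.2 ?_
    · intro P hP hPS σ hσ
      obtain ⟨a, ha⟩ := h3 ⟨P, hP, fun h' => hPS (hR h')⟩
      rw [ha σ hσ, hS P hP hPS _ hσ, sub_self]
    · intro i
      exact congrFun h i
  -- the duals
  have hd1 : Function.Injective (CharacterModule.dual toSel) :=
    CharacterModule.dual_injective_of_surjective toSel hsurj
  have hd2 : Function.Surjective (CharacterModule.dual ev) :=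
    CharacterModule.dual_surjective_of_injective ev hinj
  obtain ⟨f, hf⟩ := char_pi (fun _ : Fin s => A)
  have hfin0 : Module.Finite ℤ_[2] (Fin s → CharacterModule A) := inferInstance
  refine ⟨fun i => t i, ht1, ?_, ?_⟩
  · have hcard : Module.finrank ℤ_[2] (Fin s → CharacterModule A) =
        s * Module.finrank ℤ_[2] (CharacterModule A) := by
      rw [Module.finrank_pi_fintype]
      simp
    let b := (Module.finBasisOfFinrankEq ℤ_[2] (Fin s → CharacterModule A) hcard)
    exact surj_sub _ ((CharacterModule.dual ev).comp (f.comp b.equivFun.symm.toLinearMap))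
      ((hd2.comp hf).comp b.equivFun.symm.surjective) _ hd1
  · intro hwR
    let T : Fin s → Submodule ℤ_[2] A := fun i => LinearMap.range (opSub A (t i : GK K))
    have hmem : ∀ (c : Zn) (i : Fin s), ev c i ∈ T i := by
      rintro ⟨c, hc⟩ i
      have h3 := hc.1.2
      simp only [SetLike.mem_coe, Submodule.mem_iInf] at h3
      obtain ⟨a, ha⟩ := h3 ⟨w i, hwA i, hwR i⟩
      exact ⟨a, (ha (t i) (ht1 i)).symm⟩
    let ev' : Zn →ₗ[ℤ_[2]] (∀ i, T i) :=
      LinearMap.pi fun i => ((LinearMap.proj i).comp ev).codRestrict (T i) (fun c => hmem c i)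
    have hinj' : Function.Injective ev' := by
      intro a b hab
      apply hinj
      funext i
      have := congrFun hab i
      exact congrArg Subtype.val this
    have hd3 : Function.Surjective (CharacterModule.dual ev') :=
      CharacterModule.dual_surjective_of_injective ev' hinj'
    obtain ⟨f', hf'⟩ := char_pi (fun i : Fin s => T i)
    -- the character module of `T i` embeds in that of `A`
    have hTinj : ∀ i, Function.Injective (CharacterModule.dual (opSub A (t i : GK K)).rangeRestrict) :=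
      fun i => CharacterModule.dual_injective_of_surjective _
        (LinearMap.surjective_rangeRestrict _)
    have hTfin : ∀ i, Module.Finite ℤ_[2] (CharacterModule (T i)) := fun i =>
      Module.Finite.of_injective _ (hTinj i)
    have hTfree : ∀ i, Module.Free ℤ_[2] (CharacterModule (T i)) := fun i =>
      Module.Free.of_equiv (LinearEquiv.ofInjective _ (hTinj i)).symm
    have hcard : Module.finrank ℤ_[2] (∀ i, CharacterModule (T i)) =
        ∑ i, Module.finrank ℤ_[2] (CharacterModule (T i)) := by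
      rw [Module.finrank_pi_fintype]
    let b := (Module.finBasisOfFinrankEq ℤ_[2] (∀ i, CharacterModule (T i)) hcard)
    exact surj_sub _ ((CharacterModule.dual ev').comp (f'.comp b.equivFun.symm.toLinearMap))
      ((hd3.comp hf').comp b.equivFun.symm.surjective) _ hd1

end Pool.BDP
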