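import Mathlib
import Pool.Agent.BDP.Defs

set_option autoImplicit false

/-!
# The Selmer group of BDP type over a `ℤ₂`-extension

Compact definitions, used in the statement of the main theorem. A cocycle on a subgroup `H` of the
absolute Galois group is given by a function on the whole group, of which only the values on `H`
count.
-/

noncomputable section

namespace Pool.BDP

open scoped NumberField Pointwise

variable {K : Type} [Field K]

/-- a `ℤ₂`-module with a linear action of the absolute Galois group of `K` -/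
structure GMod (K : Type) [Field K] where
  /-- the module -/
  V : Type
  [grp : AddCommGroup V]
  [mod : Module ℤ_[2] V]
  /-- the action -/
  act : GK K →* Module.End ℤ_[2] V

attribute [instance] GMod.grp GMod.mod

/-- the prime of `K` below a prime of the algebraic closure -/
def below (P : Ideal (Zb K)) : Ideal (𝓞 K) := P.comap (algebraMap (𝓞 K) (Zb K))

/-- the function `c` is on the subgroup `D` the coboundary of the element `a` -/
def CobOn (A : GMod K) (D : Subgroup (GK K)) (c : GK K → A.V) (a : A.V) : Prop :=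
  ∀ g ∈ D, c g = A.act g a - a

/-- the Selmer cocycles over the fixed field of `H`: `c` is on `H` a continuous cocycle with
values in the discrete module `A`, its class is trivial at all places above `q` and unramified at
all places not above 2 and not above a prime in `R`; there is no condition at the other places -/
def IsSel (A : GMod K) (H : Subgroup (GK K)) (q : Ideal (𝓞 K)) (R : Set (Ideal (𝓞 K)))
    (c : GK K → A.V) : Prop :=
  IsLocallyConstant (fun h : H => c h) ∧ (∀ g ∈ H, ∀ h ∈ H, c (g * h) = c g + A.act g (c h)) ∧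
    (∀ P : Ideal (Zb K), Above q P → ∃ a, CobOn A (H ⊓ Dec P) c a) ∧
    ∀ P : Ideal (Zb K), Away P → below P ∉ R → ∃ a, CobOn A (H ⊓ Ine P) c a

/-- the absolute Galois group of the `n`-th layer `K_n` of the `ℤ₂`-extension -/
def Z2Ext.layer (κ : Z2Ext K) (n : ℕ) : Subgroup (GK K) where
  carrier := {σ | ∃ z : ℤ_[2], Multiplicative.toAdd (κ.toHom σ) = 2 ^ n * z}
  mul_mem' := by
    rintro σ τ ⟨a, ha⟩ ⟨b, hb⟩
    exact ⟨a + b, by rw [map_mul, toAdd_mul, ha, hb, mul_add]⟩
  one_mem' := ⟨0, by simp⟩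
  inv_mem' := by
    rintro σ ⟨a, ha⟩
    exact ⟨-a, by rw [map_inv, toAdd_inv, ha, mul_neg]⟩

theorem H_le_layer (κ : Z2Ext K) (n : ℕ) : κ.H ≤ κ.layer n := by
  intro σ hσ
  have h : κ.toHom σ = 1 := hσ
  exact ⟨0, by rw [h]; simp⟩

theorem layer_anti (κ : Z2Ext K) (n m : ℕ) : κ.layer (n + m) ≤ κ.layer n := by
  rintro σ ⟨z, hz⟩
  exact ⟨2 ^ m * z, by rw [hz, pow_add, mul_assoc]⟩

theorem IsSel.res {A : GMod K} {H H' : Subgroup (GK K)} {q : Ideal (𝓞 K)}
    {R : Set (Ideal (𝓞 K))} {c : GK K → A.V} (hc : IsSel A H q R c) (hH : H' ≤ H) :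
    IsSel A H' q R c := by
  obtain ⟨h1, h2, h3, h4⟩ := hc
  refine ⟨?_, ?_, ?_, ?_⟩
  · have hcont : Continuous (Subgroup.inclusion hH) :=
      Continuous.subtype_mk continuous_subtype_val _
    exact h1.comp_continuous hcont
  · intro g hg h hh
    exact h2 g (hH hg) h (hH hh)
  · intro P hP
    obtain ⟨a, ha⟩ := h3 P hP
    exact ⟨a, fun g hg => ha g ⟨hH hg.1, hg.2⟩⟩
  · intro P hP hR
    obtain ⟨a, ha⟩ := h4 P hP hR
    exact ⟨a, fun g hg => ha g ⟨hH hg.1, hg.2⟩⟩

theorem IsSel.add {A : GMod K} {H : Subgroup (GK K)} {q : Ideal (𝓞 K)}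
    {R : Set (Ideal (𝓞 K))} {c d : GK K → A.V} (hc : IsSel A H q R c) (hd : IsSel A H q R d) :
    IsSel A H q R (c + d) := by
  obtain ⟨h1, h2, h3, h4⟩ := hc
  obtain ⟨h1', h2', h3', h4'⟩ := hd
  refine ⟨h1.add h1', ?_, ?_, ?_⟩
  · intro g hg h hh
    simp only [Pi.add_apply, h2 g hg h hh, h2' g hg h hh, map_add]
    abel
  · intro P hP
    obtain ⟨a, ha⟩ := h3 P hP
    obtain ⟨b, hb⟩ := h3' P hP
    exact ⟨a + b, fun g hg => by simp only [Pi.add_apply, ha g hg, hb g hg, map_add]; abel⟩
  · intro P hP hR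
    obtain ⟨a, ha⟩ := h4 P hP hR
    obtain ⟨b, hb⟩ := h4' P hP hR
    exact ⟨a + b, fun g hg => by simp only [Pi.add_apply, ha g hg, hb g hg, map_add]; abel⟩

theorem IsSel.smul {A : GMod K} {H : Subgroup (GK K)} {q : Ideal (𝓞 K)}
    {R : Set (Ideal (𝓞 K))} {c : GK K → A.V} (hc : IsSel A H q R c) (r : ℤ_[2]) :
    IsSel A H q R (r • c) := by
  obtain ⟨h1, h2, h3, h4⟩ := hc
  refine ⟨h1.comp (fun x => r • x), ?_, ?_, ?_⟩
  · intro g hg h hh
    simp only [Pi.smul_apply, h2 g hg h hh, smul_add, map_smul]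
  · intro P hP
    obtain ⟨a, ha⟩ := h3 P hP
    exact ⟨r • a, fun g hg => by simp only [Pi.smul_apply, ha g hg, smul_sub, map_smul]⟩
  · intro P hP hR
    obtain ⟨a, ha⟩ := h4 P hP hR
    exact ⟨r • a, fun g hg => by simp only [Pi.smul_apply, ha g hg, smul_sub, map_smul]⟩

theorem IsSel.zero (A : GMod K) (H : Subgroup (GK K)) (q : Ideal (𝓞 K))
    (R : Set (Ideal (𝓞 K))) : IsSel A H q R 0 := by
  refine ⟨IsLocallyConstant.const 0, ?_, ?_, ?_⟩
  · intro g hg h hh
    simp
  · intro P hP
    exact ⟨0, fun g hg => by simp⟩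
  · intro P hP hR
    exact ⟨0, fun g hg => by simp⟩

/-- the functions which are on `H` the coboundary of an element of the module -/
def LimCob (A : GMod K) (κ : Z2Ext K) : Submodule ℤ_[2] (GK K → A.V) where
  carrier := {c | ∃ a, CobOn A κ.H c a}
  add_mem' := by
    rintro c d ⟨a, ha⟩ ⟨b, hb⟩
    exact ⟨a + b, fun g hg => by simp only [Pi.add_apply, ha g hg, hb g hg, map_add]; abel⟩
  zero_mem' := ⟨0, fun g _ => by simp⟩
  smul_mem' := by
    rintro r c ⟨a, ha⟩
    exact ⟨r • a, fun g hg => by simp only [Pi.smul_apply, ha g hg, smul_sub, map_smul]⟩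

/-- the cocycles over `K_∞` whose class comes from a Selmer class over some layer `K_n`: on the
absolute Galois group of `K_∞` they differ from a Selmer cocycle over `K_n` by a coboundary -/
def LimCoc (A : GMod K) (κ : Z2Ext K) (q : Ideal (𝓞 K)) (R : Set (Ideal (𝓞 K))) :
    Submodule ℤ_[2] (GK K → A.V) where
  carrier := {c | ∃ (n : ℕ) (c' : GK K → A.V), IsSel A (κ.layer n) q R c' ∧
    c - c' ∈ LimCob A κ}
  add_mem' := by
    rintro c d ⟨n, c', hc, hc'⟩ ⟨m, d', hd, hd'⟩
    have h1 := hc.res (layer_anti κ n m)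
    have h2 := hd.res (layer_anti κ m n)
    rw [add_comm m n] at h2
    refine ⟨n + m, c' + d', h1.add h2, ?_⟩
    have h3 : c + d - (c' + d') = (c - c') + (d - d') := by abel
    rw [h3]
    exact Submodule.add_mem _ hc' hd'
  zero_mem' := ⟨0, 0, IsSel.zero A _ q R, by rw [sub_zero]; exact Submodule.zero_mem _⟩
  smul_mem' := by
    rintro r c ⟨n, c', hc1, hc2⟩
    refine ⟨n, r • c', hc1.smul r, ?_⟩
    rw [← smul_sub]
    exact Submodule.smul_mem _ _ hc2

/-- the action of `g` on functions by `(g c)(h) = g (c (g⁻¹ h g))` -/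
def conj (A : GMod K) (g : GK K) : Module.End ℤ_[2] (GK K → A.V) where
  toFun c := fun h => A.act g (c (g⁻¹ * h * g))
  map_add' c d := by funext h; simp only [Pi.add_apply, map_add]
  map_smul' r c := by
    funext h
    simp only [Pi.smul_apply, RingHom.id_apply, map_smul]

/-- a module has `n` generators over `ℤ₂` -/
def HasGens (M : Type) [AddCommGroup M] [Module ℤ_[2] M] (n : ℕ) : Prop :=
  ∃ f : Fin n → M, Submodule.span ℤ_[2] (Set.range f) = ⊤

/-- the Pontryagin dual of the quotient of `U` by its intersection with `W` -/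
abbrev DualQuot {M : Type} [AddCommGroup M] [Module ℤ_[2] M] (U W : Submodule ℤ_[2] M) : Type :=
  CharacterModule (U ⧸ W.comap U.subtype)

/-- the Pontryagin dual of the quotient of `U` by its intersection with `W` has `n` generators -/
def DualGens {M : Type} [AddCommGroup M] [Module ℤ_[2] M] (U W : Submodule ℤ_[2] M) (n : ℕ) :
    Prop :=
  HasGens (DualQuot U W) n

/-- the dual of the Selmer group of the `ℤ₂`-extension (which is the direct limit of the Selmer
groups of the layers) has `n` generators over `ℤ₂` -/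
def Gens (A : GMod K) (κ : Z2Ext K) (q : Ideal (𝓞 K)) (R : Set (Ideal (𝓞 K))) (n : ℕ) :
    Prop :=
  DualGens (LimCoc A κ q R) (LimCob A κ) n

/-- the operator `f(g)` kills the Selmer group of the `ℤ₂`-extension -/
def Kills (A : GMod K) (κ : Z2Ext K) (q : Ideal (𝓞 K)) (R : Set (Ideal (𝓞 K)))
    (f : Polynomial ℤ_[2]) (g : GK K) : Prop :=
  ∀ c ∈ LimCoc A κ q R, Polynomial.aeval (conj A g) f c ∈ LimCob A κ

/-- the dual of the Selmer group of the `ℤ₂`-extension has `n` generators over `ℤ₂`, and every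
element `g` of the Galois group acts on the Selmer group, hence on its dual, as a root of a monic
polynomial of degree `n` over `ℤ₂` -/
def Bound (A : GMod K) (κ : Z2Ext K) (q : Ideal (𝓞 K)) (R : Set (Ideal (𝓞 K))) (n : ℕ) :
    Prop :=
  Gens A κ q R n ∧
    ∀ g : GK K, ∃ f : Polynomial ℤ_[2], f.Monic ∧ f.natDegree = n ∧ Kills A κ q R f g

/-- the module is discrete with continuous action and each element is killed by a power of 2 -/
def GMod.Disc (A : GMod K) : Prop :=
  (∀ a : A.V, IsOpen {g : GK K | A.act g a = a}) ∧ ∀ a : A.V, ∃ n : ℕ, 2 ^ n • a = 0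

/-- the Pontryagin dual of the module is free of rank `m` over `ℤ₂` -/
def GMod.Cofree (A : GMod K) (m : ℕ) : Prop :=
  Module.Finite ℤ_[2] (CharacterModule A.V) ∧ Module.Free ℤ_[2] (CharacterModule A.V) ∧
    Module.finrank ℤ_[2] (CharacterModule A.V) = m

/-- the Galois group acts on the 2-torsion through a 2-group -/
def GMod.Unip (A : GMod K) : Prop :=
  ∀ g : GK K, ∀ a : A.V, 2 • a = 0 → ∃ n : ℕ, A.act (g ^ 2 ^ n) a = a

/-- the module is unramified at all places not above 2 and not above `S` -/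
def GMod.Unram (A : GMod K) (S : Set (Ideal (𝓞 K))) : Prop :=
  ∀ P : Ideal (Zb K), Away P → below P ∉ S → ∀ σ ∈ Ine P, A.act σ = 1

/-- the rank over `ℤ₂` of the Pontryagin dual of a module -/
def corank (M : Type) [AddCommGroup M] [Module ℤ_[2] M] : ℕ :=
  Module.finrank ℤ_[2] (CharacterModule M)

/-- the submodule `(t - 1) A` -/
def GMod.im (A : GMod K) (t : GK K) : Submodule ℤ_[2] A.V :=
  LinearMap.range (A.act t - 1)

/-- the corank of `(t - 1) A` -/
def GMod.rk (A : GMod K) (t : GK K) : ℕ := corank (A.im t)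

/-- the places `w i`, which are not above 2, represent all places of `K_∞` above `S` and not
above 2 -/
def Repr (κ : Z2Ext K) (S : Set (Ideal (𝓞 K))) (s : ℕ) (w : Fin s → Ideal (Zb K)) : Prop :=
  (∀ i, Away (w i)) ∧
    ∀ P : Ideal (Zb K), Away P → below P ∈ S → ∃ i, ∃ h ∈ κ.H, P = h • w i

end Pool.BDP

end
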