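import Pool.Agent.BDP.Pack
import Pool.Agent.BDP.Main

set_option autoImplicit false

/-!
# The main theorem for the compact definitions
-/

noncomputable section

namespace Pool.BDP

open scoped NumberField Pointwise

variable {K : Type} [Field K]

instance instNormalH (κ : Z2Ext K) : κ.H.Normal := inferInstanceAs (κ.toHom.ker.Normal)

/-- the action of `GMod` as an instance -/
instance instGModAct (A : GMod K) : DistribMulAction (GK K) A.V where
  smul g a := A.act g a
  one_smul a := by
    change A.act 1 a = a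
    rw [map_one]
    rfl
  mul_smul g h a := by
    change A.act (g * h) a = A.act g (A.act h a)
    rw [map_mul]
    rfl
  smul_zero g := map_zero (A.act g)
  smul_add g := map_add (A.act g)

instance instGModComm (A : GMod K) : SMulCommClass (GK K) ℤ_[2] A.V :=
  ⟨fun g r a => map_smul (A.act g) r a⟩

/-- restriction of functions to a subgroup -/
def toSub (A : GMod K) (H : Subgroup (GK K)) : (GK K → A.V) →ₗ[ℤ_[2]] (H → A.V) :=
  LinearMap.funLeft ℤ_[2] A.V Subtype.val

theorem isSel_mem (A : GMod K) (H : Subgroup (GK K)) (q : Ideal (𝓞 K))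
    (R : Set (Ideal (𝓞 K))) (c : GK K → A.V) (hc : IsSel A H q R c) :
    toSub A H c ∈ SelCoc A.V H q R := by
  obtain ⟨h1, h2, h3, h4⟩ := hc
  refine ⟨⟨⟨h1, fun g h => h2 g g.2 h h.2⟩, ?_⟩, ?_⟩
  · simp only [SetLike.mem_coe, Submodule.mem_iInf]
    rintro ⟨P, hP⟩
    obtain ⟨a, ha⟩ := h3 P hP
    exact ⟨a, fun g hg => ha g ⟨g.2, hg⟩⟩
  · simp only [SetLike.mem_coe, Submodule.mem_iInf]
    rintro ⟨P, hP, hR⟩
    obtain ⟨a, ha⟩ := h4 P hP hR
    exact ⟨a, fun g hg => ha g ⟨g.2, hg⟩⟩

theorem limCoc_le (A : GMod K) (hcont : ∀ a : A.V, IsOpen {g : GK K | A.act g a = a})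
    (κ : Z2Ext K) (q : Ideal (𝓞 K)) (R : Set (Ideal (𝓞 K))) (c : GK K → A.V)
    (hc : c ∈ LimCoc A κ q R) : toSub A κ.H c ∈ SelCoc A.V κ.H q R := by
  obtain ⟨n, c', h1, a, h2⟩ := hc
  have h3 := isSel_mem A κ.H q R _ (h1.res (H_le_layer κ n))
  have h4 := cob_sel A.V κ.H q R hcont a
  have h5 : toSub A κ.H c = toSub A κ.H c' + (fun h : κ.H => (h : GK K) • a - a) := by
    funext g
    have := h2 g g.2
    change c g - c' g = A.act g a - a at this
    change c g = c' g + (A.act g a - a)
    rw [← this]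
    abel
  rw [h5]
  exact Submodule.add_mem _ h3 h4

theorem mem_cob_iff (A : GMod K) (κ : Z2Ext K) (c : GK K → A.V) :
    toSub A κ.H c ∈ Cob A.V κ.H ↔ c ∈ LimCob A κ := by
  constructor
  · rintro ⟨a, ha⟩
    exact ⟨a, fun g hg => ha ⟨g, hg⟩⟩
  · rintro ⟨a, ha⟩
    exact ⟨a, fun g => ha g g.2⟩

theorem toSub_conj (A : GMod K) (κ : Z2Ext K) (g : GK K) :
    (toSub A κ.H).comp (conj A g) = (conjFun A.V κ.H g).comp (toSub A κ.H) := by
  refine LinearMap.ext fun c => ?_
  funext h
  change A.act g (c (g⁻¹ * (h : GK K) * g)) = A.act g (c (MulAut.conjNormal g⁻¹ h : κ.H))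
  rw [conjFun_coe]

/-- polynomials in intertwined operators -/
theorem aeval_intertwine {R M N : Type} [CommRing R] [AddCommGroup M] [Module R M]
    [AddCommGroup N] [Module R N] (π : M →ₗ[R] N) (S : Module.End R M) (T : Module.End R N)
    (h : π.comp S = T.comp π) (f : Polynomial R) (x : M) :
    π (Polynomial.aeval S f x) = Polynomial.aeval T f (π x) := by
  have hk : ∀ (k : ℕ) (x : M), π ((S ^ k) x) = (T ^ k) (π x) := by
    intro k
    induction k with
    | zero => intro x; rfl
    | succ k ih =>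
      intro x
      rw [pow_succ, pow_succ]
      change π ((S ^ k) (S x)) = (T ^ k) (T (π x))
      rw [ih]
      have := LinearMap.congr_fun h x
      simp only [LinearMap.comp_apply] at this
      rw [this]
  induction f using Polynomial.induction_on' with
  | add p q hp hq =>
    rw [map_add, map_add, LinearMap.add_apply, LinearMap.add_apply, map_add, hp, hq]
  | monomial k a =>
    rw [Polynomial.aeval_monomial, Polynomial.aeval_monomial]
    simp only [Algebra.algebraMap_eq_smul_one, smul_mul_assoc, one_mul, LinearMap.smul_apply,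
      map_smul, hk]

theorem dual_aeval {R M : Type} [CommRing R] [AddCommGroup M] [Module R M]
    (T : Module.End R M) (f : Polynomial R) (φ : CharacterModule M) (x : M) :
    (Polynomial.aeval (CharacterModule.dual T : Module.End R (CharacterModule M)) f φ) x =
      φ (Polynomial.aeval T f x) := by
  have hk : ∀ (k : ℕ) (φ : CharacterModule M) (x : M),
      (((CharacterModule.dual T : Module.End R (CharacterModule M)) ^ k) φ) x =
        φ ((T ^ k) x) := by
    intro k
    induction k with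
    | zero => intro φ x; rfl
    | succ k ih =>
      intro φ x
      rw [pow_succ, pow_succ']
      change (((CharacterModule.dual T : Module.End R (CharacterModule M)) ^ k)
        (CharacterModule.dual T φ)) x = φ (T ((T ^ k) x))
      rw [ih]
      rfl
  induction f using Polynomial.induction_on' with
  | add p q hp hq =>
    rw [map_add, map_add, LinearMap.add_apply, LinearMap.add_apply, map_add]
    have h1 : ∀ (a b : CharacterModule M), (a + b) x = a x + b x := fun a b => rfl
    rw [h1, hp, hq]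
  | monomial k a =>
    rw [Polynomial.aeval_monomial, Polynomial.aeval_monomial]
    simp only [Algebra.algebraMap_eq_smul_one, smul_mul_assoc, one_mul, LinearMap.smul_apply]
    have h1 : ∀ (b : CharacterModule M), (a • b) x = b (a • x) := fun b => rfl
    rw [h1, hk, map_smul]

theorem monic_dual {R M : Type} [CommRing R] [Nontrivial R] [AddCommGroup M] [Module R M]
    (n : ℕ) (π : (Fin n → R) →ₗ[R] CharacterModule M) (hπ : Function.Surjective π)
    (T : Module.End R M) :
    ∃ f : Polynomial R, f.Monic ∧ f.natDegree = n ∧ Polynomial.aeval T f = 0 := by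
  obtain ⟨f, h1, h2, h3⟩ := monic_end n π hπ (CharacterModule.dual T)
  refine ⟨f, h1, h2, ?_⟩
  ext x
  rw [LinearMap.zero_apply]
  apply CharacterModule.eq_zero_of_character_apply
  intro φ
  rw [← dual_aeval, h3]
  rfl

theorem span_of_surj {R M : Type} [CommRing R] [AddCommGroup M] [Module R M] (n : ℕ)
    (F : (Fin n → R) →ₗ[R] M) (hF : Function.Surjective F) :
    ∃ f : Fin n → M, Submodule.span R (Set.range f) = ⊤ := by
  refine ⟨fun i => F (Pi.basisFun R (Fin n) i), ?_⟩
  have h1 : (fun i => F (Pi.basisFun R (Fin n) i)) = F ∘ (Pi.basisFun R (Fin n)) := rfl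
  rw [h1, Set.range_comp, ← Submodule.map_span, (Pi.basisFun R (Fin n)).span_eq,
    Submodule.map_top]
  exact LinearMap.range_eq_top.2 hF

theorem bound_of_surj (A : GMod K) (hcont : ∀ a : A.V, IsOpen {g : GK K | A.act g a = a})
    (κ : Z2Ext K) (q : Ideal (𝓞 K)) (R : Set (Ideal (𝓞 K))) (n : ℕ)
    (h : ∃ f : (Fin n → ℤ_[2]) →ₗ[ℤ_[2]] XSel A.V κ.H q R, Function.Surjective f) :
    Bound A κ q R n := by
  obtain ⟨f, hf⟩ := h
  let i : LimCoc A κ q R →ₗ[ℤ_[2]] SC A.V κ.H q R :=
    ((toSub A κ.H).comp (LimCoc A κ q R).subtype).codRestrict (SelCoc A.V κ.H q R)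
      (fun c => limCoc_le A hcont κ q R c c.2)
  let j : (LimCoc A κ q R ⧸ (LimCob A κ).comap (LimCoc A κ q R).subtype) →ₗ[ℤ_[2]]
      Sel A.V κ.H q R :=
    Submodule.liftQ _ ((Sel.mk A.V κ.H q R).comp i) (by
      intro c hc
      rw [LinearMap.mem_ker, LinearMap.comp_apply, Sel.mk_eq_zero]
      exact (mem_cob_iff A κ c).2 hc)
  have hj : Function.Injective j := by
    rw [injective_iff_map_eq_zero]
    intro x hx
    obtain ⟨c, rfl⟩ := Submodule.mkQ_surjective _ x
    have h1 : Sel.mk A.V κ.H q R (i c) = 0 := hx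
    rw [Sel.mk_eq_zero] at h1
    exact (Submodule.Quotient.mk_eq_zero _).2 ((mem_cob_iff A κ c).1 h1)
  have hd : Function.Surjective (CharacterModule.dual j) :=
    CharacterModule.dual_surjective_of_injective _ hj
  refine ⟨span_of_surj n ((CharacterModule.dual j).comp f) (hd.comp hf), fun g => ?_⟩
  obtain ⟨p, hp1, hp2, hp3⟩ := monic_dual n f hf (selConj A.V κ.H q R g)
  refine ⟨p, hp1, hp2, fun c hc => ?_⟩
  have h1 : Sel.mk A.V κ.H q R (Polynomial.aeval
      (cocConj A.V κ.H q R g : Module.End ℤ_[2] (SC A.V κ.H q R)) p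
        (i ⟨c, hc⟩)) = 0 := by
    rw [aeval_intertwine (Sel.mk A.V κ.H q R) (cocConj A.V κ.H q R g)
      (selConj A.V κ.H q R g) (by ext x; rfl), hp3, LinearMap.zero_apply]
  rw [Sel.mk_eq_zero, aeval_intertwine (SC.fn A.V κ.H q R) (cocConj A.V κ.H q R g)
    (conjFun A.V κ.H g) (by ext x; rfl)] at h1
  have h2 : SC.fn A.V κ.H q R (i ⟨c, hc⟩) = toSub A κ.H c := rfl
  rw [h2, ← aeval_intertwine (toSub A κ.H) (conj A g) (conjFun A.V κ.H g)
    (toSub_conj A κ g)] at h1
  exact (mem_cob_iff A κ _).1 h1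

theorem packed [NumberField K] (q : Ideal (𝓞 K)) (hqp : q.IsPrime) (hq : NoQuad q)
    (κ : Z2Ext K) (A : GMod K) (m : ℕ) (hA : A.Disc) (hm : A.Cofree m) (hU : A.Unip)
    (S R : Set (Ideal (𝓞 K))) (hS : A.Unram S) (hR : R ⊆ S) (s : ℕ) (w : Fin s → Ideal (Zb K))
    (hw : Repr κ S s w) :
    ∃ t : Fin s → GK K, (∀ i, t i ∈ Ine (w i)) ∧ Bound A κ q R (s * m) ∧
      ((∀ i, below (w i) ∉ R) → Bound A κ q R (∑ i, A.rk (t i))) := by
  obtain ⟨hfin, hfree, rfl⟩ := hm
  obtain ⟨t, ht, h1, h2⟩ :=
    general q hqp hq κ A.V hA.1 hA.2 hU S R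
      (fun P hP hPS σ hσ a => by
        change A.act σ a = a
        rw [hS P hP hPS σ hσ]
        rfl) hR s w hw.1 hw.2
  exact ⟨t, ht, bound_of_surj A hA.1 κ q R _ h1, fun h => bound_of_surj A hA.1 κ q R _ (h2 h)⟩

end Pool.BDP

end
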