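import Pool.Agent.BDP.Top

set_option autoImplicit false

/-!
# Transitivity and lifting of residue automorphisms for open subgroups
-/

namespace Pool.BDP

open scoped NumberField Pointwise

variable {K : Type} [Field K]

section

variable (W : Subgroup (GK K))

theorem compact_W [CharZero K] (hW : IsOpen (W : Set (GK K))) : CompactSpace W :=
  isCompact_iff_compactSpace.1 (W.isClosed_of_isOpen hW).isCompact

/-- the fixed ring of `W` -/
noncomputable abbrev fixR : Subalgebra ℤ (Zb K) := FixedPoints.subalgebra ℤ (Zb K) W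

theorem fixR_inv : Algebra.IsInvariant (fixR W) (Zb K) W :=
  ⟨fun b hb => ⟨⟨b, hb⟩, rfl⟩⟩

instance fixR_comm : SMulCommClass W (fixR W) (Zb K) := by
  refine ⟨fun g a b => ?_⟩
  rw [Algebra.smul_def, Algebra.smul_def, smul_mul']
  congr 1
  exact a.2 g

theorem trans_W [CharZero K] (hW : IsOpen (W : Set (GK K))) (P Q : Ideal (Zb K)) [P.IsPrime]
    [Q.IsPrime] (h : ∀ x : Zb K, (∀ τ ∈ W, τ • x = x) → (x ∈ P ↔ x ∈ Q)) :
    ∃ τ ∈ W, Q = τ • P := by
  have h1 := compact_W W hW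
  have h2 := fixR_inv W
  obtain ⟨g, hg⟩ := Algebra.IsInvariant.exists_smul_of_under_eq_of_profinite
    (A := fixR W) (G := W) P Q (by
      ext ⟨x, hx⟩
      exact h x (fun τ hτ => hx ⟨τ, hτ⟩))
  exact ⟨g, g.2, hg⟩

theorem resid_W [CharZero K] (hW : IsOpen (W : Set (GK K))) (P : Ideal (Zb K)) [P.IsPrime]
    (σ : GK K) (hσ : σ • P = P)
    (h : ∀ x : Zb K, (∀ τ ∈ W, τ • x = x) → σ • x - x ∈ P) :
    ∃ τ ∈ W, τ • P = P ∧ ∀ x : Zb K, τ • x - σ • x ∈ P := by
  have h1 := compact_W W hW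
  have h2 := fixR_inv W
  let p : Ideal (fixR W) := P.under (fixR W)
  let e : Zb K ≃+* Zb K := MulSemiringAction.toRingEquiv (GK K) (Zb K) σ
  have he : P = P.map (e : Zb K →+* Zb K) := by
    conv_lhs => rw [← hσ]
    rfl
  let e1 : (Zb K ⧸ P) ≃+* (Zb K ⧸ P) := Ideal.quotientEquiv P P e he
  let e2 : (Zb K ⧸ P) ≃ₐ[fixR W ⧸ p] (Zb K ⧸ P) := AlgEquiv.ofRingEquiv (f := e1) (by
    intro r
    obtain ⟨⟨x, hx⟩, rfl⟩ := Ideal.Quotient.mk_surjective r
    change Ideal.Quotient.mk P (σ • x) = Ideal.Quotient.mk P x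
    rw [Ideal.Quotient.eq]
    exact h x (fun τ hτ => hx ⟨τ, hτ⟩))
  obtain ⟨⟨g, hg⟩, hge⟩ := Ideal.Quotient.stabilizerHom_surjective_of_profinite
    (G := W) p P e2
  refine ⟨g, g.2, hg, fun x => ?_⟩
  have := congrArg (fun f : (Zb K ⧸ P) ≃ₐ[fixR W ⧸ p] (Zb K ⧸ P) =>
    f (Ideal.Quotient.mk P x)) hge
  change Ideal.Quotient.mk P ((g : GK K) • x) = Ideal.Quotient.mk P (σ • x) at this
  rwa [Ideal.Quotient.eq] at this

end

theorem fixed_mem [CharZero K] (z : Zb K) (h : ∀ g : GK K, g • z = z) :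
    ∃ c : 𝓞 K, algebraMap (𝓞 K) (Zb K) c = z := by
  have h1 : (z : AlgebraicClosure K) ∈ Set.range (algebraMap K (AlgebraicClosure K)) := by
    rw [InfiniteGalois.mem_range_algebraMap_iff_fixed]
    intro g
    have := congrArg (fun x : Zb K => (x : AlgebraicClosure K)) (h g)
    exact this
  obtain ⟨c, hc⟩ := h1
  have hci : IsIntegral ℤ c := by
    rw [← isIntegral_algebraMap_iff (FaithfulSMul.algebraMap_injective K (AlgebraicClosure K)), hc]
    exact z.2
  refine ⟨⟨c, hci⟩, ?_⟩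
  apply NumberField.RingOfIntegers.ext
  exact hc

/-- for an element fixed by an index two subgroup: the basic properties of `x - σ x` -/
theorem diff_props [CharZero K] (W : Subgroup (GK K)) (hW2 : W.index = 2) (σ : GK K) (hσ : σ ∉ W)
    (x : Zb K) (hx : ∀ τ ∈ W, τ • x = x) :
    (∀ τ ∈ W, τ • (σ • x) = σ • x) ∧ σ • σ • x = x ∧ (∀ τ, τ ∉ W → τ • x = σ • x) ∧
      (∀ τ, τ ∉ W → τ • (σ • x) = x) := by
  have hn : W.Normal := Subgroup.normal_of_index_eq_two hW2
  have h1 : ∀ τ ∈ W, τ • (σ • x) = σ • x := by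
    intro τ hτ
    have h2 : σ⁻¹ * τ * σ ∈ W := by
      have := hn.conj_mem τ hτ σ⁻¹
      simpa using this
    have h3 : τ * σ = σ * (σ⁻¹ * τ * σ) := by group
    rw [smul_smul, h3, mul_smul, hx _ h2]
  have h2 : σ • σ • x = x := by
    rw [smul_smul]
    exact hx _ (Subgroup.mul_self_mem_of_index_two hW2 σ)
  have h3 : ∀ τ, τ ∉ W → τ • x = σ • x := by
    intro τ hτ
    have h4 : σ⁻¹ * τ ∈ W := by
      rw [Subgroup.mul_mem_iff_of_index_two hW2]
      exact ⟨fun h => absurd (inv_mem_iff.1 h) hσ, fun h => absurd h hτ⟩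
    have h5 : τ = σ * (σ⁻¹ * τ) := by group
    rw [h5, mul_smul, hx _ h4]
  refine ⟨h1, h2, h3, ?_⟩
  intro τ hτ
  have h4 : τ * σ ∈ W := by
    rw [Subgroup.mul_mem_iff_of_index_two hW2]
    exact ⟨fun h => absurd h hτ, fun h => absurd h hσ⟩
  rw [smul_smul, hx _ h4]

theorem exists_notMem_of_index_two (W : Subgroup (GK K)) (hW2 : W.index = 2) : ∃ σ, σ ∉ W := by
  by_contra h
  push Not at h
  have : W = ⊤ := (Subgroup.eq_top_iff' _).2 h
  rw [this, Subgroup.index_top] at hW2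
  norm_num at hW2

/-- the quadratic extension generated by the square root of an element of valuation one at `v`
is ramified at `v`: there is an inertia element which moves the square root -/
theorem inertia_of_odd [NumberField K] (W : Subgroup (GK K)) (hWo : IsOpen (W : Set (GK K)))
    (hW2 : W.index = 2) (y : Zb K) (a : 𝓞 K) (hy : y ^ 2 = algebraMap (𝓞 K) (Zb K) a)
    (hy1 : ∀ g ∈ W, g • y = y) (hy2 : ∀ g, g ∉ W → g • y = -y)
    (P : Ideal (Zb K)) [hP : P.IsPrime]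
    (ha : a ∈ P.comap (algebraMap (𝓞 K) (Zb K)))
    (ha2 : a ∉ (P.comap (algebraMap (𝓞 K) (Zb K))) ^ 2) :
    ∃ σ ∈ Ine P, σ ∉ W := by
  set v := P.comap (algebraMap (𝓞 K) (Zb K)) with hv
  have hvp : v.IsPrime := Ideal.comap_isPrime _ P
  obtain ⟨σ, hσ⟩ := exists_notMem_of_index_two W hW2
  have hn : W.Normal := Subgroup.normal_of_index_eq_two hW2
  have inj : Function.Injective (algebraMap (𝓞 K) (Zb K)) :=
    FaithfulSMul.algebraMap_injective _ _
  have key : ∀ x : Zb K, (∀ τ ∈ W, τ • x = x) → σ • x - x ∈ P := by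
    intro x hx
    obtain ⟨h1, h2, h3, h4⟩ := diff_props W hW2 σ hσ x hx
    set y1 := x - σ • x with hy1d
    have hf1 : ∀ τ ∈ W, τ • y1 = y1 := by
      intro τ hτ
      rw [hy1d, smul_sub, hx τ hτ, h1 τ hτ]
    have hf2 : ∀ τ, τ ∉ W → τ • y1 = -y1 := by
      intro τ hτ
      rw [hy1d, smul_sub, h3 τ hτ, h4 τ hτ]
      ring
    obtain ⟨c, hc⟩ := fixed_mem (y1 * y) (by
      intro g
      by_cases hg : g ∈ W
      · rw [smul_mul', hf1 g hg, hy1 g hg]
      · rw [smul_mul', hf2 g hg, hy2 g hg]; ring)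
    obtain ⟨b, hb⟩ := fixed_mem (y1 ^ 2) (by
      intro g
      by_cases hg : g ∈ W
      · rw [smul_pow', hf1 g hg]
      · rw [smul_pow', hf2 g hg]; ring)
    have h5 : c ^ 2 = b * a := by
      apply inj
      rw [map_pow, map_mul, hc, hb, ← hy]
      ring
    have h6 : c ∈ v := hvp.mem_of_pow_mem 2 (by rw [h5]; exact v.mul_mem_left b ha)
    have h7 : b * a ∈ v ^ 2 := by
      rw [← h5]
      exact Ideal.pow_mem_pow h6 2
    have h8 : b ∈ v := by
      by_cases hv0 : v = ⊥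
      · exfalso
        rw [hv0, Ideal.mem_bot] at ha
        exact ha2 (ha ▸ Ideal.zero_mem _)
      rcases Ideal.IsPrime.mul_mem_pow v h7 with h | h
      · exact h
      · exact absurd h ha2
    have h9 : y1 ^ 2 ∈ P := by
      rw [← hb]
      exact h8
    have h10 : y1 ∈ P := hP.mem_of_pow_mem 2 h9
    have : σ • x - x = -y1 := by rw [hy1d]; ring
    rw [this]
    exact P.neg_mem h10
  obtain ⟨τ, hτ, hτP⟩ := trans_W W hWo P (σ • P) (by
    intro x hx
    obtain ⟨h1, h2, h3, h4⟩ := diff_props W hW2 σ hσ x hx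
    have h5 : σ⁻¹ • x = σ • x := by
      rw [inv_smul_eq_iff]; exact h2.symm
    have h6 : x ∈ σ • P ↔ σ • x ∈ P := by
      rw [← h5]
      nth_rewrite 1 [← smul_inv_smul σ x]
      exact Ideal.smul_mem_pointwise_smul_iff
    rw [h6]
    have h7 := key x hx
    constructor
    · intro h
      have : σ • x = (σ • x - x) + x := by ring
      rw [this]; exact P.add_mem h7 h
    · intro h
      have : x = σ • x - (σ • x - x) := by ring
      rw [this]; exact P.sub_mem h h7)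
  set σ' := τ⁻¹ * σ with hσ'
  have hσ'W : σ' ∉ W := by
    rw [hσ', Subgroup.mul_mem_iff_of_index_two hW2]
    intro h
    exact hσ (h.1 (W.inv_mem hτ))
  have hσ'P : σ' • P = P := by
    rw [hσ', mul_smul, hτP, inv_smul_smul]
  obtain ⟨τ', hτ', hτ'P, hres⟩ := resid_W W hWo P σ' hσ'P (by
    intro x hx
    obtain ⟨h1, h2, h3, h4⟩ := diff_props W hW2 σ hσ x hx
    rw [hσ', mul_smul, h1 _ (W.inv_mem hτ)]
    exact key x hx)
  refine ⟨τ'⁻¹ * σ', ?_, ?_⟩
  · intro x
    have h1 : (τ'⁻¹ * σ') • x - x = τ'⁻¹ • (σ' • x - τ' • x) := by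
      rw [smul_sub, inv_smul_smul, mul_smul]
    change (τ'⁻¹ * σ') • x - x ∈ P
    rw [h1]
    have h2 : τ'⁻¹ • P = P := by
      rw [inv_smul_eq_iff]; exact hτ'P.symm
    have h3 : σ' • x - τ' • x ∈ P := by
      have := P.neg_mem (hres x)
      rwa [neg_sub] at this
    have h4 : τ'⁻¹ • (σ' • x - τ' • x) ∈ τ'⁻¹ • P :=
      Ideal.smul_mem_pointwise_smul_iff.2 h3
    rwa [h2] at h4
  · rw [Subgroup.mul_mem_iff_of_index_two hW2]
    intro h
    exact hσ'W (h.1 (W.inv_mem hτ'))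

/-- a quadratic extension in which a prime splits is generated by a root of `X² - t X + n` with
`t` a unit and `n` in the prime -/
theorem split_of_dec [NumberField K] (W : Subgroup (GK K)) (hWo : IsOpen (W : Set (GK K)))
    (hW2 : W.index = 2) (P : Ideal (Zb K)) [hP : P.IsPrime] (hD : Dec P ≤ W) :
    ∃ (t n : 𝓞 K) (y : Zb K), t ∉ P.comap (algebraMap (𝓞 K) (Zb K)) ∧
      n ∈ P.comap (algebraMap (𝓞 K) (Zb K)) ∧
      y ^ 2 = algebraMap (𝓞 K) (Zb K) (t ^ 2 - 4 * n) ∧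
      (∀ g ∈ W, g • y = y) ∧ (∀ g, g ∉ W → g • y = -y) := by
  obtain ⟨σ, hσ⟩ := exists_notMem_of_index_two W hW2
  have hn : W.Normal := Subgroup.normal_of_index_eq_two hW2
  obtain ⟨x, hx, hxP, hσxP⟩ : ∃ x : Zb K, (∀ τ ∈ W, τ • x = x) ∧ x ∈ P ∧ σ • x ∉ P := by
    by_contra hcon
    push Not at hcon
    obtain ⟨τ, hτ, hτP⟩ := trans_W W hWo P (σ • P) (by
      intro x hx
      obtain ⟨h1, h2, h3, h4⟩ := diff_props W hW2 σ hσ x hx
      have h5 : σ⁻¹ • x = σ • x := by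
        rw [inv_smul_eq_iff]; exact h2.symm
      have h6 : x ∈ σ • P ↔ σ • x ∈ P := by
        rw [← h5]
        nth_rewrite 1 [← smul_inv_smul σ x]
        exact Ideal.smul_mem_pointwise_smul_iff
      rw [h6]
      constructor
      · exact hcon x hx
      · intro h
        have := hcon (σ • x) h1 h
        rwa [h2] at this)
    have h1 : τ⁻¹ * σ ∈ Dec P := by
      change (τ⁻¹ * σ) • P = P
      rw [mul_smul, hτP, inv_smul_smul]
    have h2 := hD h1
    rw [Subgroup.mul_mem_iff_of_index_two hW2] at h2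
    exact hσ (h2.1 (W.inv_mem hτ))
  obtain ⟨h1, h2, h3, h4⟩ := diff_props W hW2 σ hσ x hx
  obtain ⟨t, ht⟩ := fixed_mem (x + σ • x) (by
    intro g
    by_cases hg : g ∈ W
    · rw [smul_add, hx g hg, h1 g hg]
    · rw [smul_add, h3 g hg, h4 g hg]; ring)
  obtain ⟨n, hn'⟩ := fixed_mem (x * (σ • x)) (by
    intro g
    by_cases hg : g ∈ W
    · rw [smul_mul', hx g hg, h1 g hg]
    · rw [smul_mul', h3 g hg, h4 g hg]; ring)
  refine ⟨t, n, x - σ • x, ?_, ?_, ?_, ?_, ?_⟩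
  · intro h
    have h5 : algebraMap (𝓞 K) (Zb K) t ∈ P := h
    rw [ht] at h5
    apply hσxP
    have : σ • x = (x + σ • x) - x := by ring
    rw [this]
    exact P.sub_mem h5 hxP
  · change algebraMap (𝓞 K) (Zb K) n ∈ P
    rw [hn']
    exact P.mul_mem_right _ hxP
  · rw [map_sub, map_pow, map_mul, ht, hn', map_ofNat]
    ring
  · intro g hg
    rw [smul_sub, hx g hg, h1 g hg]
  · intro g hg
    rw [smul_sub, h3 g hg, h4 g hg]
    ring

end Pool.BDP
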