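import Pool.Agent.BDP.Two
import Pool.Agent.BDP.Ram

set_option autoImplicit false
set_option linter.unusedSectionVars false
set_option linter.unusedVariables false

/-!
# No quadratic extension of `ℚ(√-ℓ)` unramified outside 2 in which a prime above 2 splits
-/

namespace Pool.BDP

open scoped NumberField Pointwise
open UniqueFactorizationMonoid

variable {K : Type} [Field K] [NumberField K]

theorem lying_over (v : Ideal (𝓞 K)) [v.IsPrime] :
    ∃ P : Ideal (Zb K), P.IsPrime ∧ P.comap (algebraMap (𝓞 K) (Zb K)) = v := by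
  have hint : Algebra.IsIntegral (𝓞 K) (Zb K) := by
    refine ⟨fun x => ?_⟩
    exact (NumberField.RingOfIntegers.isIntegral x).tower_top
  obtain ⟨Q, _, h1, h2⟩ := Ideal.exists_ideal_over_prime_of_isIntegral (S := Zb K) v ⊥
    (by rw [← RingHom.ker_eq_comap_bot,
      (RingHom.injective_iff_ker_eq_bot _).1 (FaithfulSMul.algebraMap_injective (𝓞 K) (Zb K))]
        exact bot_le)
  exact ⟨Q, h1, h2⟩

/-- at primes not above 2 the valuation of the generator is even -/
theorem even_count (W : Subgroup (GK K)) (hWo : IsOpen (W : Set (GK K))) (hW2 : W.index = 2)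
    (hI : ∀ P : Ideal (Zb K), Away P → Ine P ≤ W) (y : Zb K) (α : 𝓞 K) (hα : α ≠ 0)
    (hy : y ^ 2 = algebraMap (𝓞 K) (Zb K) α)
    (hy1 : ∀ g ∈ W, g • y = y) (hy2 : ∀ g, g ∉ W → g • y = -y)
    (v : Ideal (𝓞 K)) [hv : v.IsPrime] (hv0 : v ≠ ⊥) (h2v : (2 : 𝓞 K) ∉ v) :
    Even ((normalizedFactors (Ideal.span {α})).count v) := by
  classical
  obtain ⟨ϖ, hϖ1, hϖ2⟩ := ded_unif v hv0
  obtain ⟨k, u, s, ⟨hu, hs, hus⟩, hk1, hk2⟩ := ded_local v hv0 ϖ hϖ1 hϖ2 α hα
  have hcount : (normalizedFactors (Ideal.span {α})).count v = k := by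
    apply Ideal.count_normalizedFactors_eq
    · rw [Ideal.span_singleton_le_iff_mem]; exact hk1
    · rw [Ideal.span_singleton_le_iff_mem]; exact hk2
  rw [hcount]
  by_contra hodd
  rw [Nat.not_even_iff_odd] at hodd
  obtain ⟨j, hj⟩ := hodd
  have hϖ0 : ϖ ≠ 0 := fun h => hϖ2 (h ▸ Ideal.zero_mem _)
  let e : 𝓞 K →+* Zb K := algebraMap (𝓞 K) (Zb K)
  let c : 𝓞 K → AlgebraicClosure K := fun x => ((e x : Zb K) : AlgebraicClosure K)
  have hcfix : ∀ (g : GK K) (x : 𝓞 K), g • c x = c x := fun g x => g.commutes (x : K)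
  have hcmul : ∀ a b, c (a * b) = c a * c b := fun a b => by simp [c]
  have hcpow : ∀ a (n : ℕ), c (a ^ n) = c a ^ n := fun a n => by simp [c]
  have hc0 : ∀ a, a ≠ 0 → c a ≠ 0 := by
    intro a ha h
    apply ha
    have h1 : e a = 0 := by
      apply NumberField.RingOfIntegers.ext
      simpa [c] using h
    exact (map_eq_zero_iff e (FaithfulSMul.algebraMap_injective (𝓞 K) (Zb K))).1 h1
  have hϖc := hc0 ϖ hϖ0
  set a : 𝓞 K := u * s * ϖ with ha
  set Y : AlgebraicClosure K := (y : AlgebraicClosure K) * c s / c ϖ ^ j with hY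
  have hyc : (y : AlgebraicClosure K) ^ 2 = c α := by
    have := congrArg (fun x : Zb K => (x : AlgebraicClosure K)) hy
    simpa using this
  have hY2 : Y ^ 2 = c a := by
    have h1 : c α * c s = c u * c ϖ ^ k := by rw [← hcmul, hus, hcmul, hcpow]
    have h2 : Y ^ 2 = (y : AlgebraicClosure K) ^ 2 * c s * c s / c ϖ ^ (2 * j) := by
      rw [hY, div_pow, mul_pow, ← pow_mul, mul_comm j 2]
      ring
    rw [h2, hyc, h1, ha, hcmul, hcmul, hj, pow_succ]
    field_simp
  have hYint : IsIntegral ℤ Y := by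
    refine IsIntegral.of_pow (n := 2) (by norm_num) ?_
    rw [hY2]
    exact (e a).2
  let Yz : Zb K := ⟨Y, hYint⟩
  have hYz : Yz ^ 2 = algebraMap (𝓞 K) (Zb K) a := by
    apply NumberField.RingOfIntegers.ext
    exact hY2
  have hY1 : ∀ g ∈ W, g • Yz = Yz := by
    intro g hg
    apply NumberField.RingOfIntegers.ext
    change g • Y = Y
    have h1 : g • (y : AlgebraicClosure K) = y :=
      congrArg (fun x : Zb K => (x : AlgebraicClosure K)) (hy1 g hg)
    rw [hY, smul_div₀', smul_mul', smul_pow', h1, hcfix, hcfix]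
  have hY2' : ∀ g, g ∉ W → g • Yz = -Yz := by
    intro g hg
    apply NumberField.RingOfIntegers.ext
    change g • Y = -Y
    have h1 : g • (y : AlgebraicClosure K) = -y :=
      congrArg (fun x : Zb K => (x : AlgebraicClosure K)) (hy2 g hg)
    rw [hY, smul_div₀', smul_mul', smul_pow', h1, hcfix, hcfix]
    ring
  obtain ⟨P, hPp, hPv⟩ := lying_over v
  have hus' : u * s ∉ v := fun h => (hv.mem_or_mem h).elim hu hs
  obtain ⟨σ, hσ, hσW⟩ := inertia_of_odd W hWo hW2 Yz a hYz hY1 hY2' P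
    (by rw [hPv]; exact v.mul_mem_left _ hϖ1)
    (by
      rw [hPv]
      intro h
      rcases Ideal.IsPrime.mul_mem_pow v h with h3 | h3
      · exact hus' h3
      · exact hϖ2 h3)
  refine hσW (hI P ⟨hPp, ?_, ?_⟩ hσ)
  · rintro rfl
    apply hv0
    rw [← hPv, ← RingHom.ker_eq_comap_bot]
    exact (RingHom.injective_iff_ker_eq_bot _).1 (FaithfulSMul.algebraMap_injective (𝓞 K) (Zb K))
  · intro h
    apply h2v
    rw [← hPv, Ideal.mem_comap, map_ofNat]
    exact h

theorem noQuad_of_data {ℓ : ℕ} (D : QData (𝓞 K) ℓ) (hℓ : ℓ.Prime) (h16' : ℓ % 16 = 7)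
    (q : Ideal (𝓞 K)) (hqp : q.IsPrime) (h2 : (2 : 𝓞 K) ∈ q) : NoQuad q := by
  classical
  have h16 : ℓ % 8 = 7 := by omega
  intro W hWo hW2 hI P hP hD
  have hPp := hP.1
  obtain ⟨t, n, y, ht, hn, hy, hy1, hy2⟩ := split_of_dec W hWo hW2 P hD
  rw [hP.2] at ht hn
  set α : 𝓞 K := t ^ 2 - 4 * n with hα
  have hαq : α ∉ q := by
    intro h
    apply ht
    apply hqp.mem_of_pow_mem 2
    have : t ^ 2 = α + 4 * n := by rw [hα]; ring
    rw [this]
    exact q.add_mem h (q.mul_mem_left _ hn)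
  have hα0 : α ≠ 0 := fun h => hαq (h ▸ q.zero_mem)
  have h4n : 4 * n ∈ q ^ 3 := by
    have : (4 : 𝓞 K) * n = 2 ^ 2 * n := by norm_num
    rw [this, pow_succ q 2]
    exact Ideal.mul_mem_mul (Ideal.pow_mem_pow h2 2) hn
  have hα1 : α - 1 ∈ q ^ 3 := by
    have : α - 1 = (t ^ 2 - 1) - 4 * n := by rw [hα]; ring
    rw [this]
    exact Ideal.sub_mem _ (D.unit_sq h16 q h2 t ht) h4n
  set p := D.cj q with hp
  have hpp : p.IsPrime := D.cj_prime q
  have h2p : (2 : 𝓞 K) ∈ p := D.two_mem_cj h16 q h2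
  have hp0 : p ≠ ⊥ := by
    intro h
    rw [h, Ideal.mem_bot] at h2p
    norm_num at h2p
  have hqm := D.isMax h16 q h2
  have hpm := D.isMax h16 p h2p
  -- the ideal of `α`
  have hev : ∀ v : Ideal (𝓞 K), v.IsPrime → v ≠ ⊥ → v ≠ p →
      Even ((normalizedFactors (Ideal.span {α})).count v) := by
    intro v hv hv0 hvp
    by_cases h2v : (2 : 𝓞 K) ∈ v
    · have hle : q * p ≤ v := by
        rw [hp, D.mul_cj h16 q h2, Ideal.span_singleton_le_iff_mem]
        exact h2v
      have hvq : v = q := by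
        rcases hv.mul_le.1 hle with h | h
        · exact (hqm.eq_of_le hv.ne_top h).symm
        · exact absurd (hpm.eq_of_le hv.ne_top h).symm hvp
      have hc : (normalizedFactors (Ideal.span {α})).count v = 0 := by
        apply Ideal.count_normalizedFactors_eq
        · rw [pow_zero, Ideal.one_eq_top]; exact le_top
        · rw [zero_add, pow_one, Ideal.span_singleton_le_iff_mem, hvq]; exact hαq
      rw [hc]
      exact Even.zero
    · exact even_count W hWo hW2 hI y α hα0 hy hy1 hy2 v hv0 h2v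
  obtain ⟨i, b, hib⟩ : ∃ (i : ℕ) (b : Ideal (𝓞 K)), Ideal.span {α} = p ^ i * b ^ 2 := by
    set J := Ideal.span {α} with hJ
    have hJ0 : J ≠ 0 := by
      rw [hJ]
      intro h
      exact hα0 (Ideal.span_singleton_eq_bot.1 h)
    set S := normalizedFactors J with hS
    have hprod : S.prod = J := by
      have := prod_normalizedFactors hJ0
      exact associated_iff_eq.1 this
    refine ⟨S.count p, ∏ v ∈ S.toFinset.erase p, v ^ (S.count v / 2), ?_⟩
    rw [← hprod, Finset.prod_multiset_count]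
    have h1 : ∏ m ∈ S.toFinset, m ^ S.count m =
        p ^ S.count p * ∏ m ∈ S.toFinset.erase p, m ^ S.count m := by
      by_cases hps : p ∈ S.toFinset
      · rw [← Finset.mul_prod_erase _ _ hps]
      · rw [Finset.erase_eq_of_notMem hps]
        have : S.count p = 0 := Multiset.count_eq_zero.2 (fun h => hps (Multiset.mem_toFinset.2 h))
        rw [this, pow_zero, one_mul]
    rw [h1, ← Finset.prod_pow]
    congr 1
    apply Finset.prod_congr rfl
    intro v hv
    rw [Finset.mem_erase, Multiset.mem_toFinset] at hv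
    have hvpr : Prime v := prime_of_normalized_factor v hv.2
    have h3 := hev v (Ideal.isPrime_of_prime hvpr) hvpr.ne_zero hv.1
    obtain ⟨m, hm⟩ := h3
    rw [← pow_mul]
    congr 1
    omega
  obtain ⟨h, hodd, hprin⟩ := D.odd_pow hℓ p hp0
  obtain ⟨π, hπ⟩ := hprin
  have hπ' : p ^ h = Ideal.span {π} := hπ
  have hb0 : b ≠ 0 := by
    rintro rfl
    rw [zero_pow (by norm_num), mul_zero] at hib
    exact hα0 (Ideal.span_singleton_eq_bot.1 hib)
  have hh : h ≠ 0 := by rintro rfl; exact absurd hodd (by decide)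
  have hne : p ≠ q := fun h => D.cj_ne h16 q h2 h
  have hπq : π ∉ q := by
    intro h3
    have h4 : p ^ h ≤ q := by rw [hπ', Ideal.span_singleton_le_iff_mem]; exact h3
    exact hne (hpm.eq_of_le hqp.ne_top (hqp.le_of_pow_le h4))
  have hπ0 : π ≠ 0 := fun h => hπq (h ▸ q.zero_mem)
  have hunits : ∀ a b : 𝓞 K, Ideal.span {a} = Ideal.span {b} → a = b ∨ a = -b := by
    intro a b hab
    rw [Ideal.span_singleton_eq_span_singleton] at hab
    obtain ⟨u, hu⟩ := hab
    have := D.units (by have := hℓ.two_le; omega) (u : 𝓞 K) ((u⁻¹ : (𝓞 K)ˣ) : 𝓞 K) (by simp)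
    rcases this with h1 | h1
    · left; rw [← hu, h1, mul_one]
    · right; rw [← hu, h1]; ring
  rcases Nat.even_or_odd i with hi | hi
  · -- `i` even: `α = ± γ²`
    obtain ⟨m, hm⟩ := hi
    have hc2 : (p ^ m * b) ^ 2 = Ideal.span {α} := by
      rw [hib, hm, mul_pow, ← pow_mul]
      congr 2
      ring
    obtain ⟨γ, hγ⟩ := D.cg hℓ _ α hα0 hc2
    have hγ' : p ^ m * b = Ideal.span {γ} := hγ
    rw [hγ', Ideal.span_singleton_pow] at hc2
    rcases hunits _ _ hc2.symm with h3 | h3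
    · -- `α = γ²`: then `y = ±γ` is fixed by everything
      obtain ⟨g, hg⟩ := exists_notMem_of_index_two W hW2
      have h5 : (y - algebraMap (𝓞 K) (Zb K) γ) * (y + algebraMap (𝓞 K) (Zb K) γ) = 0 := by
        have : (y - algebraMap (𝓞 K) (Zb K) γ) * (y + algebraMap (𝓞 K) (Zb K) γ) =
          y ^ 2 - algebraMap (𝓞 K) (Zb K) γ ^ 2 := by ring
        rw [this, hy, h3, map_pow, sub_self]
      have hgγ : g • algebraMap (𝓞 K) (Zb K) γ = algebraMap (𝓞 K) (Zb K) γ := by
        apply NumberField.RingOfIntegers.ext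
        exact g.commutes (γ : K)
      have hgy : g • y = y := by
        rcases mul_eq_zero.1 h5 with h6 | h6
        · have : y = algebraMap (𝓞 K) (Zb K) γ := sub_eq_zero.1 h6
          rw [this, hgγ]
        · have : y = -algebraMap (𝓞 K) (Zb K) γ := eq_neg_of_add_eq_zero_left h6
          rw [this, smul_neg, hgγ]
      have h7 := hy2 g hg
      rw [hgy] at h7
      have h8 : (2 : Zb K) * y = 0 := by linear_combination h7
      have h9 : y = 0 := by
        rcases mul_eq_zero.1 h8 with h10 | h10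
        · norm_num at h10
        · exact h10
      rw [h9, zero_pow (by norm_num)] at hy
      exact hα0 ((map_eq_zero_iff _ (FaithfulSMul.algebraMap_injective (𝓞 K) (Zb K))).1 hy.symm)
    · -- `α = -γ²`
      have hγq : γ ∉ q := by
        intro h4
        apply hαq
        rw [h3]
        exact q.neg_mem (q.pow_mem_of_mem h4 2 (by norm_num))
      have h4 := D.unit_sq h16 q h2 γ hγq
      have h5 : ((2 : ℤ) : 𝓞 K) ∈ q ^ 3 := by
        have : ((2 : ℤ) : 𝓞 K) = -(α - 1) - (γ ^ 2 - 1) := by rw [h3]; push_cast; ring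
        rw [this]
        exact Ideal.sub_mem _ ((Ideal.neg_mem_iff _).2 hα1) h4
      have h6 := D.int8 h16 q h2 2 h5
      omega
  · -- `i` odd: `α π = ± γ²`
    obtain ⟨m, hm⟩ : ∃ m, i + h = 2 * m := by
      obtain ⟨m, hm⟩ := hi.add_odd hodd
      exact ⟨m, by omega⟩
    have hc2 : (p ^ m * b) ^ 2 = Ideal.span {α * π} := by
      rw [← Ideal.span_singleton_mul_span_singleton, hib, ← hπ', mul_pow, ← pow_mul,
        mul_comm m 2, ← hm, pow_add]
      ring
    have hαπ0 : α * π ≠ 0 := mul_ne_zero hα0 hπ0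
    obtain ⟨γ, hγ⟩ := D.cg hℓ _ (α * π) hαπ0 hc2
    have hγ' : p ^ m * b = Ideal.span {γ} := hγ
    rw [hγ', Ideal.span_singleton_pow] at hc2
    have hγq : γ ∉ q := by
      intro h4
      have h5 : α * π ∈ q := by
        rcases hunits _ _ hc2.symm with h3 | h3
        · rw [h3]; exact q.pow_mem_of_mem h4 2 (by norm_num)
        · rw [h3]; exact q.neg_mem (q.pow_mem_of_mem h4 2 (by norm_num))
      exact (hqp.mem_or_mem h5).elim hαq hπq
    have h4 := D.unit_sq h16 q h2 γ hγq
    rcases hunits _ _ hc2.symm with h3 | h3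
    · apply D.pi_lemma h16 q h2 h16' hℓ h hodd π hπ' 1 (Or.inl rfl)
      have : π - ((1 : ℤ) : 𝓞 K) = (γ ^ 2 - 1) - (α - 1) * π := by
        rw [← h3]; push_cast; ring
      rw [this]
      exact Ideal.sub_mem _ h4 (Ideal.mul_mem_right _ _ hα1)
    · apply D.pi_lemma h16 q h2 h16' hℓ h hodd π hπ' (-1) (Or.inr rfl)
      have : π - ((-1 : ℤ) : 𝓞 K) = -(γ ^ 2 - 1) - (α - 1) * π := by
        have h5 : γ ^ 2 = -(α * π) := by rw [h3]; ring
        rw [h5]; push_cast; ring
      rw [this]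
      exact Ideal.sub_mem _ ((Ideal.neg_mem_iff _).2 h4) (Ideal.mul_mem_right _ _ hα1)

end Pool.BDP
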