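import Pool.Agent.BDP.Fld

set_option autoImplicit false
set_option linter.unusedSectionVars false
set_option linter.unusedVariables false

/-!
# The second family: `ℚ(√-l₁l₂)` with `l₁ ≡ 3`, `l₂ ≡ 5` modulo 8
-/

namespace Pool.BDP

open scoped NumberField Pointwise
open UniqueFactorizationMonoid

variable {K : Type} [Field K] [NumberField K]

theorem setup {ℓ : ℕ} (D : QData (𝓞 K) ℓ) (h16 : ℓ % 8 = 7)
    (q : Ideal (𝓞 K)) [hqp : q.IsPrime] (h2 : (2 : 𝓞 K) ∈ q) (W : Subgroup (GK K))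
    (hWo : IsOpen (W : Set (GK K))) (hW2 : W.index = 2)
    (hI : ∀ P : Ideal (Zb K), Away P → Ine P ≤ W) (P : Ideal (Zb K)) (hP : Above q P)
    (hD : Dec P ≤ W) :
    ∃ (α : 𝓞 K) (y : Zb K), α ∉ q ∧ α - 1 ∈ q ^ 3 ∧ y ^ 2 = algebraMap (𝓞 K) (Zb K) α ∧
      (∀ g ∈ W, g • y = y) ∧ (∀ g, g ∉ W → g • y = -y) ∧
      ∀ v : Ideal (𝓞 K), v.IsPrime → v ≠ ⊥ → v ≠ D.cj q →
        Even ((normalizedFactors (Ideal.span {α})).count v) := by
  classical
  have hPp := hP.1
  obtain ⟨t, n, y, ht, hn, hy, hy1, hy2⟩ := split_of_dec W hWo hW2 P hD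
  rw [hP.2] at ht hn
  set α : 𝓞 K := t ^ 2 - 4 * n with hα
  have hαq : α ∉ q := by
    intro h
    apply ht
    apply hqp.mem_of_pow_mem 2
    have : t ^ 2 = α + 4 * n := by rw [hα]; ring
    rw [this]
    exact q.add_mem h (q.mul_mem_left _ hn)
  have hα0 : α ≠ 0 := fun h => hαq (h ▸ q.zero_mem)
  have h4n : 4 * n ∈ q ^ 3 := by
    have : (4 : 𝓞 K) * n = 2 ^ 2 * n := by norm_num
    rw [this, pow_succ q 2]
    exact Ideal.mul_mem_mul (Ideal.pow_mem_pow h2 2) hn
  have hα1 : α - 1 ∈ q ^ 3 := by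
    have : α - 1 = (t ^ 2 - 1) - 4 * n := by rw [hα]; ring
    rw [this]
    exact Ideal.sub_mem _ (D.unit_sq h16 q h2 t ht) h4n
  refine ⟨α, y, hαq, hα1, hy, hy1, hy2, ?_⟩
  set p := D.cj q with hp
  have hpp : p.IsPrime := D.cj_prime q
  have h2p : (2 : 𝓞 K) ∈ p := D.two_mem_cj h16 q h2
  have hqm := D.isMax h16 q h2
  have hpm := D.isMax h16 p h2p
  intro v hv hv0 hvp
  by_cases h2v : (2 : 𝓞 K) ∈ v
  · have hle : q * p ≤ v := by
      rw [hp, D.mul_cj h16 q h2, Ideal.span_singleton_le_iff_mem]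
      exact h2v
    have hvq : v = q := by
      rcases hv.mul_le.1 hle with h | h
      · exact (hqm.eq_of_le hv.ne_top h).symm
      · exact absurd (hpm.eq_of_le hv.ne_top h).symm hvp
    have hc : (normalizedFactors (Ideal.span {α})).count v = 0 := by
      apply Ideal.count_normalizedFactors_eq
      · rw [pow_zero, Ideal.one_eq_top]; exact le_top
      · rw [zero_add, pow_one, Ideal.span_singleton_le_iff_mem, hvq]; exact hαq
    rw [hc]
    exact Even.zero
  · exact even_count W hWo hW2 hI y α hα0 hy hy1 hy2 v hv0 h2v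

/-- an ideal all of whose multiplicities away from `p` are even -/
theorem decomp {R : Type} [CommRing R] [IsDedekindDomain R] (p : Ideal R) (J : Ideal R)
    (hJ0 : J ≠ 0)
    (hev : ∀ v : Ideal R, v.IsPrime → v ≠ ⊥ → v ≠ p → Even ((normalizedFactors J).count v)) :
    ∃ b : Ideal R, J = p ^ (normalizedFactors J).count p * b ^ 2 := by
  classical
  set S := normalizedFactors J with hS
  have hprod : S.prod = J := by
    have := prod_normalizedFactors hJ0
    exact associated_iff_eq.1 this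
  refine ⟨∏ v ∈ S.toFinset.erase p, v ^ (S.count v / 2), ?_⟩
  conv_lhs => rw [← hprod, Finset.prod_multiset_count]
  have h1 : ∏ m ∈ S.toFinset, m ^ S.count m =
      p ^ S.count p * ∏ m ∈ S.toFinset.erase p, m ^ S.count m := by
    by_cases hps : p ∈ S.toFinset
    · rw [← Finset.mul_prod_erase _ _ hps]
    · rw [Finset.erase_eq_of_notMem hps]
      have : S.count p = 0 := Multiset.count_eq_zero.2 (fun h => hps (Multiset.mem_toFinset.2 h))
      rw [this, pow_zero, one_mul]
  rw [h1, ← Finset.prod_pow]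
  congr 1
  apply Finset.prod_congr rfl
  intro v hv
  rw [Finset.mem_erase, Multiset.mem_toFinset] at hv
  have hvpr : Prime v := prime_of_normalized_factor v hv.2
  obtain ⟨m, hm⟩ := hev v (Ideal.isPrime_of_prime hvpr) hvpr.ne_zero hv.1
  rw [← pow_mul]
  congr 1
  omega

/-- a square root in `K` contradicts the sign change -/
theorem no_sqrt (W : Subgroup (GK K)) (hW2 : W.index = 2) (α : 𝓞 K) (hα0 : α ≠ 0) (y : Zb K)
    (hy : y ^ 2 = algebraMap (𝓞 K) (Zb K) α) (hy2 : ∀ g, g ∉ W → g • y = -y)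
    (κ γ : 𝓞 K) (hκ : κ ≠ 0) (h : α * κ ^ 2 = γ ^ 2) : False := by
  obtain ⟨g, hg⟩ := exists_notMem_of_index_two W hW2
  have inj := FaithfulSMul.algebraMap_injective (𝓞 K) (Zb K)
  have hfix : ∀ x : 𝓞 K, g • algebraMap (𝓞 K) (Zb K) x = algebraMap (𝓞 K) (Zb K) x := by
    intro x
    apply NumberField.RingOfIntegers.ext
    exact g.commutes (x : K)
  set Y := y * algebraMap (𝓞 K) (Zb K) κ with hY
  have h1 : (Y - algebraMap (𝓞 K) (Zb K) γ) * (Y + algebraMap (𝓞 K) (Zb K) γ) = 0 := by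
    have h3 : Y ^ 2 = algebraMap (𝓞 K) (Zb K) γ ^ 2 := by
      rw [hY, mul_pow, hy, ← map_pow, ← map_mul, h, map_pow]
    linear_combination h3
  have hgY : g • Y = Y := by
    rcases mul_eq_zero.1 h1 with h6 | h6
    · have : Y = algebraMap (𝓞 K) (Zb K) γ := sub_eq_zero.1 h6
      rw [this, hfix]
    · have : Y = -algebraMap (𝓞 K) (Zb K) γ := eq_neg_of_add_eq_zero_left h6
      rw [this, smul_neg, hfix]
  have h7 : g • Y = -Y := by rw [hY, smul_mul', hy2 g hg, hfix]; ring
  rw [hgY] at h7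
  have h8 : (2 : Zb K) * Y = 0 := by linear_combination h7
  have h9 : Y = 0 := by
    rcases mul_eq_zero.1 h8 with h10 | h10
    · norm_num at h10
    · exact h10
  rw [hY, mul_eq_zero] at h9
  rcases h9 with h9 | h9
  · rw [h9, zero_pow (by norm_num)] at hy
    exact hα0 ((map_eq_zero_iff _ inj).1 hy.symm)
  · exact hκ ((map_eq_zero_iff _ inj).1 h9)

theorem noQuad_of_data2 {d : ℕ} (D : QData (𝓞 K) d) (l1 l2 : ℕ) (hd : d = l1 * l2)
    (hl1 : l1.Prime) (hl2 : l2.Prime) (h1m : l1 % 8 = 3) (h2m : l2 % 8 = 5)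
    (q : Ideal (𝓞 K)) (hqp : q.IsPrime) (h2 : (2 : 𝓞 K) ∈ q) : NoQuad q := by
  classical
  have h16 : d % 8 = 7 := by rw [hd, Nat.mul_mod, h1m, h2m]
  have hdpos : 0 < d := by omega
  intro W hWo hW2 hI P hP hD
  obtain ⟨α, y, hαq, hα1, hy, hy1, hy2, hev⟩ := setup D h16 q h2 W hWo hW2 hI P hP hD
  have hα0 : α ≠ 0 := fun h => hαq (h ▸ q.zero_mem)
  have hJ0 : Ideal.span {α} ≠ 0 := fun h => hα0 (Ideal.span_singleton_eq_bot.1 h)
  set p := D.cj q with hp
  have hpp : p.IsPrime := D.cj_prime q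
  have h2p : (2 : 𝓞 K) ∈ p := D.two_mem_cj h16 q h2
  obtain ⟨b, hib⟩ := decomp p _ hJ0 hev
  set i := (normalizedFactors (Ideal.span {α})).count p with hi
  rcases Nat.even_or_odd i with hie | hio
  · -- even case
    obtain ⟨m, hm⟩ := hie
    have hc2 : (p ^ m * b) ^ 2 = Ideal.span {α} := by
      rw [hib, hm, mul_pow, ← pow_mul]
      congr 2
      ring
    obtain ⟨n, hn, hαn⟩ := D.hsq _ α hα0 hc2
    obtain ⟨k, γ, hk0, hγ⟩ : ∃ (k : ℤ) (γ : 𝓞 K), k ≠ 0 ∧ α * k = γ ^ 2 := by
      by_cases hT : α + n = 0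
      · have hn' : α = -(n : 𝓞 K) := eq_neg_of_add_eq_zero_left hT
        exact ⟨-n, n, by omega, by rw [hn']; push_cast; ring⟩
      · obtain ⟨t, ht⟩ := D.trace_int α
        refine ⟨t + 2 * n, α + n, ?_, ?_⟩
        · intro h
          apply hT
          have h3 : (α + n) ^ 2 = α * ((t + 2 * n : ℤ) : 𝓞 K) := by
            push_cast
            rw [← ht]
            linear_combination -hαn
          rw [h, Int.cast_zero, mul_zero] at h3
          exact pow_eq_zero_iff (n := 2) (by norm_num) |>.1 h3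
        · push_cast
          rw [← ht]
          linear_combination hαn
    obtain ⟨a, f, hfa, ha⟩ := Nat.sq_mul_squarefree k.natAbs
    have hf0 : f ≠ 0 := by
      rintro rfl
      simp at hfa
      omega
    obtain ⟨g, hg, hga⟩ : ∃ g : ℤ, k = g * f ^ 2 ∧ g.natAbs = a := by
      rcases le_total 0 k with h | h
      · refine ⟨a, ?_, by simp⟩
        have : (k.natAbs : ℤ) = k := Int.natAbs_of_nonneg h
        rw [← this, ← hfa]; push_cast; ring
      · refine ⟨-a, ?_, by simp⟩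
        have : (k.natAbs : ℤ) = -k := Int.ofNat_natAbs_of_nonpos h
        have h3 : k = -(k.natAbs : ℤ) := by omega
        rw [h3, ← hfa]; push_cast; ring
    have hfR : ((f : ℕ) : 𝓞 K) ≠ 0 := by exact_mod_cast hf0
    obtain ⟨γ0, hγ0⟩ : ((f : ℕ) : 𝓞 K) ∣ γ := by
      rw [← Ideal.mem_span_singleton, ← Ideal.dvd_span_singleton,
        ← UniqueFactorizationMonoid.pow_dvd_pow_iff_dvd (n := 2) (by norm_num),
        Ideal.span_singleton_pow, Ideal.span_singleton_pow, ← hγ, hg, Ideal.dvd_span_singleton,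
        Ideal.mem_span_singleton]
      exact ⟨α * g, by push_cast; ring⟩
    have hαg : α * g = γ0 ^ 2 := by
      rw [hγ0, hg] at hγ
      push_cast at hγ
      have : ((f : ℕ) : 𝓞 K) ^ 2 ≠ 0 := pow_ne_zero _ hfR
      apply mul_left_cancel₀ this
      linear_combination hγ
    have hg0 : g ≠ 0 := by rintro rfl; rw [zero_mul] at hg; exact hk0 hg
    have hgR : (g : 𝓞 K) ≠ 0 := by exact_mod_cast hg0
    have hallev : ∀ v : Ideal (𝓞 K), v.IsPrime → v ≠ ⊥ →
        Even ((normalizedFactors (Ideal.span {α})).count v) := by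
      intro v hv hv0
      by_cases hvp : v = p
      · rw [hvp, ← hi, hm]; exact ⟨m, rfl⟩
      · exact hev v hv hv0 hvp
    -- primes dividing `g` divide `d`
    have hgd : ∀ r : ℕ, r.Prime → r ∣ a → r ∣ d := by
      intro r hr hra
      by_contra hrd
      have hnt : Ideal.span {((r : ℕ) : 𝓞 K)} ≠ ⊤ := by
        intro h
        rw [Ideal.span_singleton_eq_top] at h
        have h3 : (((r : ℤ)) : 𝓞 K) ∣ ((1 : ℤ) : 𝓞 K) := by
          have := h.dvd (a := (1 : 𝓞 K))
          simpa using this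
        have h4 := D.int_dvd hdpos _ _ h3
        have h5 : r ∣ 1 := by exact_mod_cast h4
        have := Nat.dvd_one.1 h5
        exact hr.one_lt.ne' this
      obtain ⟨v, hvm, hvr⟩ := Ideal.exists_le_maximal _ hnt
      have hvp : v.IsPrime := hvm.isPrime
      have hrv : ((r : ℕ) : 𝓞 K) ∈ v := hvr (Ideal.mem_span_singleton_self _)
      have hv0 : v ≠ ⊥ := by
        rintro rfl
        rw [Ideal.mem_bot] at hrv
        exact hr.ne_zero (by exact_mod_cast hrv)
      have hr2 := D.unram' v r hr hrd hrv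
      obtain ⟨a', ha'⟩ := hra
      have hra' : ¬ r ∣ a' := by
        rintro ⟨a'', rfl⟩
        have h3 : r * r ∣ a := ⟨a'', by rw [ha']; ring⟩
        have := ha r h3
        exact hr.one_lt.ne' (Nat.isUnit_iff.1 this)
      obtain ⟨g', hg'⟩ : ∃ g' : ℤ, g = r * g' ∧ g'.natAbs = a' := by
        rcases le_total 0 g with h | h
        · refine ⟨a', ?_, by simp⟩
          have : (g.natAbs : ℤ) = g := Int.natAbs_of_nonneg h
          rw [← this, hga, ha']; push_cast; ring
        · refine ⟨-a', ?_, by simp⟩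
          have : (g.natAbs : ℤ) = -g := Int.ofNat_natAbs_of_nonpos h
          have h3 : g = -(g.natAbs : ℤ) := by omega
          rw [h3, hga, ha']; push_cast; ring
      have hg'v : ((g' : ℤ) : 𝓞 K) ∉ v := by
        intro h
        have h3 := D.int_mem v hvp.ne_top r hr hrv g' h
        rw [← Int.dvd_natAbs, hg'.2] at h3
        exact hra' (by exact_mod_cast h3)
      have hcg : (normalizedFactors (Ideal.span {(g : 𝓞 K)})).count v = 1 := by
        apply Ideal.count_normalizedFactors_eq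
        · rw [pow_one, Ideal.span_singleton_le_iff_mem, hg'.1]
          push_cast
          exact v.mul_mem_right _ hrv
        · rw [Ideal.span_singleton_le_iff_mem, hg'.1]
          push_cast
          intro h
          rw [mul_comm] at h
          rcases Ideal.IsPrime.mul_mem_pow v h with h3 | h3
          · exact hg'v h3
          · exact hr2 h3
      have hadd : (normalizedFactors (Ideal.span {α})).count v + 1 =
          2 * (normalizedFactors (Ideal.span {γ0})).count v := by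
        rw [← hcg, ← Multiset.count_add, ← normalizedFactors_mul hJ0
          (fun h => hgR (Ideal.span_singleton_eq_bot.1 h)),
          Ideal.span_singleton_mul_span_singleton, hαg, ← Ideal.span_singleton_pow,
          normalizedFactors_pow, Multiset.count_nsmul]
      obtain ⟨j, hj⟩ := hallev v hvp hv0
      omega
    -- hence `a` divides `l1 * l2`
    have had : a ∣ l1 * l2 := by
      rw [← hd]
      rw [← Nat.prod_primeFactors_of_squarefree ha]
      refine Finset.prod_primes_dvd d (fun r hr => (Nat.prime_of_mem_primeFactors hr).prime)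
        (fun r hr => hgd r (Nat.prime_of_mem_primeFactors hr) (Nat.dvd_of_mem_primeFactors hr))
    have hamod : a = 1 ∨ a = l1 ∨ a = l2 ∨ a = l1 * l2 := by
      obtain ⟨u, v, hu, hv, huv⟩ := (Nat.dvd_mul.1 had)
      rcases (Nat.dvd_prime hl1).1 hu with rfl | rfl <;>
        rcases (Nat.dvd_prime hl2).1 hv with rfl | rfl
      · left; rw [← huv]
      · right; right; left; rw [← huv, one_mul]
      · right; left; rw [← huv, mul_one]
      · right; right; right; exact huv.symm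
    have haodd : a % 2 = 1 := by
      rcases hamod with h | h | h | h
      · omega
      · omega
      · omega
      · rw [h, ← hd]; omega
    have hgq : (g : 𝓞 K) ∉ q := by
      intro h
      have h3 := D.even_of_mem h16 q h2 g h
      omega
    have hγ0q : γ0 ∉ q := by
      intro h
      have : α * g ∈ q := by rw [hαg]; exact q.pow_mem_of_mem h 2 (by norm_num)
      exact (hqp.mem_or_mem this).elim hαq hgq
    have hg1 : ((g - 1 : ℤ) : 𝓞 K) ∈ q ^ 3 := by
      have : ((g - 1 : ℤ) : 𝓞 K) = (γ0 ^ 2 - 1) - (α - 1) * g := by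
        rw [← hαg]; push_cast; ring
      rw [this]
      exact Ideal.sub_mem _ (D.unit_sq h16 q h2 γ0 hγ0q) (Ideal.mul_mem_right _ _ hα1)
    have hg8 := D.int8 h16 q h2 _ hg1
    have hcase : g = 1 ∨ g = -(d : ℤ) := by
      rcases hamod with h | h | h | h
      · omega
      · omega
      · omega
      · rw [← hd] at h; omega
    rcases hcase with h | h
    · refine no_sqrt W hW2 α hα0 y hy hy2 1 γ0 one_ne_zero ?_
      rw [← hαg, h]; simp
    · have hr0 : D.r ≠ 0 := by
        intro h0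
        have := D.r_sq
        rw [h0] at this
        have h3 : ((d : ℕ) : 𝓞 K) = 0 := by simpa using this.symm
        exact hdpos.ne' (by exact_mod_cast h3)
      refine no_sqrt W hW2 α hα0 y hy hy2 D.r γ0 hr0 ?_
      rw [← hαg, h, D.r_sq]; push_cast; ring
  · -- odd case: the norm of `α` is twice a square
    have hq1 : D.nrm q ≠ 1 := fun h => hqp.ne_top (D.hnrm1 _ h)
    have hp1 : D.nrm p ≠ 1 := fun h => hpp.ne_top (D.hnrm1 _ h)
    have hn2 : D.nrm (Ideal.span {(2 : 𝓞 K)}) = 4 := by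
      have h3 := D.hnrm 2
      rw [map_ofNat] at h3
      have h4 : ((D.nrm (Ideal.span {(2 : 𝓞 K)}) : ℕ) : 𝓞 K) = ((4 : ℕ) : 𝓞 K) := by
        rw [h3]; norm_num
      exact_mod_cast h4
    have hpq : D.nrm q * D.nrm p = 4 := by
      rw [← map_mul, hp, D.mul_cj h16 q h2, hn2]
    have hnp : D.nrm p = 2 := by
      have hdv : D.nrm p ∣ 4 := ⟨D.nrm q, by rw [mul_comm]; exact hpq.symm⟩
      have hle : D.nrm p ≤ 4 := Nat.le_of_dvd (by norm_num) hdv
      interval_cases h5 : D.nrm p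
      · omega
      · exact absurd rfl hp1
      · rfl
      · omega
      · exfalso; exact hq1 (by omega)
    obtain ⟨j, hj⟩ := hio
    set m : ℕ := 2 ^ j * D.nrm b with hmdef
    obtain ⟨ν, hν, hνp⟩ := D.norm_pos α hα0
    have hν2 : ν = 2 * (m : ℤ) ^ 2 := by
      have h3 := D.hnrm α
      rw [hib, map_mul, map_pow, map_pow, hnp, hν] at h3
      have h4 : ((2 ^ i * D.nrm b ^ 2 : ℕ) : ℤ) = ν := by exact_mod_cast h3
      rw [← h4, hj, hmdef]
      push_cast
      ring
    -- the prime above `l2`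
    have hnt : Ideal.span {((l2 : ℕ) : 𝓞 K)} ≠ ⊤ := by
      intro h
      rw [Ideal.span_singleton_eq_top] at h
      have h3 : (((l2 : ℤ)) : 𝓞 K) ∣ ((1 : ℤ) : 𝓞 K) := by
        have := h.dvd (a := (1 : 𝓞 K))
        simpa using this
      have h4 := D.int_dvd hdpos _ _ h3
      have h5 : l2 ∣ 1 := by exact_mod_cast h4
      exact hl2.one_lt.ne' (Nat.dvd_one.1 h5)
    obtain ⟨v, hvm, hvr⟩ := Ideal.exists_le_maximal _ hnt
    have hvp : v.IsPrime := hvm.isPrime
    have hlv : ((l2 : ℕ) : 𝓞 K) ∈ v := hvr (Ideal.mem_span_singleton_self _)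
    have hlR : ((l2 : ℕ) : 𝓞 K) ≠ 0 := by exact_mod_cast hl2.ne_zero
    have hv0 : v ≠ ⊥ := by
      rintro rfl
      rw [Ideal.mem_bot] at hlv
      exact hlR hlv
    have h2v : (2 : 𝓞 K) ∉ v := by
      intro h
      have h3 := D.int_mem v hvp.ne_top l2 hl2 hlv 2 (by exact_mod_cast h)
      have h4 : l2 ∣ 2 := by exact_mod_cast h3
      have := Nat.le_of_dvd (by norm_num) h4
      have := hl2.two_le
      omega
    have hvne : v ≠ p := fun h => h2v (h ▸ h2p)
    have hrv : D.r ∈ v := by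
      apply hvp.mem_of_pow_mem 2
      rw [D.r_sq, hd]
      push_cast
      exact v.neg_mem (v.mul_mem_left _ hlv)
    have hl1v : ((l1 : ℕ) : 𝓞 K) ∉ v := by
      intro h
      have h3 := D.int_mem v hvp.ne_top l2 hl2 hlv l1 (by exact_mod_cast h)
      have h4 : l2 ∣ l1 := by exact_mod_cast h3
      have h5 := (Nat.prime_dvd_prime_iff_eq hl2 hl1).1 h4
      omega
    have hlv2 : ((l2 : ℕ) : 𝓞 K) ∈ v ^ 2 := by
      have h3 : ((l1 : ℕ) : 𝓞 K) * ((l2 : ℕ) : 𝓞 K) ∈ v ^ 2 := by
        have h4 : D.r ^ 2 ∈ v ^ 2 := Ideal.pow_mem_pow hrv 2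
        rw [D.r_sq, hd] at h4
        push_cast at h4
        exact (Ideal.neg_mem_iff _).1 h4
      rcases Ideal.IsPrime.mul_mem_pow v h3 with h | h
      · exact absurd h hl1v
      · exact h
    have hvl : v ^ 2 = Ideal.span {((l2 : ℕ) : 𝓞 K)} := by
      obtain ⟨J, hJ⟩ := Ideal.dvd_span_singleton.2 hlv2
      have hnl : D.nrm (Ideal.span {((l2 : ℕ) : 𝓞 K)}) = l2 ^ 2 := by
        have h3 := D.hnrm ((l2 : ℕ) : 𝓞 K)
        rw [map_natCast] at h3
        have h4 : ((D.nrm (Ideal.span {((l2 : ℕ) : 𝓞 K)}) : ℕ) : 𝓞 K) = ((l2 ^ 2 : ℕ) : 𝓞 K) := by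
          rw [h3]; push_cast; ring
        exact_mod_cast h4
      have h3 := congrArg D.nrm hJ
      rw [map_mul, map_pow, hnl] at h3
      have h4 : D.nrm v ∣ l2 := by
        have : D.nrm v ^ 2 ∣ l2 ^ 2 := ⟨D.nrm J, h3⟩
        exact (Nat.pow_dvd_pow_iff (by norm_num)).1 this
      have h5 : D.nrm v ≠ 1 := fun h => hvp.ne_top (D.hnrm1 _ h)
      have h6 : D.nrm v = l2 := ((Nat.dvd_prime hl2).1 h4).resolve_left h5
      rw [h6] at h3
      have h7 : D.nrm J = 1 := by
        have hl2pos : 0 < l2 ^ 2 := by have := hl2.pos; positivity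
        have : l2 ^ 2 * D.nrm J = l2 ^ 2 * 1 := by rw [← h3, mul_one]
        exact Nat.eq_of_mul_eq_mul_left hl2pos this
      have h8 := D.hnrm1 J h7
      rw [hJ, h8, ← Ideal.one_eq_top, mul_one]
    have hcv := hev v hvp hv0 hvne
    obtain ⟨e, he⟩ := hcv
    obtain ⟨ϖ, hϖ1, hϖ2⟩ := ded_unif v hv0
    obtain ⟨k, u, s, ⟨hu, hs, hus⟩, hk1, hk2⟩ := ded_local v hv0 ϖ hϖ1 hϖ2 α hα0
    have hcount : (normalizedFactors (Ideal.span {α})).count v = k := by
      apply Ideal.count_normalizedFactors_eq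
      · rw [Ideal.span_singleton_le_iff_mem]; exact hk1
      · rw [Ideal.span_singleton_le_iff_mem]; exact hk2
    have hke : k = 2 * e := by omega
    have hspe : v ^ (2 * e) = Ideal.span {((l2 : ℕ) : 𝓞 K) ^ e} := by
      rw [pow_mul, hvl, Ideal.span_singleton_pow]
    rw [hke, hspe, Ideal.mem_span_singleton] at hk1
    obtain ⟨α', hα'⟩ := hk1
    have hα'v : α' ∉ v := by
      intro h
      apply hk2
      rw [hke, pow_succ, hspe, hα']
      exact Ideal.mul_mem_mul (Ideal.mem_span_singleton_self _) h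
    have hα'0 : α' ≠ 0 := fun h => hα'v (h ▸ v.zero_mem)
    obtain ⟨ν', hν', hν'p⟩ := D.norm_pos α' hα'0
    have hνν : ν = (l2 : ℤ) ^ (2 * e) * ν' := by
      have h3 : (ν : 𝓞 K) = (((l2 : ℤ) ^ (2 * e) * ν' : ℤ) : 𝓞 K) := by
        rw [← hν, hα', map_mul, map_pow, map_natCast]
        push_cast
        rw [← hν']
        ring
      exact_mod_cast h3
    have hdvm : l2 ^ e ∣ m := by
      have h3 : (l2 ^ e) ^ 2 ∣ 2 * m ^ 2 := by
        have h4 : ((l2 ^ e) ^ 2 : ℤ) ∣ 2 * (m : ℤ) ^ 2 := by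
          rw [← hν2, hνν]
          exact ⟨ν', by ring⟩
        exact_mod_cast h4
      have hcop : Nat.Coprime ((l2 ^ e) ^ 2) 2 := by
        have : Nat.Coprime l2 2 := (Nat.coprime_primes hl2 Nat.prime_two).2 (by omega)
        exact Nat.Coprime.pow_left 2 (Nat.Coprime.pow_left e this)
      have h5 : (l2 ^ e) ^ 2 ∣ m ^ 2 := hcop.dvd_of_dvd_mul_left h3
      exact (Nat.pow_dvd_pow_iff (by norm_num)).1 h5
    obtain ⟨m', hm'⟩ := hdvm
    have hν'2 : ν' = 2 * (m' : ℤ) ^ 2 := by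
      have h3 : (l2 : ℤ) ^ (2 * e) * ν' = (l2 : ℤ) ^ (2 * e) * (2 * (m' : ℤ) ^ 2) := by
        rw [← hνν, hν2, hm']
        push_cast
        ring
      have hl2z : (l2 : ℤ) ^ (2 * e) ≠ 0 := pow_ne_zero _ (by exact_mod_cast hl2.ne_zero)
      exact mul_left_cancel₀ hl2z h3
    have hsub : ∀ x : 𝓞 K, x - D.s x ∈ v := by
      intro x
      obtain ⟨A, B, rfl⟩ := D.hspan x
      have : (A : 𝓞 K) + B * D.ω - D.s ((A : 𝓞 K) + B * D.ω) = B * D.r := by
        simp only [map_add, map_mul, map_intCast, D.hs]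
        unfold QData.r
        ring
      rw [this]
      exact v.mul_mem_left _ hrv
    have hsα' : D.s α' ∉ v := by
      intro h
      apply hα'v
      have : α' = (α' - D.s α') + D.s α' := by ring
      rw [this]
      exact v.add_mem (hsub α') h
    have hm'l : ¬ l2 ∣ m' := by
      rintro ⟨z, hz⟩
      have h3 : (ν' : 𝓞 K) ∈ v := by
        rw [hν'2, hz]
        push_cast
        have : (2 : 𝓞 K) * (((l2 : ℕ) : 𝓞 K) * z) ^ 2 =
          ((l2 : ℕ) : 𝓞 K) * (2 * ((l2 : ℕ) : 𝓞 K) * z ^ 2) := by ring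
        rw [this]
        exact v.mul_mem_right _ hlv
      rw [← hν'] at h3
      exact (hvp.mem_or_mem h3).elim hα'v hsα'
    obtain ⟨τ, hτ⟩ := D.trace_int α'
    have hτ2 : ((τ ^ 2 - 8 * m' ^ 2 : ℤ) : 𝓞 K) ∈ v := by
      have h3 : ((τ ^ 2 - 8 * m' ^ 2 : ℤ) : 𝓞 K) = (α' - D.s α') ^ 2 := by
        push_cast
        rw [← hτ]
        have h4 : (4 : 𝓞 K) * (ν' : 𝓞 K) = 8 * ((m' : ℕ) : 𝓞 K) ^ 2 := by
          rw [hν'2]; push_cast; ring
        rw [← hν'] at h4
        linear_combination h4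
      rw [h3]
      exact v.pow_mem_of_mem (hsub α') 2 (by norm_num)
    have hdvl := D.int_mem v hvp.ne_top l2 hl2 hlv _ hτ2
    have hF : Fact l2.Prime := ⟨hl2⟩
    have hsq2 : IsSquare (2 : ZMod l2) := by
      have h3 : ((τ ^ 2 - 8 * m' ^ 2 : ℤ) : ZMod l2) = 0 :=
        (ZMod.intCast_zmod_eq_zero_iff_dvd _ l2).2 hdvl
      push_cast at h3
      have h20 : (2 : ZMod l2) ≠ 0 := by
        intro h0
        have : ((2 : ℕ) : ZMod l2) = 0 := by exact_mod_cast h0
        rw [ZMod.natCast_eq_zero_iff] at this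
        have := (Nat.prime_dvd_prime_iff_eq hl2 Nat.prime_two).1 this
        omega
      have hm0 : ((m' : ℕ) : ZMod l2) ≠ 0 := by
        intro h0
        rw [ZMod.natCast_eq_zero_iff] at h0
        exact hm'l h0
      refine ⟨(τ : ZMod l2) / (2 * (m' : ZMod l2)), ?_⟩
      field_simp
      linear_combination -h3
    rw [ZMod.exists_sq_eq_two_iff (by omega)] at hsq2
    omega

/-- the prime 2 and the field `ℚ(√-l₁l₂)`, where `l₁ ≡ 3` and `l₂ ≡ 5` modulo 8 are primes -/
theorem noQuad_field2 (hfin : Module.finrank ℚ K = 2) (r : K) (l1 l2 : ℕ) (hl1 : l1.Prime)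
    (hl2 : l2.Prime) (h1m : l1 % 8 = 3) (h2m : l2 % 8 = 5) (hr : r ^ 2 = -((l1 * l2 : ℕ) : K))
    (q : Ideal (𝓞 K)) (hq : q.IsPrime) (h2 : (2 : 𝓞 K) ∈ q) : NoQuad q := by
  have hne : l1 ≠ l2 := by
    intro h
    omega
  have hsf : Squarefree (l1 * l2) :=
    (Nat.squarefree_mul ((Nat.coprime_primes hl1 hl2).2 hne)).2
      ⟨hl1.prime.squarefree, hl2.prime.squarefree⟩
  have h4 : (l1 * l2) % 4 = 3 := by
    have h16 : (l1 * l2) % 8 = 7 := by rw [Nat.mul_mod, h1m, h2m]
    omega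
  obtain ⟨D⟩ := mkData hfin r (l1 * l2) hsf h4 hr
  exact noQuad_of_data2 D l1 l2 rfl hl1 hl2 h1m h2m q hq h2

end Pool.BDP
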