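import Mathlib

set_option autoImplicit false
set_option linter.unusedSectionVars false
set_option linter.unusedVariables false

/-!
# Arithmetic of the ring of integers of `ℚ(√-ℓ)`, `ℓ` a prime congruent to 7 modulo 16
-/

namespace Pool.BDP

structure QData (R : Type) [CommRing R] (ℓ : ℕ) where
  ω : R
  s : R ≃+* R
  N0 : ℤ
  hN0 : 4 * N0 = 1 + ℓ
  hω : ω * ω = ω - N0
  hs : s ω = 1 - ω
  hspan : ∀ x : R, ∃ A B : ℤ, x = A + B * ω
  nrm : Ideal R →* ℕ
  hnrm : ∀ β : R, ((nrm (Ideal.span {β}) : ℕ) : R) = β * s β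
  hnrm1 : ∀ I : Ideal R, nrm I = 1 → I = ⊤

namespace QData

variable {R : Type} [CommRing R] {ℓ : ℕ} (D : QData R ℓ)

theorem s_int (m : ℤ) : D.s (m : R) = m := map_intCast D.s m

theorem s_s (x : R) : D.s (D.s x) = x := by
  obtain ⟨A, B, rfl⟩ := D.hspan x
  simp only [map_add, map_mul, map_intCast, D.hs, map_sub, map_one]
  ring

theorem trace_int (x : R) : ∃ m : ℤ, x + D.s x = m := by
  obtain ⟨A, B, rfl⟩ := D.hspan x
  refine ⟨2 * A + B, ?_⟩
  simp only [map_add, map_mul, map_intCast, D.hs]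
  push_cast
  ring

theorem norm_eq (A B : ℤ) : ((A : R) + B * D.ω) * D.s ((A : R) + B * D.ω) =
    ((A ^ 2 + A * B + D.N0 * B ^ 2 : ℤ) : R) := by
  simp only [map_add, map_mul, map_intCast, D.hs]
  push_cast
  have h := D.hω
  linear_combination (-(B : R) ^ 2) * h

theorem norm_int (x : R) : ∃ n : ℤ, x * D.s x = n ∧ 0 ≤ n := by
  obtain ⟨A, B, rfl⟩ := D.hspan x
  refine ⟨_, D.norm_eq A B, ?_⟩
  have h := D.hN0
  have h1 : 4 * (A ^ 2 + A * B + D.N0 * B ^ 2) = (2 * A + B) ^ 2 + ℓ * B ^ 2 := by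
    linear_combination B ^ 2 * h
  have h2 : 0 ≤ (2 * A + B) ^ 2 + (ℓ : ℤ) * B ^ 2 := by positivity
  omega

/-- `√-ℓ` -/
def r : R := 2 * D.ω - 1

theorem r_sq : D.r ^ 2 = -(ℓ : R) := by
  have h := D.hω
  have h1 : (4 : R) * (D.N0 : R) = 1 + (ℓ : R) := by
    have := congrArg (Int.cast : ℤ → R) D.hN0
    push_cast at this
    exact this
  unfold r
  linear_combination 4 * h - h1

theorem s_r : D.s D.r = -D.r := by
  unfold r
  rw [map_sub, map_mul, D.hs, map_one, map_ofNat]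
  ring

variable [IsDomain R] [CharZero R]

include D

theorem coords_zero (hℓ : 0 < ℓ) (A B : ℤ) (h : (A : R) + B * D.ω = 0) : A = 0 ∧ B = 0 := by
  have h1 := D.norm_eq A B
  rw [h, zero_mul] at h1
  have h2 : A ^ 2 + A * B + D.N0 * B ^ 2 = 0 := by exact_mod_cast h1.symm
  have h3 := D.hN0
  have h4 : (2 * A + B) ^ 2 + ℓ * B ^ 2 = 0 := by
    linear_combination 4 * h2 - B ^ 2 * h3
  have hℓ' : (0 : ℤ) < ℓ := by exact_mod_cast hℓ
  have h5 : B = 0 := by
    by_contra hB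
    have : 0 < B ^ 2 := by positivity
    nlinarith [sq_nonneg (2 * A + B), mul_pos hℓ' this]
  subst h5
  refine ⟨?_, rfl⟩
  have : (2 * A) ^ 2 = 0 := by linear_combination h4
  have := pow_eq_zero_iff (n := 2) (by norm_num) |>.1 this
  omega

theorem fixed_int (hℓ : 0 < ℓ) (x : R) (h : D.s x = x) : ∃ m : ℤ, x = m := by
  obtain ⟨A, B, rfl⟩ := D.hspan x
  refine ⟨A, ?_⟩
  have h1 : ((B : ℤ) : R) + ((-2 * B : ℤ) : R) * D.ω = 0 := by
    simp only [map_add, map_mul, map_intCast, D.hs] at h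
    push_cast
    linear_combination h
  have := (D.coords_zero hℓ _ _ h1).1
  rw [this]
  simp

/-- an integer divisible by an integer in `R` is divisible in `ℤ` -/
theorem int_dvd (hℓ : 0 < ℓ) (a b : ℤ) (h : (a : R) ∣ (b : R)) : a ∣ b := by
  by_cases ha : a = 0
  · subst ha
    obtain ⟨c, hc⟩ := h
    simp only [Int.cast_zero, zero_mul] at hc
    have : b = 0 := by exact_mod_cast hc
    rw [this]
  obtain ⟨c, hc⟩ := h
  have ha' : (a : R) ≠ 0 := by exact_mod_cast ha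
  have h1 : D.s c = c := by
    have h2 := congrArg D.s hc
    rw [map_mul, map_intCast, map_intCast, hc] at h2
    exact mul_left_cancel₀ ha' h2.symm
  obtain ⟨m, rfl⟩ := D.fixed_int hℓ c h1
  exact ⟨m, by exact_mod_cast hc⟩

theorem norm_pos (x : R) (hx : x ≠ 0) : ∃ n : ℤ, x * D.s x = n ∧ 0 < n := by
  obtain ⟨n, hn, hn0⟩ := D.norm_int x
  refine ⟨n, hn, lt_of_le_of_ne hn0 ?_⟩
  rintro rfl
  rw [Int.cast_zero, mul_eq_zero] at hn
  rcases hn with h | h
  · exact hx h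
  · exact hx (by simpa using h)

theorem hsq (c : Ideal R) (β : R) (hβ : β ≠ 0) (hc : c ^ 2 = Ideal.span {β}) :
    ∃ n : ℤ, 0 < n ∧ β * D.s β = n ^ 2 := by
  obtain ⟨m, hm, hmp⟩ := D.norm_pos β hβ
  have h1 := D.hnrm β
  rw [← hc, map_pow, hm] at h1
  have h2 : ((D.nrm c ^ 2 : ℕ) : ℤ) = m := by exact_mod_cast h1
  refine ⟨D.nrm c, ?_, ?_⟩
  · rcases Nat.eq_zero_or_pos (D.nrm c) with h0 | h0
    · rw [h0] at h2
      simp at h2
      omega
    · exact_mod_cast h0
  · rw [hm, ← h2]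
    push_cast
    rfl

/-- units are `±1` -/
theorem units (hℓ : 7 ≤ ℓ) (u v : R) (huv : u * v = 1) : u = 1 ∨ u = -1 := by
  obtain ⟨A, B, rfl⟩ := D.hspan u
  set u : R := (A : R) + B * D.ω with hu
  have hℓ0 : 0 < ℓ := by omega
  have hu0 : u ≠ 0 := left_ne_zero_of_mul_eq_one huv
  have hv0 : v ≠ 0 := right_ne_zero_of_mul_eq_one huv
  obtain ⟨n, hn, hnp⟩ := D.norm_pos u hu0
  obtain ⟨m, hm, hmp⟩ := D.norm_pos v hv0
  have h1 : n * m = 1 := by
    have : (n : R) * m = 1 := by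
      rw [← hn, ← hm]
      have h2 : D.s u * D.s v = 1 := by rw [← map_mul, huv, map_one]
      linear_combination (D.s u * D.s v) * huv + h2
    exact_mod_cast this
  have hn1 : n = 1 := by
    have := Int.eq_one_or_neg_one_of_mul_eq_one h1
    omega
  have h3 := D.norm_eq A B
  rw [← hu, hn, hn1] at h3
  have h4 : A ^ 2 + A * B + D.N0 * B ^ 2 = 1 := by exact_mod_cast h3.symm
  have h5 := D.hN0
  have h6 : (2 * A + B) ^ 2 + ℓ * B ^ 2 = 4 := by
    linear_combination 4 * h4 - B ^ 2 * h5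
  have hℓ' : (7 : ℤ) ≤ ℓ := by exact_mod_cast hℓ
  have hB : B = 0 := by
    by_contra hB
    have : 0 < B ^ 2 := by positivity
    nlinarith [sq_nonneg (2 * A + B), mul_le_mul_of_nonneg_right hℓ' this.le]
  subst hB
  have h7 : A ^ 2 = 1 := by linarith
  have h9 : (A - 1) * (A + 1) = 0 := by linear_combination h7
  rcases mul_eq_zero.1 h9 with h | h
  · left
    have : A = 1 := by omega
    rw [hu, this]; simp
  · right
    have : A = -1 := by omega
    rw [hu, this]; simp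

end QData

end Pool.BDP
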