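import Pool.Agent.BDP.Defs
import Pool.Agent.BDP.Grp

set_option autoImplicit false

/-!
# Topology of the Galois action, conjugation of inertia groups, and the vanishing of quadratic
characters of `K_∞` which are unramified away from 2 and trivial on the decomposition group
-/

namespace Pool.BDP

open scoped NumberField Pointwise

variable {K : Type} [Field K]

/-- the discrete topology on the ring of algebraic integers -/
scoped instance zbTop : TopologicalSpace (Zb K) := ⊥

scoped instance zbDisc : DiscreteTopology (Zb K) := ⟨rfl⟩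

scoped instance zbCont : ContinuousSMul (GK K) (Zb K) := by
  rw [continuousSMul_iff_stabilizer_isOpen]
  intro x
  have h := stabilizer_isOpen_of_isIntegral (K := K) (x : AlgebraicClosure K)
  convert! h using 2
  ext σ
  rw [MulAction.mem_stabilizer_iff, MulAction.mem_stabilizer_iff]
  constructor
  · intro hσ
    have : ((σ • x : Zb K) : AlgebraicClosure K) = σ • (x : AlgebraicClosure K) := rfl
    rw [← this, hσ]
  · intro hσ
    apply NumberField.RingOfIntegers.ext
    exact hσ

theorem isClosed_Dec (P : Ideal (Zb K)) : IsClosed ((Dec P : Subgroup (GK K)) : Set (GK K)) := by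
  have h : ((Dec P : Subgroup (GK K)) : Set (GK K)) =
      ⋂ x : Zb K, {σ | σ • x ∈ P ↔ x ∈ P} := by
    ext σ
    simp only [Set.mem_iInter]
    constructor
    · intro hσ x
      have hσ' : σ • P = P := hσ
      change σ • x ∈ P ↔ x ∈ P
      constructor
      · intro h
        rw [← hσ'] at h
        exact (Ideal.smul_mem_pointwise_smul_iff).1 h
      · intro h
        rw [← hσ']
        exact Ideal.smul_mem_pointwise_smul_iff.2 h
    · intro hσ
      change σ • P = P
      ext x
      rw [← smul_inv_smul σ x, Ideal.smul_mem_pointwise_smul_iff]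
      exact (hσ (σ⁻¹ • x)).symm
  rw [h]
  refine isClosed_iInter fun x => ?_
  have hc : Continuous fun σ : GK K => σ • x := by fun_prop
  exact (isClosed_discrete {y : Zb K | y ∈ P ↔ x ∈ P}).preimage hc

theorem ine_conj (P : Ideal (Zb K)) (b σ : GK K) (hσ : σ ∈ Ine P) :
    b * σ * b⁻¹ ∈ Ine (b • P) := by
  intro x
  have h := hσ (b⁻¹ • x)
  have h1 : (b * σ * b⁻¹) • x - x = b • (σ • b⁻¹ • x - b⁻¹ • x) := by
    rw [smul_sub, smul_inv_smul, mul_smul, mul_smul]
  change (b * σ * b⁻¹) • x - x ∈ b • P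
  rw [h1]
  exact Ideal.smul_mem_pointwise_smul_iff.2 h

theorem Away.smul {P : Ideal (Zb K)} (hP : Away P) (b : GK K) : Away (b • P) := by
  have hp := hP.1
  refine ⟨inferInstance, ?_, ?_⟩
  · intro h
    apply hP.2.1
    have := congrArg (fun J => b⁻¹ • J) h
    simpa using this
  · intro h
    apply hP.2.2
    have h1 : b • (2 : Zb K) = 2 := by
      have := map_ofNat (MulSemiringAction.toRingHom (GK K) (Zb K) b) 2
      simpa using this
    rw [← h1] at h
    exact Ideal.smul_mem_pointwise_smul_iff.1 h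

theorem noChar [CharZero K] (κ : Z2Ext K) (q : Ideal (𝓞 K)) (hq : NoQuad q) (P0 : Ideal (Zb K))
    (hP0 : Above q P0) (U : Subgroup κ.H) (hU : U.index = 2)
    (hUc : IsClosed ((U.map κ.H.subtype : Subgroup (GK K)) : Set (GK K)))
    (hI : ∀ P : Ideal (Zb K), Away P → ∀ σ : κ.H, (σ : GK K) ∈ Ine P → σ ∈ U)
    (hD : ∀ σ : κ.H, (σ : GK K) ∈ Dec P0 → σ ∈ U) : False := by
  set U' : Subgroup (GK K) := U.map κ.H.subtype with hU'
  have hHn : κ.H.Normal := inferInstanceAs (κ.toHom.ker.Normal)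
  set N : Subgroup (GK K) := U'.normalCore with hN
  have hNn : N.Normal := U'.normalCore_normal
  have hNc : IsClosed (N : Set (GK K)) := U'.normalCore_isClosed hUc
  have hNU : N ≤ U' := U'.normalCore_le
  have hU'H : U' ≤ κ.H := by
    rintro _ ⟨u, _, rfl⟩
    exact u.2
  have mem_U' : ∀ h : κ.H, (h : GK K) ∈ U' → h ∈ U := by
    rintro h ⟨u, hu, hu'⟩
    have : u = h := Subtype.ext hu'
    rw [← this]; exact hu
  have hsq : ∀ h ∈ κ.toHom.ker, h ^ 2 ∈ N := by
    intro h hh b
    have h1 : b * h * b⁻¹ ∈ κ.H := hHn.conj_mem h hh b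
    refine ⟨⟨b * h * b⁻¹, h1⟩ ^ 2, ?_, ?_⟩
    · exact Subgroup.sq_mem_of_index_two hU _
    · change (b * h * b⁻¹) ^ 2 = b * h ^ 2 * b⁻¹
      rw [conj_pow]
  have hne : Dec P0 ⊔ N ≠ ⊤ := by
    intro htop
    have : U = ⊤ := by
      rw [Subgroup.eq_top_iff']
      intro h
      have hm : (h : GK K) ∈ Dec P0 ⊔ N := htop ▸ Subgroup.mem_top _
      rw [Subgroup.mem_sup_of_normal_right] at hm
      obtain ⟨d, hd, n, hn, hdn⟩ := hm
      have hnH : n ∈ κ.H := hU'H (hNU hn)
      have hdH : d ∈ κ.H := by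
        have : d = (h : GK K) * n⁻¹ := by rw [← hdn]; group
        rw [this]
        exact κ.H.mul_mem h.2 (κ.H.inv_mem hnH)
      have h1 : (⟨d, hdH⟩ : κ.H) ∈ U := hD ⟨d, hdH⟩ hd
      have h2 : (⟨n, hnH⟩ : κ.H) ∈ U := mem_U' ⟨n, hnH⟩ (hNU hn)
      have h3 : h = ⟨d, hdH⟩ * ⟨n, hnH⟩ := Subtype.ext hdn.symm
      rw [h3]
      exact U.mul_mem h1 h2
    rw [this, Subgroup.index_top] at hU
    norm_num at hU
  obtain ⟨W, hWo, hW2, hW⟩ := frattini κ.toHom κ.surj (Dec P0) N (isClosed_Dec P0) hNc hsq hne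
  refine hq W hWo hW2 ?_ P0 hP0 (le_trans le_sup_left hW)
  intro P hP σ hσ
  apply hW
  apply Subgroup.mem_sup_right
  intro b
  have h1 := ine_conj P b σ hσ
  have h2 : b * σ * b⁻¹ ∈ κ.H := κ.unram (b • P) (hP.smul b) h1
  exact ⟨⟨_, h2⟩, hI (b • P) (hP.smul b) ⟨_, h2⟩ h1, rfl⟩

end Pool.BDP
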