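import Pool.Agent.BDP.Cl

set_option autoImplicit false
set_option linter.unusedSectionVars false
set_option linter.unusedVariables false
set_option linter.overlappingInstances false

/-!
# The primes above 2
-/

namespace Pool.BDP

theorem mod8_of_primes (n : ℕ) : n ≠ 0 → (∀ p : ℕ, p.Prime → p ∣ n → p % 8 = 1 ∨ p % 8 = 7) →
    n % 8 = 1 ∨ n % 8 = 7 := by
  induction n using Nat.strong_induction_on with
  | _ n ih =>
    intro hn h
    by_cases h1 : n = 1
    · left; rw [h1]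
    · have hp := Nat.minFac_prime h1
      obtain ⟨m, hm⟩ := Nat.minFac_dvd n
      set p := n.minFac with hpd
      have hm0 : m ≠ 0 := by rintro rfl; simp at hm; exact hn hm
      have hlt : m < n := by
        have := hp.two_le
        have h3 : 0 < m := Nat.pos_of_ne_zero hm0
        nlinarith
      have h2 := ih m hlt hm0 (fun q hq hqm => h q hq (hm ▸ Dvd.dvd.mul_left hqm p))
      have h3 := h p hp (hm ▸ dvd_mul_right p m)
      rw [hm, Nat.mul_mod]
      rcases h2 with h2 | h2 <;> rcases h3 with h3 | h3 <;> rw [h2, h3] <;> simp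

namespace QData

variable {R : Type} [CommRing R] {ℓ : ℕ}

/-- the conjugate data -/
def flip (D : QData R ℓ) : QData R ℓ where
  ω := 1 - D.ω
  s := D.s
  N0 := D.N0
  hN0 := D.hN0
  hω := by linear_combination D.hω
  hs := by rw [map_sub, map_one, D.hs]
  hspan := by
    intro x
    obtain ⟨A, B, rfl⟩ := D.hspan x
    exact ⟨A + B, -B, by push_cast; ring⟩
  nrm := D.nrm
  hnrm := D.hnrm
  hnrm1 := D.hnrm1

variable (D : QData R ℓ) [IsDomain R] [CharZero R] [IsDedekindDomain R]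

/-- the conjugate ideal -/
def cj (v : Ideal R) : Ideal R := v.map (D.s : R →+* R)

include D

theorem mem_cj (v : Ideal R) (x : R) : x ∈ D.cj v ↔ D.s x ∈ v := by
  constructor
  · intro h
    have h1 := (Ideal.mem_map_of_equiv D.s x).1 h
    obtain ⟨y, hy, rfl⟩ := h1
    rwa [D.s_s]
  · intro h
    refine (Ideal.mem_map_of_equiv D.s x).2 ⟨D.s x, h, D.s_s x⟩

theorem cj_cj (v : Ideal R) : D.cj (D.cj v) = v := by
  ext x
  rw [D.mem_cj, D.mem_cj, D.s_s]

theorem cj_pow (v : Ideal R) (n : ℕ) : D.cj (v ^ n) = D.cj v ^ n := Ideal.map_pow _ _ _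

theorem cj_prime (v : Ideal R) [hv : v.IsPrime] : (D.cj v).IsPrime := by
  refine ⟨?_, ?_⟩
  · intro h
    apply hv.ne_top
    rw [Ideal.eq_top_iff_one] at h ⊢
    rw [D.mem_cj, map_one] at h
    exact h
  · intro x y hxy
    rw [D.mem_cj, map_mul] at hxy
    rw [D.mem_cj, D.mem_cj]
    exact hv.mem_or_mem hxy

theorem cj_span (x : R) : D.cj (Ideal.span {x}) = Ideal.span {D.s x} := by
  unfold cj
  rw [Ideal.map_span, Set.image_singleton]
  rfl

section

variable (h16 : ℓ % 8 = 7) (v : Ideal R) [hv : v.IsPrime] (h2 : (2 : R) ∈ v)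

include h16 h2

theorem omega_or : D.ω ∈ v ∨ 1 - D.ω ∈ v := by
  have hN := D.hN0
  have h1 : D.ω * (1 - D.ω) ∈ v := by
    have h3 : D.ω * (1 - D.ω) = ((D.N0 : ℤ) : R) := by linear_combination -D.hω
    obtain ⟨n, hn⟩ : ∃ n : ℤ, D.N0 = 2 * n := ⟨D.N0 / 2, by omega⟩
    rw [h3, hn]
    push_cast
    exact v.mul_mem_right _ h2
  exact hv.mem_or_mem h1

theorem not_both : ¬ (D.ω ∈ v ∧ 1 - D.ω ∈ v) := by
  rintro ⟨h3, h4⟩
  apply hv.ne_top
  rw [Ideal.eq_top_iff_one]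
  have : (1 : R) = D.ω + (1 - D.ω) := by ring
  rw [this]
  exact v.add_mem h3 h4

theorem even_of_mem (k : ℤ) (hk : (k : R) ∈ v) : (2 : ℤ) ∣ k := by
  have := D.int_mem v hv.ne_top 2 Nat.prime_two (by exact_mod_cast h2) k hk
  exact_mod_cast this

theorem mul_cj_aux (hω : D.ω ∈ v) : v * D.cj v = Ideal.span {(2 : R)} := by
  have hN := D.hN0
  obtain ⟨n1, hn1⟩ : ∃ n : ℤ, D.N0 = 2 * n := ⟨D.N0 / 2, by omega⟩
  apply le_antisymm
  · rw [Ideal.mul_le]
    intro a ha b hb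
    rw [D.mem_cj] at hb
    obtain ⟨A, B, rfl⟩ := D.hspan a
    obtain ⟨A', B', rfl⟩ := D.hspan b
    have h3 : ((A : ℤ) : R) ∈ v := by
      have : ((A : ℤ) : R) = (A + B * D.ω) - B * D.ω := by ring
      rw [this]
      exact v.sub_mem ha (v.mul_mem_left _ hω)
    have h4 : (((A' + B') : ℤ) : R) ∈ v := by
      simp only [map_add, map_mul, map_intCast, D.hs] at hb
      have : (((A' + B') : ℤ) : R) = (A' + B' * (1 - D.ω)) + B' * D.ω := by push_cast; ring
      rw [this]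
      exact v.add_mem hb (v.mul_mem_left _ hω)
    obtain ⟨a1, ha1⟩ := D.even_of_mem h16 v h2 A h3
    obtain ⟨c1, hc1⟩ := D.even_of_mem h16 v h2 (A' + B') h4
    have h5 : A' = 2 * c1 - B' := by omega
    rw [Ideal.mem_span_singleton]
    refine ⟨a1 * (A' + B' * D.ω) + B * D.ω * c1 - B * B' * n1, ?_⟩
    have h6 : D.ω * D.ω = D.ω - (2 * n1 : ℤ) := by rw [D.hω, hn1]
    rw [ha1, h5]
    push_cast at h6 ⊢
    linear_combination (B * B' : R) * h6
  · rw [Ideal.span_singleton_le_iff_mem]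
    have h3 : (2 : R) = D.ω * 2 + 2 * (1 - D.ω) := by ring
    rw [h3]
    refine Ideal.add_mem _ (Ideal.mul_mem_mul hω ?_) (Ideal.mul_mem_mul h2 ?_)
    · rw [D.mem_cj, map_ofNat]; exact h2
    · rw [D.mem_cj, map_sub, map_one, D.hs]
      have : 1 - (1 - D.ω) = D.ω := by ring
      rw [this]; exact hω

theorem mul_cj : v * D.cj v = Ideal.span {(2 : R)} := by
  rcases D.omega_or h16 v h2 with h | h
  · exact D.mul_cj_aux h16 v h2 h
  · exact D.flip.mul_cj_aux h16 v h2 h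

theorem cj_ne : D.cj v ≠ v := by
  intro h
  rcases D.omega_or h16 v h2 with h3 | h3
  · apply D.not_both h16 v h2
    refine ⟨h3, ?_⟩
    rw [← h, D.mem_cj, D.hs] at h3
    exact h3
  · apply D.not_both h16 v h2
    refine ⟨?_, h3⟩
    rw [← h, D.mem_cj, map_sub, map_one, D.hs] at h3
    have : 1 - (1 - D.ω) = D.ω := by ring
    rwa [this] at h3

theorem two_mem_cj : (2 : R) ∈ D.cj v := by
  rw [D.mem_cj, map_ofNat]; exact h2

theorem isMax : v.IsMaximal := hv.isMaximal (by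
  rintro rfl
  rw [Ideal.mem_bot] at h2
  norm_num at h2)

theorem coprime : IsCoprime v (D.cj v) := by
  have h3 := D.isMax h16 v h2
  have h4 := D.cj_prime v
  have h5 := D.isMax h16 (D.cj v) (D.two_mem_cj h16 v h2)
  exact Ideal.isCoprime_iff_sup_eq.2 (Ideal.IsMaximal.coprime_of_ne h3 h5
    (fun h => D.cj_ne h16 v h2 h.symm))

theorem int8 (k : ℤ) (hk : (k : R) ∈ v ^ 3) : (8 : ℤ) ∣ k := by
  have h3 : (k : R) ∈ D.cj v ^ 3 := by
    rw [← D.cj_pow, D.mem_cj, map_intCast]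
    exact hk
  have h4 : (k : R) ∈ v ^ 3 * D.cj v ^ 3 := by
    rw [Ideal.mul_eq_inf_of_isCoprime ((D.coprime h16 v h2).pow)]
    exact ⟨hk, h3⟩
  rw [← mul_pow, D.mul_cj h16 v h2, Ideal.span_singleton_pow, Ideal.mem_span_singleton] at h4
  apply D.int_dvd (by omega)
  have : ((8 : ℤ) : R) = 2 ^ 3 := by norm_num
  rw [this]
  exact h4

theorem approx_aux (hω : D.ω ∈ v) (x : R) : ∃ k : ℤ, x - k ∈ v ^ 3 := by
  have hN := D.hN0
  obtain ⟨n1, hn1⟩ : ∃ n : ℤ, D.N0 = 2 * n := ⟨D.N0 / 2, by omega⟩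
  obtain ⟨w, z, hw, hz⟩ : ∃ w z : ℤ, w ^ 2 - w + D.N0 = 8 * z ∧ (2 : ℤ) ∣ w := by
    have h3 : n1 % 4 = 0 ∨ n1 % 4 = 1 ∨ n1 % 4 = 2 ∨ n1 % 4 = 3 := by omega
    rcases h3 with h3 | h3 | h3 | h3
    · exact ⟨0, n1 / 4, by rw [hn1]; omega, by norm_num⟩
    · exact ⟨6, (30 + 2 * n1) / 8, by rw [hn1]; omega, by norm_num⟩
    · exact ⟨4, (12 + 2 * n1) / 8, by rw [hn1]; omega, by norm_num⟩
    · exact ⟨2, (2 + 2 * n1) / 8, by rw [hn1]; omega, by norm_num⟩
  have h8 : (8 : R) ∈ v ^ 3 := by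
    have : (8 : R) = 2 ^ 3 := by norm_num
    rw [this]; exact Ideal.pow_mem_pow h2 3
  have hwv : (w : R) ∈ v := by
    obtain ⟨w', rfl⟩ := hz
    push_cast
    exact v.mul_mem_right _ h2
  have h3 : (D.ω + w - 1) * (D.ω - w) ∈ v ^ 3 := by
    have h4 : (D.ω + w - 1) * (D.ω - w) = 8 * (-z : R) := by
      have h5 := congrArg (Int.cast : ℤ → R) hw
      push_cast at h5
      linear_combination D.hω - h5
    rw [h4]
    exact Ideal.mul_mem_right _ _ h8
  have h4 : D.ω + w - 1 ∉ v := by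
    intro h
    apply hv.ne_top
    rw [Ideal.eq_top_iff_one]
    have : (1 : R) = (D.ω + w) - (D.ω + w - 1) := by ring
    rw [this]
    exact v.sub_mem (v.add_mem hω hwv) h
  have h5 : D.ω - w ∈ v ^ 3 := by
    rcases Ideal.IsPrime.mul_mem_pow v h3 with h | h
    · exact absurd h h4
    · exact h
  obtain ⟨A, B, rfl⟩ := D.hspan x
  refine ⟨A + B * w, ?_⟩
  have : (A : R) + B * D.ω - ((A + B * w : ℤ) : R) = B * (D.ω - w) := by push_cast; ring
  rw [this]
  exact Ideal.mul_mem_left _ _ h5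

theorem approx (x : R) : ∃ k : ℤ, x - k ∈ v ^ 3 := by
  rcases D.omega_or h16 v h2 with h | h
  · exact D.approx_aux h16 v h2 h x
  · exact D.flip.approx_aux h16 v h2 h x

theorem unit_sq (x : R) (hx : x ∉ v) : x ^ 2 - 1 ∈ v ^ 3 := by
  obtain ⟨k, hk⟩ := D.approx h16 v h2 x
  have hle : v ^ 3 ≤ v := Ideal.pow_le_self (by norm_num)
  have hodd : k % 2 = 1 := by
    by_contra h
    apply hx
    have h3 : k = 2 * (k / 2) := by omega
    have h4 : (k : R) ∈ v := by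
      rw [h3]; push_cast
      exact v.mul_mem_right _ h2
    have : x = (x - k) + k := by ring
    rw [this]
    exact v.add_mem (hle hk) h4
  have h8 : (8 : R) ∈ v ^ 3 := by
    have : (8 : R) = 2 ^ 3 := by norm_num
    rw [this]; exact Ideal.pow_mem_pow h2 3
  obtain ⟨j, hj⟩ : ∃ j, k = 2 * j + 1 := ⟨k / 2, by omega⟩
  obtain ⟨i, hi⟩ : ∃ i, j * (j + 1) = 2 * i := by
    obtain ⟨i, hi⟩ := Int.even_mul_succ_self j
    exact ⟨i, by omega⟩
  have h5 : x ^ 2 - 1 = (x - k) * (x + k) + 8 * i := by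
    have h6 : (k : R) = 2 * j + 1 := by rw [hj]; push_cast; ring
    have h7 : (j : R) * (j + 1) = 2 * i := by exact_mod_cast congrArg (Int.cast : ℤ → R) hi
    linear_combination (k + 2 * (j : R) + 1) * h6 + 4 * h7
  rw [h5]
  exact Ideal.add_mem _ (Ideal.mul_mem_right _ _ hk) (Ideal.mul_mem_right _ _ h8)

theorem pi_lemma (h16' : ℓ % 16 = 7) (hℓ : ℓ.Prime) (h : ℕ) (hodd : Odd h) (π : R)
    (hπ : D.cj v ^ h = Ideal.span {π}) (ε : ℤ) (hε : ε = 1 ∨ ε = -1) : π - ε ∉ v ^ 3 := by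
  intro hcon
  have hcp := D.cj_prime v
  obtain ⟨A, B, hAB⟩ := D.hspan π
  have hh : h ≠ 0 := by rintro rfl; exact absurd hodd (by decide)
  have hππ : π ∈ D.cj v ^ h := by rw [hπ]; exact Ideal.mem_span_singleton_self _
  have hπ' : π ∈ D.cj v := Ideal.pow_le_self hh hππ
  have hsπ : D.s π ∈ v := (D.mem_cj v π).1 hπ'
  have hπv : π ∉ v := by
    intro h3
    have h4 : D.cj v ^ h ≤ v := by
      rw [hπ, Ideal.span_singleton_le_iff_mem]; exact h3
    have h5 : D.cj v ≤ v := hv.le_of_pow_le h4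
    have h6 := D.isMax h16 (D.cj v) (D.two_mem_cj h16 v h2)
    exact D.cj_ne h16 v h2 (h6.eq_of_le hv.ne_top h5)
  -- the norm
  have hnorm : π * D.s π = ((2 ^ h : ℤ) : R) := by
    have hπ0 : π ≠ 0 := fun h0 => hπv (h0 ▸ v.zero_mem)
    obtain ⟨n, hn, hnp⟩ := D.norm_pos π hπ0
    have h3 : Ideal.span {(n : R)} = Ideal.span {((2 ^ h : ℤ) : R)} := by
      have h4 : Ideal.span {D.s π} = v ^ h := by
        rw [← D.cj_span, ← hπ, ← D.cj_pow, D.cj_cj]
      rw [← hn, ← Ideal.span_singleton_mul_span_singleton, h4, ← hπ, ← mul_pow, mul_comm,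
        D.mul_cj h16 v h2, Ideal.span_singleton_pow]
      congr 2
      push_cast
      rfl
    have h5 : n ∣ 2 ^ h := by
      apply D.int_dvd (by omega)
      rw [← Ideal.mem_span_singleton, h3]
      exact Ideal.mem_span_singleton_self _
    have h6 : (2 ^ h : ℤ) ∣ n := by
      apply D.int_dvd (by omega)
      rw [← Ideal.mem_span_singleton, ← h3]
      exact Ideal.mem_span_singleton_self _
    have h7 : n = 2 ^ h := Int.dvd_antisymm hnp.le (by positivity) h5 h6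
    rw [hn, h7]
  have h3 := D.norm_eq A B
  rw [← hAB, hnorm] at h3
  have h4 : A ^ 2 + A * B + D.N0 * B ^ 2 = 2 ^ h := by exact_mod_cast h3.symm
  have h5 := D.hN0
  set a : ℤ := 2 * A + B with ha
  have h6 : a ^ 2 + ℓ * B ^ 2 = 4 * 2 ^ h := by
    rw [ha]
    linear_combination 4 * h4 - B ^ 2 * h5
  have htr : π + D.s π = (a : R) := by
    rw [hAB, ha]
    simp only [map_add, map_mul, map_intCast, D.hs]
    push_cast
    ring
  -- `a` is odd
  have haodd : a % 2 = 1 := by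
    by_contra hc
    apply hπv
    have h7 : a = 2 * (a / 2) := by omega
    have h8 : (a : R) ∈ v := by
      rw [h7]; push_cast
      exact v.mul_mem_right _ h2
    have : π = a - D.s π := by rw [← htr]; ring
    rw [this]
    exact v.sub_mem h8 hsπ
  have hBodd : B % 2 = 1 := by omega
  have hB0 : B.natAbs ≠ 0 := by omega
  have hprimes : ∀ p : ℕ, p.Prime → p ∣ B.natAbs → p % 8 = 1 ∨ p % 8 = 7 := by
    intro p hp hpB
    have hpF : Fact p.Prime := ⟨hp⟩
    have hpB' : (p : ℤ) ∣ B := Int.natCast_dvd.2 hpB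
    have hp2 : p ≠ 2 := by
      rintro rfl
      have : (2 : ℤ) ∣ B := by exact_mod_cast hpB'
      omega
    rw [← ZMod.exists_sq_eq_two_iff hp2]
    obtain ⟨j, hj⟩ := hodd
    have h7 : ((a : ℤ) : ZMod p) ^ 2 = 2 * (2 ^ (j + 1)) ^ 2 := by
      have h8 : ((B : ℤ) : ZMod p) = 0 := (ZMod.intCast_zmod_eq_zero_iff_dvd B p).2 hpB'
      have h9 := congrArg (Int.cast : ℤ → ZMod p) h6
      push_cast at h9
      rw [h8] at h9
      rw [hj] at h9
      have h10 : (4 : ZMod p) * 2 ^ (2 * j + 1) = 2 * (2 ^ (j + 1)) ^ 2 := by ring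
      rw [← h10, ← h9]
      ring
    have h20 : (2 : ZMod p) ≠ 0 := by
      intro h0
      have : ((2 : ℕ) : ZMod p) = 0 := by exact_mod_cast h0
      rw [ZMod.natCast_eq_zero_iff] at this
      exact hp2 ((Nat.prime_dvd_prime_iff_eq hp Nat.prime_two).1 this)
    refine ⟨((a : ℤ) : ZMod p) / 2 ^ (j + 1), ?_⟩
    have h21 : (2 : ZMod p) ^ (j + 1) ≠ 0 := pow_ne_zero _ h20
    field_simp
    linear_combination -h7
  have hB8 := mod8_of_primes B.natAbs hB0 hprimes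
  have hB16 : B ^ 2 % 16 = 1 := by
    have h7 : B ^ 2 = (B.natAbs : ℤ) ^ 2 := (Int.natAbs_sq B).symm
    rw [h7]
    have h8 : ∃ m : ℤ, (B.natAbs : ℤ) = 8 * m + 1 ∨ (B.natAbs : ℤ) = 8 * m + 7 := by
      rcases hB8 with h9 | h9
      · exact ⟨B.natAbs / 8, Or.inl (by omega)⟩
      · exact ⟨B.natAbs / 8, Or.inr (by omega)⟩
    obtain ⟨m, hm | hm⟩ := h8
    · rw [hm]
      have : (8 * m + 1) ^ 2 = 16 * (4 * m ^ 2 + m) + 1 := by ring
      rw [this]; omega
    · rw [hm]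
      have : (8 * m + 7) ^ 2 = 16 * (4 * m ^ 2 + 7 * m + 3) + 1 := by ring
      rw [this]; omega
  -- the congruence
  have hε2 : (ε : R) ^ 2 = 1 := by
    rcases hε with rfl | rfl <;> simp
  have h7 : ((1 - a * ε + 2 ^ h : ℤ) : R) ∈ v ^ 3 := by
    have h8 : ((1 - a * ε + 2 ^ h : ℤ) : R) = -((π - ε) * (π + ε - a)) := by
      push_cast at hnorm ⊢
      rw [← hnorm]
      have h9 : D.s π = a - π := by rw [← htr]; ring
      rw [h9]
      linear_combination -hε2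
    rw [h8]
    exact Ideal.neg_mem_iff _ |>.2 (Ideal.mul_mem_right _ _ hcon)
  obtain ⟨z, hz⟩ := D.int8 h16 v h2 _ h7
  obtain ⟨j, hj⟩ := hodd
  have hε2' : ε ^ 2 = 1 := by rcases hε with rfl | rfl <;> norm_num
  have ha2 : a ^ 2 = (1 + 2 ^ h - 8 * z) ^ 2 := by
    have h8 : 1 + 2 ^ h - 8 * z = a * ε := by linarith
    rw [h8, mul_pow, hε2', mul_one]
  have hℓ16 : ∃ i : ℤ, (ℓ : ℤ) = 16 * i + 7 := ⟨ℓ / 16, by omega⟩
  obtain ⟨i, hi⟩ := hℓ16
  obtain ⟨b, hb⟩ : ∃ b : ℤ, B ^ 2 = 16 * b + 1 := ⟨B ^ 2 / 16, by omega⟩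
  rw [ha2, hi, hb] at h6
  rcases Nat.eq_zero_or_pos j with hj0 | hj0
  · subst hj0
    rw [hj] at h6
    norm_num at h6
    have h8 : (3 - 8 * z) ^ 2 = 16 * (4 * z ^ 2 - 3 * z) + 9 := by ring
    have h9 : (16 * i + 7) * (16 * b + 1) = 16 * (16 * i * b + i + 7 * b) + 7 := by ring
    have h10 : (1 + 2 - 8 * z) ^ 2 = (3 - 8 * z) ^ 2 := by ring
    omega
  · obtain ⟨y, hy⟩ : ∃ y : ℤ, (2 : ℤ) ^ h = 8 * y := by
      refine ⟨2 ^ (h - 3), ?_⟩
      have : h = 3 + (h - 3) := by omega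
      conv_lhs => rw [this, pow_add]
      norm_num
    rw [hy] at h6
    have h8 : (1 + 8 * y - 8 * z) ^ 2 = 16 * (4 * (y - z) ^ 2 + (y - z)) + 1 := by ring
    have h9 : (16 * i + 7) * (16 * b + 1) = 16 * (16 * i * b + i + 7 * b) + 7 := by ring
    omega

end

end QData

end Pool.BDP
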